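import Pool.Agent.TH160.Stm

/-!
# `ℂ(t)` is algebraically closed in the function field of the cubic (SURF-CLOSED, job 329)
-/

set_option autoImplicit false
open Polynomial IntermediateField

namespace Pool.Agent.TH241.J329

/-- `-(A + B y³) / C` is not a cube in `F(y)` -/
theorem no_cube {F L : Type} [Field F] [Field L] [Algebra F L] [CharZero F] {y : L}
    (hy : Transcendental F y) {A B C' : F} (hA : A ≠ 0) (hB : B ≠ 0) (hC : C' ≠ 0) {x : L}
    (hx : x ∈ F⟮y⟯)
    (h : algebraMap F L A + algebraMap F L B * y ^ 3 + algebraMap F L C' * x ^ 3 = 0) : False := by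
  obtain ⟨r, s, hrs⟩ := (mem_adjoin_simple_iff F _).1 hx
  have htr : ∀ p : F[X], aeval y p = 0 → p = 0 := fun p hp =>
    (transcendental_iff.1 hy) p hp
  have hs : s ≠ 0 := by
    rintro rfl
    have hx0 : x = 0 := by rw [hrs]; simp
    rw [hx0] at h
    have h1 : aeval y (C A + C B * X ^ 3 : F[X]) = 0 := by
      simp only [map_add, map_mul, aeval_C, map_pow, aeval_X]
      rw [← h]; ring
    have h2 := htr _ h1
    have h3 := congrArg (fun p : F[X] => p.coeff 0) h2
    simp at h3
    exact hA h3
  have hs' : aeval y s ≠ 0 := fun h0 => hs (htr s h0)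
  have key : (C A + C B * X ^ 3) * s ^ 3 + C C' * r ^ 3 = 0 := by
    apply htr
    simp only [map_add, map_mul, aeval_C, map_pow, aeval_X]
    have h1 : x * aeval y s = aeval y r := by
      rw [hrs, div_mul_cancel₀ _ hs']
    rw [← h1]
    have h2 := congrArg (fun w => w * (aeval y s) ^ 3) h
    simp only [zero_mul] at h2
    rw [← h2]
    ring
  let E := AlgebraicClosure F
  have keyE := congrArg (Polynomial.map (algebraMap F E)) key
  simp only [Polynomial.map_add, Polynomial.map_mul, Polynomial.map_pow, map_C, map_X,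
    Polynomial.map_zero] at keyE
  set A' := algebraMap F E A
  set B' := algebraMap F E B
  set C₁ := algebraMap F E C'
  set s' := s.map (algebraMap F E)
  set r' := r.map (algebraMap F E)
  have hA' : A' ≠ 0 := (_root_.map_ne_zero _).2 hA
  have hB' : B' ≠ 0 := (_root_.map_ne_zero _).2 hB
  have hC' : C₁ ≠ 0 := (_root_.map_ne_zero _).2 hC
  have hs'' : s' ≠ 0 := (Polynomial.map_ne_zero_iff (algebraMap F E).injective).2 hs
  set P : E[X] := C A' + C B' * X ^ 3 with hP
  have hdeg : P.natDegree = 3 := by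
    rw [hP]
    compute_degree!
  have hP0 : P ≠ 0 := by
    intro h0
    rw [h0] at hdeg
    simp at hdeg
  obtain ⟨β, hβ⟩ := IsAlgClosed.exists_root P (by
    rw [degree_eq_natDegree hP0, hdeg]
    norm_num)
  have hβ' : A' + B' * β ^ 3 = 0 := by
    have := hβ
    simpa [IsRoot, hP] using this
  have hβ0 : β ≠ 0 := by
    rintro rfl
    apply hA'
    simpa using hβ'
  have : CharZero E := charZero_of_injective_algebraMap (algebraMap F E).injective
  have hPm : P.rootMultiplicity β = 1 := by
    have h1 : 0 < P.rootMultiplicity β := (rootMultiplicity_pos hP0).2 hβ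
    have h2 : ¬ 1 < P.rootMultiplicity β := by
      rw [one_lt_rootMultiplicity_iff_isRoot hP0]
      rintro ⟨-, h3⟩
      have h5 : (2 + 1 : E) ≠ 0 := by norm_num
      have h4 : B' * ((2 + 1) * β ^ 2) = 0 := by
        have h6 : (derivative P).eval β = 0 := h3
        rw [hP] at h6
        simp only [derivative_add, derivative_C, derivative_mul, derivative_pow, derivative_X,
          eval_mul, eval_pow, eval_C, eval_X, zero_mul, zero_add, mul_one] at h6
        rw [← h6]
        norm_num
      exact (mul_ne_zero hB' (mul_ne_zero h5 (pow_ne_zero 2 hβ0))) h4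
    omega
  have hr0 : r' ≠ 0 := by
    intro h0
    rw [h0] at keyE
    have : P * s' ^ 3 = 0 := by simpa using keyE
    exact (mul_ne_zero hP0 (pow_ne_zero 3 hs'')) this
  have hm : ∀ q : E[X], q ≠ 0 → (q ^ 3).rootMultiplicity β = 3 * q.rootMultiplicity β := by
    intro q hq
    rw [pow_succ, pow_two, rootMultiplicity_mul (mul_ne_zero (mul_ne_zero hq hq) hq),
      rootMultiplicity_mul (mul_ne_zero hq hq)]
    ring
  have e1 : P * s' ^ 3 = C (-C₁) * r' ^ 3 := by
    rw [C_neg]
    linear_combination keyE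
  have e2 := congrArg (Polynomial.rootMultiplicity β) e1
  rw [rootMultiplicity_mul (mul_ne_zero hP0 (pow_ne_zero 3 hs'')), hm _ hs'', hPm,
    rootMultiplicity_mul (mul_ne_zero (C_ne_zero.2 (neg_ne_zero.2 hC')) (pow_ne_zero 3 hr0)),
    hm _ hr0, rootMultiplicity_C] at e2
  omega

/-- `F` is algebraically closed in `F(y)` -/
theorem alg_closed {F L : Type} [Field F] [Field L] [Algebra F L] {y : L}
    (hy : Transcendental F y) {a : L} (ha : a ∈ F⟮y⟯) (halg : IsAlgebraic F a) :
    a ∈ Set.range (algebraMap F L) := by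
  let e := RatFunc.algEquivOfTranscendental y hy
  have h1 : IsAlgebraic F (⟨a, ha⟩ : F⟮y⟯) := by
    refine (isAlgebraic_algebraMap_iff (algebraMap F⟮y⟯ L).injective).1 ?_
    exact halg
  have h2 : IsAlgebraic F (e.symm ⟨a, ha⟩) := h1.algHom e.symm.toAlgHom
  obtain ⟨c, hc⟩ : ∃ c, e.symm ⟨a, ha⟩ = RatFunc.C c := by
    by_contra hcon
    exact RatFunc.transcendental_of_ne_C _ hcon h2
  refine ⟨c, ?_⟩
  have h3 : (⟨a, ha⟩ : F⟮y⟯) = e (RatFunc.C c) := by
    rw [← hc, AlgEquiv.apply_symm_apply]
  have h4 : e (RatFunc.C c) = algebraMap F F⟮y⟯ c := by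
    rw [← e.commutes c]
    rfl
  rw [h4] at h3
  have h5 := congrArg (algebraMap F⟮y⟯ L) h3
  rw [← IsScalarTower.algebraMap_apply] at h5
  exact h5.symm

/-- a pure cubic extension has degree three -/
theorem fin3 {E L : Type} [Field E] [Field L] [Algebra E L] {z : L} (htop : E⟮z⟯ = ⊤) {g : E}
    (hg : z ^ 3 = algebraMap E L g) (hnc : ∀ b : E, b ^ 3 ≠ g) : Module.finrank E L = 3 := by
  have hirr : Irreducible (X ^ 3 - C g : E[X]) :=
    X_pow_sub_C_irreducible_of_prime Nat.prime_three hnc
  have hmon : (X ^ 3 - C g : E[X]).Monic := monic_X_pow_sub_C g (by norm_num)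
  have hz : aeval z (X ^ 3 - C g : E[X]) = 0 := by
    simp [hg]
  have hmin : minpoly E z = X ^ 3 - C g := (minpoly.eq_of_irreducible_of_monic hirr hz hmon).symm
  have hint : IsIntegral E z := ⟨_, hmon, by simpa [aeval_def] using hz⟩
  have h1 := adjoin.finrank hint
  rw [htop, hmin, natDegree_X_pow_sub_C] at h1
  rw [← h1]
  exact (IntermediateField.finrank_top').symm

/-- the generic statement -/
theorem main {K L : Type} [Field K] [Field L] [Algebra K L] [CharZero K] {y z : L} {A B C' : K}
    (hy : Transcendental K y) (hA : A ≠ 0) (hB : B ≠ 0) (hC : C' ≠ 0)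
    (h : algebraMap K L A + algebraMap K L B * y ^ 3 + algebraMap K L C' * z ^ 3 = 0)
    (htop : IntermediateField.adjoin K {y, z} = ⊤) {a : L} (ha : IsAlgebraic K a) :
    a ∈ Set.range (algebraMap K L) := by
  let yM : K⟮y⟯ := ⟨y, mem_adjoin_simple_self K y⟩
  let g : K⟮y⟯ := -(algebraMap K K⟮y⟯ A + algebraMap K K⟮y⟯ B * yM ^ 3) / algebraMap K K⟮y⟯ C'
  have hCL : algebraMap K L C' ≠ 0 := (_root_.map_ne_zero _).2 hC
  have hgL : algebraMap K⟮y⟯ L g = -(algebraMap K L A + algebraMap K L B * y ^ 3) /
      algebraMap K L C' := by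
    simp only [g, map_div₀, map_neg, map_add, map_mul, map_pow]
    rw [← IsScalarTower.algebraMap_apply, ← IsScalarTower.algebraMap_apply,
      ← IsScalarTower.algebraMap_apply]
    rfl
  have hzg : z ^ 3 = algebraMap K⟮y⟯ L g := by
    rw [hgL, eq_div_iff hCL]
    linear_combination h
  -- the degree over `K(y)`
  have hMtop : IntermediateField.adjoin K⟮y⟯ {z} = ⊤ := by
    rw [eq_top_iff]
    intro x _
    have hx : x ∈ IntermediateField.adjoin K {y, z} := by rw [htop]; trivial
    have h1 : IntermediateField.adjoin K {y, z} ≤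
        (IntermediateField.adjoin K⟮y⟯ {z}).restrictScalars K := by
      rw [adjoin_le_iff]
      rintro w (hw | hw)
      · rw [hw]
        exact (IntermediateField.adjoin K⟮y⟯ {z}).algebraMap_mem yM
      · rw [hw]
        exact mem_adjoin_simple_self K⟮y⟯ z
    exact h1 hx
  have d1 : Module.finrank K⟮y⟯ L = 3 := by
    refine fin3 hMtop hzg fun b hb => ?_
    refine no_cube hy hA hB hC b.2 ?_
    have h1 := congrArg (algebraMap K⟮y⟯ L) hb
    rw [map_pow, hgL, eq_div_iff hCL] at h1
    have h2 : algebraMap K⟮y⟯ L b = (b : L) := rfl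
    rw [h2] at h1
    linear_combination h1
  -- the degree over `K(y)(a)`
  let N := IntermediateField.adjoin K⟮y⟯ {a}
  have hNtop : IntermediateField.adjoin N {z} = ⊤ := by
    rw [eq_top_iff]
    intro x _
    have hx : x ∈ IntermediateField.adjoin K⟮y⟯ {z} := by rw [hMtop]; trivial
    have h1 : IntermediateField.adjoin K⟮y⟯ {z} ≤
        (IntermediateField.adjoin N {z}).restrictScalars K⟮y⟯ := by
      rw [adjoin_le_iff]
      intro w hw
      rw [Set.mem_singleton_iff.1 hw]
      exact mem_adjoin_simple_self N z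
    exact h1 hx
  have hzgN : z ^ 3 = algebraMap N L (algebraMap K⟮y⟯ N g) := by
    rw [← IsScalarTower.algebraMap_apply]
    exact hzg
  have halgA : Algebra.IsAlgebraic K K⟮a⟯ := isAlgebraic_adjoin_simple ha.isIntegral
  have hy2 : Transcendental K⟮a⟯ y := hy.extendScalars K⟮a⟯
  have : CharZero K⟮a⟯ := charZero_of_injective_algebraMap (algebraMap K K⟮a⟯).injective
  have hNle : ∀ x : L, x ∈ N → x ∈ IntermediateField.adjoin K⟮a⟯ {y} := by
    intro x hx
    let R := IntermediateField.adjoin K⟮a⟯ {y}
    have hyR : y ∈ R := mem_adjoin_simple_self K⟮a⟯ y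
    have haR : a ∈ R := R.algebraMap_mem ⟨a, mem_adjoin_simple_self K a⟩
    have hyK : K⟮y⟯ ≤ R.restrictScalars K := by
      rw [adjoin_simple_le_iff]
      exact hyR
    -- the subfield `R`, as an intermediate field over `K(y)`
    obtain ⟨r, s, hrs⟩ := (mem_adjoin_simple_iff K⟮y⟯ _).1 hx
    have hp : ∀ p : K⟮y⟯[X], aeval a p ∈ R := by
      intro p
      rw [aeval_eq_sum_range]
      refine sum_mem fun i _ => ?_
      rw [Algebra.smul_def]
      exact mul_mem (hyK (p.coeff i).2) (pow_mem haR i)
    rw [hrs]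
    exact div_mem (hp r) (hp s)
  have d2 : Module.finrank N L = 3 := by
    refine fin3 hNtop hzgN fun b hb => ?_
    have hA2 : algebraMap K K⟮a⟯ A ≠ 0 := (_root_.map_ne_zero _).2 hA
    have hB2 : algebraMap K K⟮a⟯ B ≠ 0 := (_root_.map_ne_zero _).2 hB
    have hC2 : algebraMap K K⟮a⟯ C' ≠ 0 := (_root_.map_ne_zero _).2 hC
    refine no_cube hy2 hA2 hB2 hC2 (hNle _ b.2) ?_
    rw [← IsScalarTower.algebraMap_apply, ← IsScalarTower.algebraMap_apply,
      ← IsScalarTower.algebraMap_apply]
    have h1 := congrArg (algebraMap N L) hb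
    rw [map_pow, ← IsScalarTower.algebraMap_apply, hgL, eq_div_iff hCL] at h1
    have h2 : algebraMap N L b = (b : L) := rfl
    rw [h2] at h1
    linear_combination h1
  have d3 := Module.finrank_mul_finrank K⟮y⟯ N L
  rw [d1, d2] at d3
  have d4 : Module.finrank K⟮y⟯ N = 1 := by omega
  have d5 : N = ⊥ := IntermediateField.finrank_eq_one_iff.1 d4
  have d6 : a ∈ N := mem_adjoin_simple_self K⟮y⟯ a
  rw [d5, IntermediateField.mem_bot] at d6
  obtain ⟨a', ha'⟩ := d6
  exact alg_closed hy (by rw [← ha']; exact a'.2) ha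

theorem stmClosed : TH160.StmClosed := by
  intro A B C' hA hB hC L _ _ t y z hind heq htop a ha
  have hind' := hind
  let K := IntermediateField.adjoin ℂ {t}
  let tK : K := ⟨t, mem_adjoin_simple_self ℂ t⟩
  have ht : Transcendental ℂ t := by
    have := hind.transcendental 0
    simpa using this
  have hval : ∀ p : ℂ[X], algebraMap K L (aeval tK p) = aeval t p := by
    intro p
    rw [← Polynomial.aeval_algebraMap_apply]
    rfl
  have hne : ∀ p : ℂ[X], p ≠ 0 → aeval tK p ≠ 0 := by
    intro p hp h0
    apply hp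
    apply (transcendental_iff.1 ht) p
    rw [← hval, h0, map_zero]
  have hy : Transcendental K y := by
    have h1 := hind.transcendental_adjoin (s := {0}) (i := 1) (by simp)
    have h2 : (![t, y] '' ({0} : Set (Fin 2))) = {t} := by simp
    rw [h2] at h1
    exact IntermediateField.transcendental_adjoin_iff.2 (by simpa using h1)
  have : CharZero K := charZero_of_injective_algebraMap (algebraMap ℂ K).injective
  have htop2 : IntermediateField.adjoin K {y, z} = ⊤ := by
    rw [eq_top_iff]
    intro x _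
    have hx : x ∈ IntermediateField.adjoin ℂ {t, y, z} := by rw [htop]; trivial
    have h1 : IntermediateField.adjoin ℂ {t, y, z} ≤
        (IntermediateField.adjoin K {y, z}).restrictScalars ℂ := by
      rw [adjoin_le_iff]
      rintro w (hw | hw | hw)
      · rw [hw]
        exact (IntermediateField.adjoin K {y, z}).algebraMap_mem tK
      · rw [hw]
        exact subset_adjoin K _ (by simp)
      · rw [hw]
        exact subset_adjoin K _ (by simp)
    exact h1 hx
  obtain ⟨c, hc⟩ := main (K := K) hy (hne A hA) (hne B hB) (hne C' hC)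
    (by rw [hval, hval, hval]; exact heq) htop2 ha
  rw [← hc]
  exact c.2

end Pool.Agent.TH241.J329
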