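import Pool.Agent.TH993.SP.Defs

/-! The discrete frieze inequality for antiperiodic point sequences in the plane. -/

set_option autoImplicit false

open Finset Real

namespace Pool.Agent.TH241.SPF

theorem amgm (n : ℕ) (hn : 0 < n) (z : ℕ → ℝ) (hz : ∀ i ∈ range n, 0 ≤ z i) :
    (∏ i ∈ range n, z i) ^ ((n : ℝ)⁻¹) ≤ (∑ i ∈ range n, z i) / n := by
  have hn' : (0 : ℝ) < n := by exact_mod_cast hn
  have h := Real.geom_mean_le_arith_mean_weighted (range n) (fun _ => (n : ℝ)⁻¹) z
    (fun i _ => by positivity) (by simp; field_simp) hz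
  rw [Real.finsetProd_rpow _ _ hz, ← Finset.mul_sum] at h
  rw [div_eq_inv_mul]
  exact h

theorem superadd (n : ℕ) (hn : 0 < n) (a b : ℕ → ℝ) (ha : ∀ i, 0 ≤ a i) (hb : ∀ i, 0 ≤ b i)
    (hab : ∀ i, 0 < a i + b i) :
    (∏ i ∈ range n, a i) ^ ((n : ℝ)⁻¹) + (∏ i ∈ range n, b i) ^ ((n : ℝ)⁻¹) ≤
      (∏ i ∈ range n, (a i + b i)) ^ ((n : ℝ)⁻¹) := by
  have hn' : (0 : ℝ) < n := by exact_mod_cast hn
  have h1 := amgm n hn (fun i => a i / (a i + b i)) (fun i _ => div_nonneg (ha i) (hab i).le)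
  have h2 := amgm n hn (fun i => b i / (a i + b i)) (fun i _ => div_nonneg (hb i) (hab i).le)
  have hc : 0 < ∏ i ∈ range n, (a i + b i) := prod_pos fun i _ => hab i
  have e1 : (∏ i ∈ range n, a i) = (∏ i ∈ range n, a i / (a i + b i)) *
      ∏ i ∈ range n, (a i + b i) := by
    rw [← prod_mul_distrib]
    exact prod_congr rfl fun i _ => by rw [div_mul_cancel₀ _ (hab i).ne']
  have e2 : (∏ i ∈ range n, b i) = (∏ i ∈ range n, b i / (a i + b i)) *
      ∏ i ∈ range n, (a i + b i) := by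
    rw [← prod_mul_distrib]
    exact prod_congr rfl fun i _ => by rw [div_mul_cancel₀ _ (hab i).ne']
  rw [e1, e2, Real.mul_rpow (prod_nonneg fun i _ => div_nonneg (ha i) (hab i).le) hc.le,
    Real.mul_rpow (prod_nonneg fun i _ => div_nonneg (hb i) (hab i).le) hc.le, ← add_mul]
  have h3 : (∑ i ∈ range n, a i / (a i + b i)) / n + (∑ i ∈ range n, b i / (a i + b i)) / n = 1 := by
    rw [← add_div, ← sum_add_distrib]
    have : ∀ i ∈ range n, a i / (a i + b i) + b i / (a i + b i) = 1 := fun i _ => by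
      rw [← add_div, div_self (hab i).ne']
    rw [sum_congr rfl this, sum_const, card_range, nsmul_eq_mul, mul_one, div_self hn'.ne']
  have h4 : 0 < (∏ i ∈ range n, (a i + b i)) ^ ((n : ℝ)⁻¹) := Real.rpow_pos_of_pos hc _
  nlinarith [h1, h2, h3, h4]

theorem prod_shift_one (n : ℕ) (hn : 0 < n) (f : ℕ → ℝ) (hf : ∀ i, f (i + n) = f i) :
    ∏ i ∈ range n, f (i + 1) = ∏ i ∈ range n, f i := by
  by_cases h0 : f 0 = 0
  · rw [prod_eq_zero (i := n - 1) (mem_range.2 (by omega)), prod_eq_zero (i := 0) (mem_range.2 hn) h0]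
    rw [Nat.sub_add_cancel hn]
    have := hf 0
    rw [zero_add] at this
    rw [this, h0]
  · have h1 := prod_range_succ' f n
    have h2 := prod_range_succ f n
    have h3 := hf 0
    rw [zero_add] at h3
    rw [h1, h3] at h2
    exact mul_right_cancel₀ h0 h2

theorem prod_shift (n : ℕ) (hn : 0 < n) (f : ℕ → ℝ) (hf : ∀ i, f (i + n) = f i) (c : ℕ) :
    ∏ i ∈ range n, f (i + c) = ∏ i ∈ range n, f i := by
  induction c with
  | zero => rfl
  | succ c ih =>
    rw [← ih]
    have := prod_shift_one n hn (fun i => f (i + c)) (fun i => by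
      have := hf (i + c)
      rw [show i + n + c = i + c + n by ring]
      exact this)
    rw [← this]
    exact prod_congr rfl fun i _ => by rw [show i + (c + 1) = i + 1 + c by ring]

theorem sin_id (n k : ℕ) (hk : 1 ≤ k) :
    Real.sin (k * (π / n)) ^ 2 - Real.sin ((k + 1 : ℕ) * (π / n)) * Real.sin ((k - 1 : ℕ) * (π / n)) =
      Real.sin (π / n) ^ 2 := by
  have e1 : ((k + 1 : ℕ) : ℝ) * (π / n) = k * (π / n) + π / n := by push_cast; ring
  have e2 : ((k - 1 : ℕ) : ℝ) * (π / n) = k * (π / n) - π / n := by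
    rw [Nat.cast_sub hk]; push_cast; ring
  rw [e1, e2, Real.sin_add, Real.sin_sub]
  have h1 := Real.sin_sq_add_cos_sq (k * (π / n))
  have h2 := Real.sin_sq_add_cos_sq (π / n)
  generalize (k : ℝ) * (π / n) = u at *
  generalize π / (n : ℝ) = v at *
  have h1' : Real.cos u ^ 2 = 1 - Real.sin u ^ 2 := by linarith
  have h2' : Real.cos v ^ 2 = 1 - Real.sin v ^ 2 := by linarith
  have : Real.sin u ^ 2 - (Real.sin u * Real.cos v + Real.cos u * Real.sin v) *
      (Real.sin u * Real.cos v - Real.cos u * Real.sin v) =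
      Real.sin u ^ 2 - Real.sin u ^ 2 * Real.cos v ^ 2 + Real.cos u ^ 2 * Real.sin v ^ 2 := by ring
  rw [this, h1', h2']
  ring

open Pool.Agent.TH993.SP

theorem FRZ : S_FRZ := by
  intro n m x δ hn hnm hδ hx hpos hdel
  have hn0 : 0 < n := by omega
  have hn' : (0 : ℝ) < n := by exact_mod_cast hn0
  have hm1 : 1 ≤ m := by omega
  have hmn : m ≤ n - 1 := by omega
  obtain ⟨D, hD⟩ : ∃ D : ℕ → ℕ → ℝ, D = fun i j => wd (x i) (x j) := ⟨_, rfl⟩
  have Dper : ∀ i j, D (i + n) (j + n) = D i j := by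
    intro i j
    rw [hD]
    simp only [hx, wd, Prod.fst_neg, Prod.snd_neg]
    ring
  have D0 : ∀ i, D i i = 0 := by
    intro i
    rw [hD]
    simp only [wd]
    ring
  have Dn : ∀ i, D i (i + n) = 0 := by
    intro i
    rw [hD]
    simp only [hx, wd, Prod.fst_neg, Prod.snd_neg]
    ring
  have Dpos : ∀ i j, i < j → j < i + n → 0 < D i j := by
    intro i j h1 h2
    rw [hD]
    exact hpos i j h1 h2
  have plu : ∀ i j, D i j * D (i + 1) (j + 1) = D i (i + 1) * D j (j + 1) + D i (j + 1) * D (i + 1) j := by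
    intro i j
    rw [hD]
    simp only [wd]
    ring
  obtain ⟨V, hV⟩ : ∃ V : ℕ → ℝ, V = fun k => (∏ i ∈ range n, D i (i + k)) ^ ((n : ℝ)⁻¹) := ⟨_, rfl⟩
  have hinv : ((n : ℝ)⁻¹) ≠ 0 := by positivity
  have Dnn : ∀ i k, k ≤ n → 0 ≤ D i (i + k) := by
    intro i k hk
    rcases Nat.eq_zero_or_pos k with rfl | h
    · rw [add_zero, D0]
    · rcases hk.lt_or_eq with h2 | rfl
      · exact (Dpos i (i + k) (by omega) (by omega)).le
      · rw [Dn]
  have Pnn : ∀ k, k ≤ n → 0 ≤ ∏ i ∈ range n, D i (i + k) := fun k hk => prod_nonneg fun i _ => Dnn i k hk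
  have V0 : V 0 = 0 := by
    rw [hV]
    simp only
    rw [prod_eq_zero (i := 0) (mem_range.2 hn0) (by rw [add_zero, D0]), Real.zero_rpow hinv]
  have Vn : V n = 0 := by
    rw [hV]
    simp only
    rw [prod_eq_zero (i := 0) (mem_range.2 hn0) (by rw [Dn]), Real.zero_rpow hinv]
  have Vpos : ∀ k, 1 ≤ k → k ≤ n - 1 → 0 < V k := by
    intro k h1 h2
    rw [hV]
    exact Real.rpow_pos_of_pos (prod_pos fun i _ => Dpos i (i + k) (by omega) (by omega)) _
  have per : ∀ k i, D (i + n) (i + n + k) = D i (i + k) := by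
    intro k i
    rw [show i + n + k = i + k + n by ring, Dper]
  -- the main inequality
  have key : ∀ k, 1 ≤ k → k ≤ n - 1 → V 1 ^ 2 + V (k + 1) * V (k - 1) ≤ V k ^ 2 := by
    intro k h1 h2
    have hs := superadd n hn0 (fun i => D i (i + 1) * D (i + k) (i + k + 1))
      (fun i => D i (i + k + 1) * D (i + 1) (i + k))
      (fun i => mul_nonneg (Dnn i 1 (by omega)) (Dnn (i + k) 1 (by omega)))
      (fun i => mul_nonneg (Dnn i (k + 1) (by omega)) (by
        have := Dnn (i + 1) (k - 1) (by omega)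
        rw [show i + 1 + (k - 1) = i + k by omega] at this
        exact this))
      (fun i => by
        rw [← plu i (i + k)]
        have e : i + k + 1 = i + 1 + k := by ring
        rw [e]
        exact mul_pos (Dpos i (i + k) (by omega) (by omega)) (Dpos (i + 1) (i + 1 + k) (by omega) (by omega)))
    have e1 : ∏ i ∈ range n, (D i (i + 1) * D (i + k) (i + k + 1)) =
        (∏ i ∈ range n, D i (i + 1)) * ∏ i ∈ range n, D i (i + 1) := by
      rw [prod_mul_distrib, prod_shift n hn0 (fun i => D i (i + 1)) (fun i => per 1 i) k]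
    have e2 : ∏ i ∈ range n, (D i (i + k + 1) * D (i + 1) (i + k)) =
        (∏ i ∈ range n, D i (i + (k + 1))) * ∏ i ∈ range n, D i (i + (k - 1)) := by
      rw [prod_mul_distrib]
      congr 1
      rw [← prod_shift n hn0 (fun i => D i (i + (k - 1))) (fun i => per (k - 1) i) 1]
      exact prod_congr rfl fun i _ => by rw [show i + 1 + (k - 1) = i + k by omega]
    have e3 : ∏ i ∈ range n, (D i (i + 1) * D (i + k) (i + k + 1) + D i (i + k + 1) * D (i + 1) (i + k)) =
        (∏ i ∈ range n, D i (i + k)) * ∏ i ∈ range n, D i (i + k) := by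
      have : ∀ i ∈ range n, D i (i + 1) * D (i + k) (i + k + 1) + D i (i + k + 1) * D (i + 1) (i + k) =
          D i (i + k) * D (i + 1) (i + 1 + k) := by
        intro i _
        rw [← plu i (i + k), show i + k + 1 = i + 1 + k by ring]
      rw [prod_congr rfl this, prod_mul_distrib,
        prod_shift n hn0 (fun i => D i (i + k)) (fun i => per k i) 1]
    rw [e1, e2, e3, Real.mul_rpow (Pnn 1 (by omega)) (Pnn 1 (by omega)),
      Real.mul_rpow (Pnn (k + 1) (by omega)) (Pnn (k - 1) (by omega)),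
      Real.mul_rpow (Pnn k (by omega)) (Pnn k (by omega))] at hs
    rw [hV]
    simp only [pow_two]
    exact hs
  obtain ⟨s, hs⟩ : ∃ s : ℕ → ℝ, s = fun k : ℕ => Real.sin ((k : ℝ) * (π / n)) := ⟨_, rfl⟩
  have s0 : s 0 = 0 := by rw [hs]; simp
  have sn : s n = 0 := by
    rw [hs]
    simp only
    rw [mul_div_cancel₀ _ hn'.ne', Real.sin_pi]
  have spos : ∀ k, 1 ≤ k → k ≤ n - 1 → 0 < s k := by
    intro k h1 h2
    rw [hs]
    apply Real.sin_pos_of_pos_of_lt_pi
    · have : (0 : ℝ) < k := by exact_mod_cast h1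
      positivity
    · have : (k : ℝ) < n := by exact_mod_cast (by omega : k < n)
      rw [mul_div_assoc', div_lt_iff₀ hn', mul_comm]
      exact mul_lt_mul_of_pos_left this Real.pi_pos
  have s1 : s 1 = Real.sin (π / n) := by rw [hs]; simp
  have sm : s m = 1 := by
    rw [hs]
    simp only
    have : (m : ℝ) * (π / n) = π / 2 := by
      rw [hnm]
      have : (m : ℝ) ≠ 0 := by
        have : 0 < m := hm1
        positivity
      push_cast
      field_simp
    rw [this, Real.sin_pi_div_two]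
  have sid : ∀ k, 1 ≤ k → s k ^ 2 - s (k + 1) * s (k - 1) = s 1 ^ 2 := by
    intro k hk
    rw [s1, hs]
    exact sin_id n k hk
  -- the minimum
  obtain ⟨k, hk, hmin⟩ := exists_min_image (Icc 1 (n - 1)) (fun k => V k / s k) ⟨m, mem_Icc.2 ⟨hm1, hmn⟩⟩
  rw [mem_Icc] at hk
  obtain ⟨r, hr⟩ : ∃ r : ℝ, r = V k / s k := ⟨_, rfl⟩
  have hsk := spos k hk.1 hk.2
  have hr0 : 0 < r := by rw [hr]; exact div_pos (Vpos k hk.1 hk.2) hsk
  have hVk : V k = r * s k := by rw [hr, div_mul_cancel₀ _ hsk.ne']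
  have hle : ∀ j, j ≤ n → r * s j ≤ V j := by
    intro j hj
    rcases Nat.eq_zero_or_pos j with rfl | h0
    · rw [s0, V0, mul_zero]
    · rcases hj.lt_or_eq with h1 | rfl
      · have h2 := hmin j (mem_Icc.2 ⟨h0, by omega⟩)
        rw [← hr, le_div_iff₀ (spos j h0 (by omega))] at h2
        exact h2
      · rw [sn, Vn, mul_zero]
  have snn : ∀ j, j ≤ n → 0 ≤ s j := by
    intro j hj
    rcases Nat.eq_zero_or_pos j with rfl | h0
    · rw [s0]
    · rcases hj.lt_or_eq with h1 | rfl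
      · exact (spos j h0 (by omega)).le
      · rw [sn]
  have h1 : V 1 ≤ r * s 1 := by
    have h2 := key k hk.1 hk.2
    have h3 : (r * s (k + 1)) * (r * s (k - 1)) ≤ V (k + 1) * V (k - 1) :=
      mul_le_mul (hle (k + 1) (by omega)) (hle (k - 1) (by omega))
        (mul_nonneg hr0.le (snn _ (by omega)))
        ((mul_nonneg hr0.le (snn _ (by omega))).trans (hle (k + 1) (by omega)))
    have h4 := sid k hk.1
    rw [hVk] at h2
    have h5 : V 1 ^ 2 ≤ (r * s 1) ^ 2 := by
      have : (r * s 1) ^ 2 = (r * s k) ^ 2 - (r * s (k + 1)) * (r * s (k - 1)) := by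
        rw [mul_pow, ← h4]
        ring
      rw [this]
      linarith
    exact le_of_sq_le_sq h5 (mul_nonneg hr0.le (snn _ (by omega)))
  have h2 : δ ≤ V 1 := by
    rw [hV]
    simp only
    have : δ ^ n ≤ ∏ i ∈ range n, D i (i + 1) := by
      rw [← Finset.card_range n, ← Finset.prod_const, Finset.card_range]
      apply prod_le_prod
      · intro i _
        exact hδ.le
      · intro i _
        rw [hD]
        exact hdel i
    calc δ = (δ ^ n) ^ ((n : ℝ)⁻¹) := by
          rw [Real.pow_rpow_inv_natCast hδ.le hn0.ne']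
      _ ≤ _ := Real.rpow_le_rpow (by positivity) this (by positivity)
  have hs1 : 0 < s 1 := spos 1 le_rfl (by omega)
  have h3 : δ / Real.sin (π / n) ≤ V m := by
    have h4 := hle m (by omega)
    rw [sm, mul_one] at h4
    refine le_trans ?_ h4
    rw [← s1, div_le_iff₀ hs1]
    exact h2.trans h1
  have h4 := amgm n hn0 (fun i => D i (i + m)) (fun i _ => Dnn i m (by omega))
  have h5 : V m = (∏ i ∈ range n, D i (i + m)) ^ ((n : ℝ)⁻¹) := by rw [hV]
  rw [← h5] at h4
  have h6 := h3.trans h4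
  rw [le_div_iff₀ hn'] at h6
  rw [hD] at h6
  linarith [h6]

end Pool.Agent.TH241.SPF
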