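import Mathlib

/-!
# Job 547 (CF-POWER): a permutation with many different prime cycle lengths has a power of small
support
-/

set_option autoImplicit false

namespace Pool.Agent.TH241.J547

open Equiv

/-- rotation of `Fin p` -/
theorem rot_pow (p k : ℕ) (hp : 0 < p) (h : ((finRotate p) ^ k) ⟨0, hp⟩ = ⟨0, hp⟩) : p ∣ k := by
  obtain ⟨n, rfl⟩ : ∃ n, p = n + 1 := ⟨p - 1, by omega⟩
  have h1 : ∀ k : ℕ, (((finRotate (n + 1)) ^ k) ⟨0, hp⟩).val = k % (n + 1) := by
    intro k
    induction k with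
    | zero => simp
    | succ k ih =>
      rw [pow_succ', Perm.mul_apply, finRotate_apply, Fin.val_add, ih, Fin.val_one']
      simp
  have h2 := h1 k
  rw [h] at h2
  exact Nat.dvd_of_mod_eq_zero h2.symm

theorem card_le_log (P : Finset ℕ) (hP : ∀ p ∈ P, p.Prime) (l : ℕ) (hl : 0 < l) :
    (P.filter (fun p => p ∣ l)).card ≤ Nat.log 2 l := by
  refine Nat.le_log_of_pow_le (by norm_num) ?_
  have h1 : P.filter (fun p => p ∣ l) ⊆ l.primeFactors := by
    intro p hp
    rw [Finset.mem_filter] at hp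
    exact Nat.mem_primeFactors.2 ⟨hP p hp.1, hp.2, hl.ne'⟩
  calc 2 ^ (P.filter (fun p => p ∣ l)).card ≤ 2 ^ l.primeFactors.card :=
        Nat.pow_le_pow_right (by norm_num) (Finset.card_le_card h1)
    _ ≤ ∏ p ∈ l.primeFactors, p :=
        Finset.pow_card_le_prod _ _ _ fun p hp => (Nat.prime_of_mem_primeFactors hp).two_le
    _ ≤ l := Nat.le_of_dvd hl (Nat.prod_primeFactors_dvd l)

theorem small_support {Δ : Type} [Fintype Δ] [DecidableEq Δ] (H : Subgroup (Perm Δ))
    (P : Finset ℕ) (hP : ∀ p ∈ P, p.Prime) (hP0 : P.Nonempty)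
    (hσ : ∀ σ : Perm (Fin (∑ p ∈ P, p)), ∃ v : Fin (∑ p ∈ P, p) → Δ, Function.Injective v ∧
      ∃ h ∈ H, ∀ i, h (v i) = v (σ i)) :
    ∃ g ∈ H, g ≠ 1 ∧ g.support.card * P.card ≤ Fintype.card Δ * Nat.log 2 (Fintype.card Δ) := by
  classical
  -- the index type
  have hcard : Fintype.card (Σ p : P, Fin p.1) = ∑ p ∈ P, p := by
    rw [Fintype.card_sigma]
    simp only [Fintype.card_fin]
    exact Finset.sum_coe_sort P (fun p => p)
  let e : (Σ p : P, Fin p.1) ≃ Fin (∑ p ∈ P, p) := Fintype.equivFinOfCardEq hcard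
  let σ₀ : Perm (Σ p : P, Fin p.1) := Equiv.sigmaCongrRight fun p => finRotate p.1
  obtain ⟨v, hv, h, hH, hhv⟩ := hσ (e.permCongr σ₀)
  have hpow : ∀ (k : ℕ) (q : Σ p : P, Fin p.1), (h ^ k) (v (e q)) =
      v (e ⟨q.1, (finRotate q.1.1 ^ k) q.2⟩) := by
    intro k
    induction k with
    | zero => intro q; rfl
    | succ k ih =>
      intro q
      rw [pow_succ', Perm.mul_apply, ih, hhv, Equiv.permCongr_apply, Equiv.symm_apply_apply,
        pow_succ', Perm.mul_apply]
      rfl
  have hmin : ∀ (p : ℕ) (hp : p ∈ P) (k : ℕ),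
      (h ^ k) (v (e ⟨⟨p, hp⟩, ⟨0, (hP p hp).pos⟩⟩)) = v (e ⟨⟨p, hp⟩, ⟨0, (hP p hp).pos⟩⟩) →
      p ∣ k := by
    intro p hp k hk
    rw [hpow] at hk
    have h1 := e.injective (hv hk)
    rw [Sigma.mk.injEq] at h1
    exact rot_pow p k (hP p hp).pos (eq_of_heq h1.2)
  -- the powers
  set N := orderOf h with hN
  have hN0 : N ≠ 0 := (orderOf_pos h).ne'
  let g : ℕ → Perm Δ := fun p => h ^ (ordCompl[p] N)
  have hg1 : ∀ p ∈ P, g p ≠ 1 := by
    intro p hp h1
    have h2 : (g p) (v (e ⟨⟨p, hp⟩, ⟨0, (hP p hp).pos⟩⟩)) =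
        v (e ⟨⟨p, hp⟩, ⟨0, (hP p hp).pos⟩⟩) := by rw [h1]; rfl
    exact Nat.not_dvd_ordCompl (hP p hp) hN0 (hmin p hp _ h2)
  have hgx : ∀ p ∈ P, ∀ x ∈ (g p).support, p ∣ Function.minimalPeriod h x := by
    intro p hp x hx
    by_contra hnd
    have h1 : Function.minimalPeriod h x ∣ N := by
      refine Function.IsPeriodicPt.minimalPeriod_dvd ?_
      show (⇑h)^[N] x = x
      rw [Perm.iterate_eq_pow, hN, pow_orderOf_eq_one]
      rfl
    rw [← Nat.ordProj_mul_ordCompl_eq_self N p] at h1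
    have h2 : Nat.Coprime (Function.minimalPeriod h x) (ordProj[p] N) :=
      (((hP p hp).coprime_iff_not_dvd.2 hnd).symm).pow_right _
    have h3 : Function.minimalPeriod h x ∣ ordCompl[p] N := h2.dvd_of_dvd_mul_left h1
    rw [Perm.mem_support] at hx
    apply hx
    have h4 : Function.IsPeriodicPt h (ordCompl[p] N) x :=
      (Function.isPeriodicPt_minimalPeriod h x).trans_dvd h3
    have h5 : (⇑h)^[ordCompl[p] N] x = x := h4
    rw [Perm.iterate_eq_pow] at h5
    exact h5
  -- double counting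
  have hsum : ∑ p ∈ P, (g p).support.card ≤
      Fintype.card Δ * Nat.log 2 (Fintype.card Δ) := by
    calc ∑ p ∈ P, (g p).support.card
        ≤ ∑ p ∈ P, (Finset.univ.filter fun x => p ∣ Function.minimalPeriod h x).card := by
          refine Finset.sum_le_sum fun p hp => Finset.card_le_card fun x hx => ?_
          exact Finset.mem_filter.2 ⟨Finset.mem_univ _, hgx p hp x hx⟩
      _ = ∑ x : Δ, (P.filter fun p => p ∣ Function.minimalPeriod h x).card := by
          simp only [Finset.card_filter]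
          exact Finset.sum_comm
      _ ≤ ∑ _x : Δ, Nat.log 2 (Fintype.card Δ) := by
          refine Finset.sum_le_sum fun x _ => ?_
          have hpos : 0 < Function.minimalPeriod h x := by
            refine Function.minimalPeriod_pos_of_mem_periodicPts ?_
            exact ⟨N, Nat.pos_of_ne_zero hN0, by
              show (⇑h)^[N] x = x
              rw [Perm.iterate_eq_pow, hN, pow_orderOf_eq_one]
              rfl⟩
          refine (card_le_log P hP _ hpos).trans (Nat.log_mono_right ?_)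
          exact Function.minimalPeriod_le_card
      _ = _ := by simp [Finset.card_univ]
  by_contra hcon
  push Not at hcon
  have h1 : ∀ p ∈ P, Fintype.card Δ * Nat.log 2 (Fintype.card Δ) <
      (g p).support.card * P.card := fun p hp => hcon (g p) (H.pow_mem hH _) (hg1 p hp)
  have h2 := Finset.sum_lt_sum_of_nonempty hP0 h1
  rw [Finset.sum_const, smul_eq_mul, ← Finset.sum_mul, mul_comm P.card] at h2
  exact absurd (Nat.mul_le_mul_right P.card hsum) (not_le.2 h2)

end Pool.Agent.TH241.J547
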