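import Mathlib

/-!
# Job 389 (CR-AFPEEL): the peeling property of the AF relation
-/

set_option autoImplicit false
set_option linter.unusedSectionVars false

namespace Pool.Agent.TH241.CRAFPEEL

open Set MeasureTheory

section basics

variable {N : ℕ → ℕ}

/-- the restriction to the first `k` coordinates -/
def pr (N : ℕ → ℕ) (k : ℕ) (x : ∀ k, Fin (N k)) : ∀ i : Fin k, Fin (N i) := fun i => x i

theorem pr_eq_iff {k : ℕ} {x y : ∀ k, Fin (N k)} : pr N k x = pr N k y ↔ ∀ i, i < k → x i = y i := by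
  constructor
  · intro h i hi
    exact congrFun h ⟨i, hi⟩
  · intro h
    funext i
    exact h i i.2

theorem continuous_pr (k : ℕ) : Continuous (pr N k) :=
  continuous_pi fun i => continuous_apply (i : ℕ)

theorem isClopen_pr (k : ℕ) (W : Set (∀ i : Fin k, Fin (N i))) : IsClopen (pr N k ⁻¹' W) :=
  (isClopen_discrete W).preimage (continuous_pr k)

theorem pr_surj (u₀ : ∀ k, Fin (N k)) (k : ℕ) : Function.Surjective (pr N k) := by
  intro w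
  refine ⟨fun i => if h : i < k then w ⟨i, h⟩ else u₀ i, ?_⟩
  funext i
  simp [pr]

/-- a clopen set is determined by finitely many coordinates -/
theorem clopen_rep {D : Set (∀ k, Fin (N k))} (hD : IsClopen D) :
    ∃ k₀, ∀ k, k₀ ≤ k → ∃ W : Finset (∀ i : Fin k, Fin (N i)), D = pr N k ⁻¹' W := by
  classical
  -- locally constant
  have h1 : ∀ x : ∀ k, Fin (N k), ∃ k, ∀ y, pr N k y = pr N k x → (y ∈ D ↔ x ∈ D) := by
    intro x
    by_cases hx : x ∈ D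
    · obtain ⟨s, ⟨u, n, rfl⟩, hxs, hs⟩ :=
        (PiNat.isTopologicalBasis_cylinders (fun k => Fin (N k))).exists_subset_of_mem_open hx
          hD.isOpen
      refine ⟨n, fun y hy => iff_of_true (hs ?_) hx⟩
      intro i hi
      rw [← hxs i hi]
      exact pr_eq_iff.1 hy i hi
    · obtain ⟨s, ⟨u, n, rfl⟩, hxs, hs⟩ :=
        (PiNat.isTopologicalBasis_cylinders (fun k => Fin (N k))).exists_subset_of_mem_open
          (show x ∈ Dᶜ from hx) hD.compl.isOpen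
      refine ⟨n, fun y hy => iff_of_false (hs ?_) hx⟩
      intro i hi
      rw [← hxs i hi]
      exact pr_eq_iff.1 hy i hi
  have h2 : ∃ k₀, ∀ x ∈ (univ : Set (∀ k, Fin (N k))), ∀ y, pr N k₀ y = pr N k₀ x →
      (y ∈ D ↔ x ∈ D) := by
    refine isCompact_univ.induction_on (p := fun S => ∃ k₀, ∀ x ∈ S, ∀ y,
      pr N k₀ y = pr N k₀ x → (y ∈ D ↔ x ∈ D)) ⟨0, by simp⟩ ?_ ?_ ?_
    · rintro S T hST ⟨k, hk⟩
      exact ⟨k, fun x hx => hk x (hST hx)⟩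
    · rintro S T ⟨k, hk⟩ ⟨l, hl⟩
      refine ⟨max k l, fun x hx y hy => ?_⟩
      rw [pr_eq_iff] at hy
      rcases hx with hx | hx
      · exact hk x hx y (pr_eq_iff.2 fun i hi => hy i (lt_of_lt_of_le hi (le_max_left _ _)))
      · exact hl x hx y (pr_eq_iff.2 fun i hi => hy i (lt_of_lt_of_le hi (le_max_right _ _)))
    · intro x _
      obtain ⟨k, hk⟩ := h1 x
      refine ⟨pr N k ⁻¹' {pr N k x}, mem_nhdsWithin_of_mem_nhds
        ((isClopen_pr k _).isOpen.mem_nhds rfl), k, ?_⟩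
      intro a ha y hy
      have ha' : pr N k a = pr N k x := ha
      rw [hk y (hy.trans ha'), hk a ha']
  obtain ⟨k₀, hk₀⟩ := h2
  refine ⟨k₀, fun k hk => ⟨Finset.univ.filter fun w => ∃ x ∈ D, pr N k x = w, ?_⟩⟩
  ext x
  simp only [Finset.coe_filter, Finset.mem_univ, true_and, mem_preimage, mem_ofPred_eq]
  constructor
  · intro hx
    exact ⟨x, hx, rfl⟩
  · rintro ⟨y, hy, hyx⟩
    refine (hk₀ y (mem_univ _) x ?_).2 hy
    rw [pr_eq_iff] at hyx ⊢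
    exact fun i hi => (hyx i (lt_of_lt_of_le hi hk)).symm

variable {lam : Measure (∀ k, Fin (N k))}

theorem lam_cyl (hlam : ∀ (k : ℕ) (u : ∀ k, Fin (N k)),
      lam {x | ∀ i, i < k → x i = u i} = (∏ i ∈ Finset.range k, (N i : ENNReal))⁻¹)
    (u₀ : ∀ k, Fin (N k)) (k : ℕ) (w : ∀ i : Fin k, Fin (N i)) :
    lam (pr N k ⁻¹' {w}) = (∏ i ∈ Finset.range k, (N i : ENNReal))⁻¹ := by
  obtain ⟨u, rfl⟩ := pr_surj u₀ k w
  rw [← hlam k u]
  congr 1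
  ext x
  simp [pr_eq_iff]

theorem lam_rep (hlam : ∀ (k : ℕ) (u : ∀ k, Fin (N k)),
      lam {x | ∀ i, i < k → x i = u i} = (∏ i ∈ Finset.range k, (N i : ENNReal))⁻¹)
    (u₀ : ∀ k, Fin (N k)) (k : ℕ) (W : Finset (∀ i : Fin k, Fin (N i))) :
    lam (pr N k ⁻¹' W) = W.card * (∏ i ∈ Finset.range k, (N i : ENNReal))⁻¹ := by
  rw [← sum_measure_preimage_singleton W fun w _ => (isClopen_pr k {w}).isOpen.measurableSet]
  simp only [lam_cyl hlam u₀]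
  rw [Finset.sum_const, nsmul_eq_mul]

theorem prod_ne_zero (u₀ : ∀ k, Fin (N k)) (k : ℕ) :
    (∏ i ∈ Finset.range k, (N i : ENNReal)) ≠ 0 := by
  rw [Finset.prod_ne_zero_iff]
  intro i _
  have := (u₀ i).pos
  exact_mod_cast this.ne'

theorem prod_ne_top (k : ℕ) :
    (∏ i ∈ Finset.range k, (N i : ENNReal)) ≠ ⊤ := by
  exact ENNReal.prod_ne_top fun i _ => ENNReal.natCast_ne_top (N i)

/-- nonempty open sets have positive measure -/
theorem lam_pos (hlam : ∀ (k : ℕ) (u : ∀ k, Fin (N k)),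
      lam {x | ∀ i, i < k → x i = u i} = (∏ i ∈ Finset.range k, (N i : ENNReal))⁻¹)
    {O : Set (∀ k, Fin (N k))} (hO : IsOpen O) (hne : O.Nonempty) : 0 < lam O := by
  obtain ⟨x, hx⟩ := hne
  obtain ⟨s, ⟨u, n, rfl⟩, hxs, hs⟩ :=
    (PiNat.isTopologicalBasis_cylinders (fun k => Fin (N k))).exists_subset_of_mem_open hx hO
  have h1 : lam (PiNat.cylinder u n) = (∏ i ∈ Finset.range n, (N i : ENNReal))⁻¹ := by
    rw [← hlam n u]
    rfl
  refine lt_of_lt_of_le ?_ (measure_mono hs)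
  rw [h1]
  exact ENNReal.inv_pos.2 (prod_ne_top n)

/-- intermediate values of the measure of clopen sets -/
theorem intermediate [IsProbabilityMeasure lam] (hlam : ∀ (k : ℕ) (u : ∀ k, Fin (N k)),
      lam {x | ∀ i, i < k → x i = u i} = (∏ i ∈ Finset.range k, (N i : ENNReal))⁻¹)
    (u₀ : ∀ k, Fin (N k)) {K Q P : Set (∀ k, Fin (N k))} (hK : IsClosed K) (hQ : IsClopen Q)
    (hP : IsClopen P) (hKQ : K ⊆ Q) (h1 : lam K < lam P) (h2 : lam P ≤ lam Q) :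
    ∃ R, IsClopen R ∧ K ⊆ R ∧ R ⊆ Q ∧ lam R = lam P := by
  classical
  obtain ⟨O, hKO, hO, hOlt⟩ := K.exists_isOpen_lt_of_lt _ h1
  obtain ⟨Q₁, hQ₁, hKQ₁, hQ₁O⟩ := exists_clopen_of_closed_subset_open hK (hO.inter hQ.isOpen)
    (subset_inter hKO hKQ)
  obtain ⟨k₁, hk₁⟩ := clopen_rep hQ₁
  obtain ⟨k₂, hk₂⟩ := clopen_rep hQ
  obtain ⟨k₃, hk₃⟩ := clopen_rep hP
  let k := max k₁ (max k₂ k₃)
  obtain ⟨W₁, hW₁⟩ := hk₁ k (le_max_left _ _)
  obtain ⟨W₂, hW₂⟩ := hk₂ k (le_trans (le_max_left _ _) (le_max_right _ _))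
  obtain ⟨W₃, hW₃⟩ := hk₃ k (le_trans (le_max_right _ _) (le_max_right _ _))
  have hδ0 : (∏ i ∈ Finset.range k, (N i : ENNReal))⁻¹ ≠ 0 :=
    ENNReal.inv_ne_zero.2 (prod_ne_top k)
  have hδt : (∏ i ∈ Finset.range k, (N i : ENNReal))⁻¹ ≠ ⊤ :=
    ENNReal.inv_ne_top.2 (prod_ne_zero u₀ k)
  have e1 : lam Q₁ ≤ lam P := (measure_mono (hQ₁O.trans inter_subset_left)).trans hOlt.le
  have c1 : W₁.card ≤ W₃.card := by
    rw [hW₁, hW₃, lam_rep hlam u₀, lam_rep hlam u₀] at e1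
    have := (ENNReal.mul_le_mul_iff_left hδ0 hδt).1 e1
    exact_mod_cast this
  have c2 : W₃.card ≤ W₂.card := by
    have e2 := h2
    rw [hW₂, hW₃, lam_rep hlam u₀, lam_rep hlam u₀] at e2
    have := (ENNReal.mul_le_mul_iff_left hδ0 hδt).1 e2
    exact_mod_cast this
  have hsub : W₁ ⊆ W₂ := by
    intro w hw
    obtain ⟨x, rfl⟩ := pr_surj u₀ k w
    have h3 : x ∈ Q₁ := by rw [hW₁]; exact hw
    have h4 : x ∈ Q := (hQ₁O h3).2
    rw [hW₂] at h4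
    exact h4
  obtain ⟨W, hW1, hW2, hWc⟩ := Finset.exists_subsuperset_card_eq hsub c1 c2
  refine ⟨pr N k ⁻¹' W, isClopen_pr k _, ?_, ?_, ?_⟩
  · refine hKQ₁.trans ?_
    rw [hW₁]
    exact preimage_mono (by exact_mod_cast hW1)
  · rw [hW₂]
    exact preimage_mono (by exact_mod_cast hW2)
  · rw [hW₃, lam_rep hlam u₀, lam_rep hlam u₀, hWc]

end basics

/-- the fibre of a set -/
abbrev fib {Z Ω : Type} (S : Set (Z × Ω)) (z : Z) : Set Ω := {x | (z, x) ∈ S}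

section main

variable {Z : Type} [TopologicalSpace Z] [CompactSpace Z] [T2Space Z]
  [TotallyDisconnectedSpace Z] {N : ℕ → ℕ} {lam : Measure (∀ k, Fin (N k))}

theorem isClopen_fib {S : Set (Z × ∀ k, Fin (N k))} (hS : IsClopen S) (z : Z) :
    IsClopen (fib S z) := hS.preimage (Continuous.prodMk_right z)

theorem isClosed_fib {S : Set (Z × ∀ k, Fin (N k))} (hS : IsClosed S) (z : Z) :
    IsClosed (fib S z) := hS.preimage (Continuous.prodMk_right z)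

/-- the AF homeomorphisms preserve the fibre measures -/
theorem lam_image (hlaminv : ∀ S : Set (∀ k, Fin (N k)), MeasurableSet S →
      ∀ f : (∀ k, Fin (N k)) → ∀ k, Fin (N k), Measurable f → InjOn f S →
      (∀ x ∈ S, ∃ k, ∀ i, k ≤ i → x i = f x i) → lam (f '' S) = lam S)
    {T : (Z × ∀ k, Fin (N k)) ≃ₜ (Z × ∀ k, Fin (N k))}
    (hT : ∀ p, p.1 = (T p).1 ∧ ∃ k, ∀ i, k ≤ i → p.2 i = (T p).2 i)
    {P : Set (Z × ∀ k, Fin (N k))} (hP : IsClopen P) (z : Z) :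
    lam (fib (T '' P) z) = lam (fib P z) := by
  have hf : Continuous fun x : ∀ k, Fin (N k) => (T (z, x)).2 :=
    continuous_snd.comp (T.continuous.comp (Continuous.prodMk_right z))
  have h1 := hlaminv (fib P z) (isClopen_fib hP z).isOpen.measurableSet
    (fun x => (T (z, x)).2) hf.measurable ?_ ?_
  · rw [← h1]
    congr 1
    ext y
    constructor
    · rintro ⟨⟨z', x⟩, hp, hpy⟩
      have h2 := (hT (z', x)).1
      rw [hpy] at h2
      have h3 : z' = z := h2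
      subst h3
      exact ⟨x, hp, congrArg Prod.snd hpy⟩
    · rintro ⟨x, hx, hxy⟩
      refine ⟨(z, x), hx, Prod.ext (hT (z, x)).1.symm hxy⟩
  · intro x _ y _ hxy
    have h2 : T (z, x) = T (z, y) := by
      refine Prod.ext ?_ hxy
      rw [← (hT (z, x)).1, ← (hT (z, y)).1]
    exact (Prod.ext_iff.1 (T.injective h2)).2
  · intro x _
    exact (hT (z, x)).2

/-- clopen sets with equal fibre measures are equivalent -/
theorem equiv_of_eq [IsProbabilityMeasure lam] (hlam : ∀ (k : ℕ) (u : ∀ k, Fin (N k)),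
      lam {x | ∀ i, i < k → x i = u i} = (∏ i ∈ Finset.range k, (N i : ENNReal))⁻¹)
    (hlaminv : ∀ S : Set (∀ k, Fin (N k)), MeasurableSet S →
      ∀ f : (∀ k, Fin (N k)) → ∀ k, Fin (N k), Measurable f → InjOn f S →
      (∀ x ∈ S, ∃ k, ∀ i, k ≤ i → x i = f x i) → lam (f '' S) = lam S)
    (hcmp : ∀ P Q : Set (Z × ∀ k, Fin (N k)), IsClopen P → IsClopen Q →
      (∀ z, lam {x | (z, x) ∈ P} ≤ lam {x | (z, x) ∈ Q}) →
      ∃ T : (Z × ∀ k, Fin (N k)) ≃ₜ (Z × ∀ k, Fin (N k)),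
        (∀ p, p.1 = (T p).1 ∧ ∃ k, ∀ i, k ≤ i → p.2 i = (T p).2 i) ∧ T '' P ⊆ Q)
    {P Q : Set (Z × ∀ k, Fin (N k))} (hP : IsClopen P) (hQ : IsClopen Q)
    (h : ∀ z, lam (fib P z) = lam (fib Q z)) :
    ∃ T : (Z × ∀ k, Fin (N k)) ≃ₜ (Z × ∀ k, Fin (N k)),
        (∀ p, p.1 = (T p).1 ∧ ∃ k, ∀ i, k ≤ i → p.2 i = (T p).2 i) ∧ T '' P = Q := by
  obtain ⟨T, hT, hTP⟩ := hcmp P Q hP hQ fun z => (h z).le
  refine ⟨T, hT, hTP.antisymm ?_⟩
  rintro ⟨z, x⟩ hx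
  by_contra hcon
  have hTc : IsClopen (T '' P) := ⟨T.isClosedMap _ hP.1, T.isOpenMap _ hP.2⟩
  have h1 : IsClopen (fib (T '' P) z) := isClopen_fib hTc z
  have h2 : IsOpen (fib Q z \ fib (T '' P) z) := (isClopen_fib hQ z).isOpen.sdiff h1.isClosed
  have h3 := lam_pos hlam h2 ⟨x, hx, hcon⟩
  rw [measure_sdiff (show fib (T '' P) z ⊆ fib Q z from fun y hy => hTP hy) h1.isOpen.measurableSet.nullMeasurableSet
    (measure_ne_top _ _), lam_image hlaminv hT hP, h z, tsub_self] at h3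
  exact lt_irrefl _ h3

/-- `θ` preserves the measure of clopen parts of the fibres -/
theorem meas_theta [IsProbabilityMeasure lam] (u₀ : ∀ k, Fin (N k))
    {A : Set (Z × ∀ k, Fin (N k))} (hA : IsClosed A)
    {θ : (Z × ∀ k, Fin (N k)) → (Z × ∀ k, Fin (N k))} (hθc : ContinuousOn θ A) (hθi : InjOn θ A)
    (hθ1 : ∀ p ∈ A, (θ p).1 = p.1)
    (hθm : ∀ (z : Z) (k : ℕ) (u : ∀ k, Fin (N k)),
      lam {x | (z, x) ∈ A ∧ ∀ i, i < k → x i = u i} =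
        lam {y | ∃ x, (z, x) ∈ A ∧ (∀ i, i < k → x i = u i) ∧ θ (z, x) = (z, y)})
    {C : Set (Z × ∀ k, Fin (N k))} (hC : IsClopen C) (z : Z) :
    lam (fib (A ∩ C) z) = lam (fib (θ '' (A ∩ C)) z) := by
  obtain ⟨k, hk⟩ := clopen_rep (isClopen_fib hC z)
  obtain ⟨W, hW⟩ := hk k le_rfl
  have e1 : fib (A ∩ C) z = ⋃ w ∈ W, {x | (z, x) ∈ A ∧ pr N k x = w} := by
    ext x
    simp only [mem_iUnion, exists_prop]
    constructor
    · rintro ⟨hxA, hxC⟩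
      have : x ∈ fib C z := hxC
      rw [hW] at this
      exact ⟨pr N k x, this, hxA, rfl⟩
    · rintro ⟨w, hw, hxA, hxw⟩
      refine ⟨hxA, ?_⟩
      have : x ∈ fib C z := by
        rw [hW, mem_preimage, hxw]
        exact hw
      exact this
  have e2 : fib (θ '' (A ∩ C)) z =
      ⋃ w ∈ W, {y | ∃ x, (z, x) ∈ A ∧ pr N k x = w ∧ θ (z, x) = (z, y)} := by
    ext y
    simp only [mem_iUnion, exists_prop]
    constructor
    · rintro ⟨⟨z', x⟩, ⟨hxA, hxC⟩, hxy⟩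
      have h2 := hθ1 _ hxA
      rw [hxy] at h2
      have h3 : z = z' := h2
      subst h3
      have : x ∈ fib C z := hxC
      rw [hW] at this
      exact ⟨pr N k x, this, x, hxA, rfl, hxy⟩
    · rintro ⟨w, hw, x, hxA, hxw, hxy⟩
      refine ⟨(z, x), ⟨hxA, ?_⟩, hxy⟩
      have : x ∈ fib C z := by
        rw [hW, mem_preimage, hxw]
        exact hw
      exact this
  have hm1 : ∀ w, IsClosed {x | (z, x) ∈ A ∧ pr N k x = w} := fun w =>
    (isClosed_fib hA z).inter (isClopen_pr k {w}).isClosed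
  have hm2 : ∀ w, IsClosed {y | ∃ x, (z, x) ∈ A ∧ pr N k x = w ∧ θ (z, x) = (z, y)} := by
    intro w
    have h1 : IsCompact ({x | (z, x) ∈ A ∧ pr N k x = w}) := (hm1 w).isCompact
    have h2 : ContinuousOn (fun x => (θ (z, x)).2) {x | (z, x) ∈ A ∧ pr N k x = w} := by
      refine continuous_snd.comp_continuousOn (hθc.comp
        (Continuous.prodMk_right z).continuousOn fun x hx => hx.1)
    have h3 := (h1.image_of_continuousOn h2).isClosed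
    convert h3 using 1
    ext y
    constructor
    · rintro ⟨x, hx, hxw, hxy⟩
      exact ⟨x, ⟨hx, hxw⟩, congrArg Prod.snd hxy⟩
    · rintro ⟨x, ⟨hx, hxw⟩, hxy⟩
      exact ⟨x, hx, hxw, Prod.ext (hθ1 _ hx) hxy⟩
  rw [e1, e2, measure_biUnion_finset ?_ fun w _ => (hm1 w).measurableSet,
    measure_biUnion_finset ?_ fun w _ => (hm2 w).measurableSet]
  · refine Finset.sum_congr rfl fun w _ => ?_
    obtain ⟨u, rfl⟩ := pr_surj u₀ k w
    have := hθm z k u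
    simp only [pr_eq_iff]
    exact this
  · intro w _ w' _ hww
    refine Set.disjoint_left.2 ?_
    rintro y ⟨x, hx, hxw, hxy⟩ ⟨x', hx', hxw', hxy'⟩
    have h1 := hθi hx hx' (hxy.trans hxy'.symm)
    have h2 : x = x' := (Prod.ext_iff.1 h1).2
    exact hww (by rw [← hxw, ← hxw', h2])
  · intro w _ w' _ hww
    refine Set.disjoint_left.2 ?_
    rintro x ⟨_, hxw⟩ ⟨_, hxw'⟩
    exact hww (hxw.symm.trans hxw')

/-- fibres of closed sets are upper semicontinuous -/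
theorem usc {K : Set (Z × ∀ k, Fin (N k))} (hK : IsClosed K) {R : Set (∀ k, Fin (N k))}
    (hR : IsOpen R) {z₀ : Z} (h : fib K z₀ ⊆ R) : ∃ W : Set Z, IsOpen W ∧ z₀ ∈ W ∧
      ∀ z ∈ W, fib K z ⊆ R := by
  have h1 : IsClosed (Prod.fst '' (K ∩ Prod.snd ⁻¹' Rᶜ)) :=
    isClosedMap_fst_of_compactSpace _ (hK.inter (hR.isClosed_compl.preimage continuous_snd))
  refine ⟨(Prod.fst '' (K ∩ Prod.snd ⁻¹' Rᶜ))ᶜ, h1.isOpen_compl, ?_, ?_⟩
  · rintro ⟨⟨z, x⟩, ⟨hx, hxR⟩, rfl⟩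
    exact hxR (h hx)
  · intro z hz x hx
    by_contra hcon
    exact hz ⟨(z, x), ⟨hx, hcon⟩, rfl⟩

theorem af_peel (N : ℕ → ℕ) (lam : Measure (∀ k, Fin (N k)))
    [IsProbabilityMeasure lam]
    (hlam : ∀ (k : ℕ) (u : ∀ k, Fin (N k)),
      lam {x | ∀ i, i < k → x i = u i} = (∏ i ∈ Finset.range k, (N i : ENNReal))⁻¹)
    -- the conclusion of job LAMINV:
    (hlaminv : ∀ S : Set (∀ k, Fin (N k)), MeasurableSet S →
      ∀ f : (∀ k, Fin (N k)) → ∀ k, Fin (N k), Measurable f → InjOn f S →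
      (∀ x ∈ S, ∃ k, ∀ i, k ≤ i → x i = f x i) → lam (f '' S) = lam S)
    -- the conclusion of job AF1:
    (hcmp : ∀ P Q : Set (Z × ∀ k, Fin (N k)), IsClopen P → IsClopen Q →
      (∀ z, lam {x | (z, x) ∈ P} ≤ lam {x | (z, x) ∈ Q}) →
      ∃ T : (Z × ∀ k, Fin (N k)) ≃ₜ (Z × ∀ k, Fin (N k)),
        (∀ p, p.1 = (T p).1 ∧ ∃ k, ∀ i, k ≤ i → p.2 i = (T p).2 i) ∧ T '' P ⊆ Q)
    (A B : Set (Z × ∀ k, Fin (N k))) (hA : IsClosed A) (hB : IsClosed B)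
    (θ : (Z × ∀ k, Fin (N k)) → (Z × ∀ k, Fin (N k))) (hθc : ContinuousOn θ A) (hθi : InjOn θ A)
    (hθB : θ '' A = B) (hθ1 : ∀ p ∈ A, (θ p).1 = p.1)
    (hA0 : ∀ z, interior {x | (z, x) ∈ A} = ∅) (hB0 : ∀ z, interior {x | (z, x) ∈ B} = ∅)
    (hθm : ∀ (z : Z) (k : ℕ) (u : ∀ k, Fin (N k)),
      lam {x | (z, x) ∈ A ∧ ∀ i, i < k → x i = u i} =
        lam {y | ∃ x, (z, x) ∈ A ∧ (∀ i, i < k → x i = u i) ∧ θ (z, x) = (z, y)})
    (P Q C U V : Set (Z × ∀ k, Fin (N k))) (hP : IsClopen P) (hQ : IsClopen Q) (hC : IsClopen C)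
    (hU : IsOpen U) (hV : IsOpen V) (hCP : C ⊆ P)
    (hPQ : ∃ T : (Z × ∀ k, Fin (N k)) ≃ₜ (Z × ∀ k, Fin (N k)),
      (∀ p, p.1 = (T p).1 ∧ ∃ k, ∀ i, k ≤ i → p.2 i = (T p).2 i) ∧ T '' P = Q)
    (hθPQ : θ '' (A ∩ P) = B ∩ Q) (hCU : A ∩ C ⊆ U) (hCV : θ '' (A ∩ C) ⊆ V) :
    ∃ P' Q' : Set (Z × ∀ k, Fin (N k)), IsClopen P' ∧ IsClopen Q' ∧ P' ⊆ P ∩ U ∧ Q' ⊆ Q ∩ V ∧
      A ∩ P' = A ∩ C ∧ B ∩ Q' = θ '' (A ∩ C) ∧
      (∃ T : (Z × ∀ k, Fin (N k)) ≃ₜ (Z × ∀ k, Fin (N k)),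
        (∀ p, p.1 = (T p).1 ∧ ∃ k, ∀ i, k ≤ i → p.2 i = (T p).2 i) ∧ T '' P' = Q') ∧
      (∃ T : (Z × ∀ k, Fin (N k)) ≃ₜ (Z × ∀ k, Fin (N k)),
        (∀ p, p.1 = (T p).1 ∧ ∃ k, ∀ i, k ≤ i → p.2 i = (T p).2 i) ∧ T '' (P \ P') = Q \ Q') := by
  classical
  -- a point
  have hne : Nonempty (∀ k, Fin (N k)) := by
    by_contra hcon
    have hemp : IsEmpty (∀ k, Fin (N k)) := not_nonempty_iff.1 hcon
    have h1 : lam univ = 1 := measure_univ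
    rw [univ_eq_empty_iff.2 hemp, measure_empty] at h1
    exact zero_ne_one h1
  obtain ⟨u₀⟩ := hne
  -- the compact sets
  have hKc : IsClosed (A ∩ C) := hA.inter hC.isClosed
  have hK'c : IsClosed (θ '' (A ∩ C)) :=
    (hKc.isCompact.image_of_continuousOn (hθc.mono inter_subset_left)).isClosed
  have hK''c : IsClosed (θ '' (A \ C)) := by
    have h1 : IsClosed (A \ C) := by
      rw [sdiff_eq]
      exact hA.inter hC.compl.isClosed
    exact (h1.isCompact.image_of_continuousOn (hθc.mono sdiff_subset)).isClosed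
  have hdisj : θ '' (A ∩ C) ⊆ (θ '' (A \ C))ᶜ := by
    rintro _ ⟨p, hp, rfl⟩ ⟨q, hq, hqp⟩
    have := hθi hq.1 hp.1 hqp
    rw [this] at hq
    exact hq.2 hp.2
  have hK'Q : θ '' (A ∩ C) ⊆ Q := by
    have h1 : θ '' (A ∩ C) ⊆ θ '' (A ∩ P) := image_mono (inter_subset_inter_right _ hCP)
    rw [hθPQ] at h1
    exact h1.trans inter_subset_right
  have hK'B : θ '' (A ∩ C) ⊆ B := by
    rw [← hθB]
    exact image_mono inter_subset_left
  obtain ⟨P₀, hP₀, hKP₀, hP₀U⟩ := exists_clopen_of_closed_subset_open hKc (hC.isOpen.inter hU)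
    (subset_inter inter_subset_right hCU)
  obtain ⟨Q₀, hQ₀, hKQ₀, hQ₀U⟩ := exists_clopen_of_closed_subset_open hK'c
    ((hQ.isOpen.inter hV).inter hK''c.isOpen_compl)
    (subset_inter (subset_inter hK'Q hCV) hdisj)
  have hmeq := fun z => meas_theta u₀ hA hθc hθi hθ1 hθm hC z
  -- the local construction
  have hloc : ∀ z₀ : Z, ∃ P₁ Q₁ : Set (∀ k, Fin (N k)), IsClopen P₁ ∧ IsClopen Q₁ ∧
      fib (A ∩ C) z₀ ⊆ P₁ ∧ P₁ ⊆ fib P₀ z₀ ∧ fib (θ '' (A ∩ C)) z₀ ⊆ Q₁ ∧ Q₁ ⊆ fib Q₀ z₀ ∧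
      lam P₁ = lam Q₁ := by
    intro z₀
    rcases (fib (A ∩ C) z₀).eq_empty_or_nonempty with hemp | hne
    · refine ⟨∅, ∅, isClopen_empty, isClopen_empty, hemp.subset, empty_subset _, ?_,
        empty_subset _, rfl⟩
      rintro y ⟨⟨z', x⟩, hx, hxy⟩
      have h2 := hθ1 _ hx.1
      rw [hxy] at h2
      have h3 : z₀ = z' := h2
      subst h3
      have : x ∈ fib (A ∩ C) z₀ := hx
      rw [hemp] at this
      exact this
    · have hne' : (fib (θ '' (A ∩ C)) z₀).Nonempty := by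
        obtain ⟨x, hx⟩ := hne
        exact ⟨(θ (z₀, x)).2, (z₀, x), hx, Prod.ext (hθ1 _ hx.1) rfl⟩
      have hKfc : IsClosed (fib (A ∩ C) z₀) := isClosed_fib hKc z₀
      have hKfc' : IsClosed (fib (θ '' (A ∩ C)) z₀) := isClosed_fib hK'c z₀
      have hsub1 : fib (A ∩ C) z₀ ⊆ fib P₀ z₀ := fun x hx => hKP₀ hx
      have hsub2 : fib (θ '' (A ∩ C)) z₀ ⊆ fib Q₀ z₀ := fun x hx => hKQ₀ hx
      have key : ∀ {K R : Set (∀ k, Fin (N k))}, IsClosed K → IsOpen R → K ⊆ R → K.Nonempty →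
          interior K = ∅ → lam K < lam R := by
        intro K R hK hR hKR hKne hKint
        have h1 : (R \ K).Nonempty := by
          rw [nonempty_iff_ne_empty]
          intro h0
          have h2 : R = K := (sdiff_eq_empty.1 h0).antisymm hKR
          rw [← h2, hR.interior_eq, h2] at hKint
          exact hKne.ne_empty hKint
        have h2 := lam_pos hlam (hR.sdiff hK) h1
        rw [measure_sdiff hKR hK.measurableSet.nullMeasurableSet (measure_ne_top _ _)] at h2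
        exact tsub_pos_iff_lt.1 h2
      have hlt1 : lam (fib (A ∩ C) z₀) < lam (fib P₀ z₀) :=
        key hKfc (isClopen_fib hP₀ z₀).isOpen hsub1 hne (by
          rw [← subset_empty_iff, ← hA0 z₀]
          exact interior_mono fun x hx => hx.1)
      have hlt2 : lam (fib (θ '' (A ∩ C)) z₀) < lam (fib Q₀ z₀) :=
        key hKfc' (isClopen_fib hQ₀ z₀).isOpen hsub2 hne' (by
          rw [← subset_empty_iff, ← hB0 z₀]
          exact interior_mono fun x hx => hK'B hx)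
      rcases le_total (lam (fib P₀ z₀)) (lam (fib Q₀ z₀)) with hle | hle
      · obtain ⟨R, hR, hR1, hR2, hR3⟩ := intermediate hlam u₀ hKfc' (isClopen_fib hQ₀ z₀)
          (isClopen_fib hP₀ z₀) hsub2 (by rw [← hmeq]; exact hlt1) hle
        exact ⟨fib P₀ z₀, R, isClopen_fib hP₀ z₀, hR, hsub1, subset_rfl, hR1, hR2, hR3.symm⟩
      · obtain ⟨R, hR, hR1, hR2, hR3⟩ := intermediate hlam u₀ hKfc (isClopen_fib hP₀ z₀)
          (isClopen_fib hQ₀ z₀) hsub1 (by rw [hmeq]; exact hlt2) hle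
        exact ⟨R, fib Q₀ z₀, hR, isClopen_fib hQ₀ z₀, hR1, hR2, hsub2, subset_rfl, hR3⟩
  -- globalize
  have hglob : ∃ W : Set Z, univ ⊆ W ∧ IsClopen W ∧ ∃ P₁ Q₁ : Set (Z × ∀ k, Fin (N k)),
      IsClopen P₁ ∧ IsClopen Q₁ ∧ ∀ z ∈ W, fib (A ∩ C) z ⊆ fib P₁ z ∧ fib P₁ z ⊆ fib P₀ z ∧
      fib (θ '' (A ∩ C)) z ⊆ fib Q₁ z ∧ fib Q₁ z ⊆ fib Q₀ z ∧
      lam (fib P₁ z) = lam (fib Q₁ z) := by
    refine isCompact_univ.induction_on (p := fun S => ∃ W : Set Z, S ⊆ W ∧ IsClopen W ∧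
      ∃ P₁ Q₁ : Set (Z × ∀ k, Fin (N k)),
      IsClopen P₁ ∧ IsClopen Q₁ ∧ ∀ z ∈ W, fib (A ∩ C) z ⊆ fib P₁ z ∧ fib P₁ z ⊆ fib P₀ z ∧
      fib (θ '' (A ∩ C)) z ⊆ fib Q₁ z ∧ fib Q₁ z ⊆ fib Q₀ z ∧
      lam (fib P₁ z) = lam (fib Q₁ z)) ?_ ?_ ?_ ?_
    · exact ⟨∅, subset_rfl, isClopen_empty, ∅, ∅, isClopen_empty, isClopen_empty,
        fun z hz => hz.elim⟩
    · rintro S T hST ⟨W, hW, h⟩
      exact ⟨W, hST.trans hW, h⟩
    · rintro S T ⟨W, hSW, hW, P₁, Q₁, hP₁, hQ₁, h⟩ ⟨W', hSW', hW', P₁', Q₁', hP₁', hQ₁', h'⟩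
      have hWc : IsClopen (Prod.fst ⁻¹' W : Set (Z × ∀ k, Fin (N k))) :=
        hW.preimage continuous_fst
      refine ⟨W ∪ W', union_subset_union hSW hSW', hW.union hW',
        (Prod.fst ⁻¹' W ∩ P₁) ∪ ((Prod.fst ⁻¹' W)ᶜ ∩ P₁'),
        (Prod.fst ⁻¹' W ∩ Q₁) ∪ ((Prod.fst ⁻¹' W)ᶜ ∩ Q₁'),
        (hWc.inter hP₁).union (hWc.compl.inter hP₁'), (hWc.inter hQ₁).union (hWc.compl.inter hQ₁'),
        ?_⟩
      intro z hz
      by_cases hzW : z ∈ W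
      · have e1 : fib ((Prod.fst ⁻¹' W ∩ P₁) ∪ ((Prod.fst ⁻¹' W)ᶜ ∩ P₁')) z = fib P₁ z := by
          ext x; simp [fib, hzW]
        have e2 : fib ((Prod.fst ⁻¹' W ∩ Q₁) ∪ ((Prod.fst ⁻¹' W)ᶜ ∩ Q₁')) z = fib Q₁ z := by
          ext x; simp [fib, hzW]
        rw [e1, e2]
        exact h z hzW
      · have e1 : fib ((Prod.fst ⁻¹' W ∩ P₁) ∪ ((Prod.fst ⁻¹' W)ᶜ ∩ P₁')) z = fib P₁' z := by
          ext x; simp [fib, hzW]
        have e2 : fib ((Prod.fst ⁻¹' W ∩ Q₁) ∪ ((Prod.fst ⁻¹' W)ᶜ ∩ Q₁')) z = fib Q₁' z := by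
          ext x; simp [fib, hzW]
        rw [e1, e2]
        exact h' z (hz.resolve_left hzW)
    · intro z₀ _
      obtain ⟨P₁, Q₁, hP₁, hQ₁, h1, h2, h3, h4, h5⟩ := hloc z₀
      obtain ⟨W₁, hW₁, hz₁, hw₁⟩ := usc hKc hP₁.isOpen h1
      obtain ⟨W₂, hW₂, hz₂, hw₂⟩ := usc hK'c hQ₁.isOpen h3
      obtain ⟨W₃, hW₃, hz₃, hw₃⟩ := usc hP₀.compl.isClosed hP₁.compl.isOpen
        (z₀ := z₀) (fun x hx hx' => hx (h2 hx'))
      obtain ⟨W₄, hW₄, hz₄, hw₄⟩ := usc hQ₀.compl.isClosed hQ₁.compl.isOpen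
        (z₀ := z₀) (fun x hx hx' => hx (h4 hx'))
      obtain ⟨W, hW, hzW, hWs⟩ := compact_exists_isClopen_in_isOpen
        ((hW₁.inter hW₂).inter (hW₃.inter hW₄)) ⟨⟨hz₁, hz₂⟩, ⟨hz₃, hz₄⟩⟩
      refine ⟨W, mem_nhdsWithin_of_mem_nhds (hW.isOpen.mem_nhds hzW), W, subset_rfl, hW,
        Prod.snd ⁻¹' P₁, Prod.snd ⁻¹' Q₁, hP₁.preimage continuous_snd,
        hQ₁.preimage continuous_snd, ?_⟩
      intro z hz
      obtain ⟨⟨g1, g2⟩, ⟨g3, g4⟩⟩ := hWs hz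
      refine ⟨hw₁ z g1, ?_, hw₂ z g2, ?_, h5⟩
      · intro x hx
        by_contra hcon
        exact hw₃ z g3 hcon hx
      · intro x hx
        by_contra hcon
        exact hw₄ z g4 hcon hx
  obtain ⟨W, hWu, _, P', Q', hP', hQ', hPQ'⟩ := hglob
  have hall := fun z => hPQ' z (hWu (mem_univ z))
  have g1 : A ∩ C ⊆ P' := fun p hp => (hall p.1).1 hp
  have g2 : P' ⊆ P₀ := fun p hp => (hall p.1).2.1 hp
  have g3 : θ '' (A ∩ C) ⊆ Q' := fun p hp => (hall p.1).2.2.1 hp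
  have g4 : Q' ⊆ Q₀ := fun p hp => (hall p.1).2.2.2.1 hp
  have g5 := fun z => (hall z).2.2.2.2
  have hP'P : P' ⊆ P := fun p hp => hCP (hP₀U (g2 hp)).1
  have hQ'Q : Q' ⊆ Q := fun p hp => (hQ₀U (g4 hp)).1.1
  refine ⟨P', Q', hP', hQ', fun p hp => ⟨hP'P hp, (hP₀U (g2 hp)).2⟩,
    fun p hp => ⟨hQ'Q hp, (hQ₀U (g4 hp)).1.2⟩, ?_, ?_, ?_, ?_⟩
  · refine Subset.antisymm (fun p hp => ⟨hp.1, (hP₀U (g2 hp.2)).1⟩) fun p hp => ⟨hp.1, g1 hp⟩
  · refine Subset.antisymm ?_ fun p hp => ⟨hK'B hp, g3 hp⟩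
    rintro p ⟨hpB, hpQ⟩
    have h1 := (hQ₀U (g4 hpQ)).2
    rw [← hθB] at hpB
    obtain ⟨q, hq, rfl⟩ := hpB
    refine ⟨q, ⟨hq, ?_⟩, rfl⟩
    by_contra hcon
    exact h1 ⟨q, ⟨hq, hcon⟩, rfl⟩
  · exact equiv_of_eq hlam hlaminv hcmp hP' hQ' g5
  · obtain ⟨T, hT, hTPQ⟩ := hPQ
    refine equiv_of_eq hlam hlaminv hcmp (hP.diff hP') (hQ.diff hQ') fun z => ?_
    have e1 : fib (P \ P') z = fib P z \ fib P' z := rfl
    have e2 : fib (Q \ Q') z = fib Q z \ fib Q' z := rfl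
    rw [e1, e2, measure_sdiff (show fib P' z ⊆ fib P z from fun x hx => hP'P hx)
      (isClopen_fib hP' z).isOpen.measurableSet.nullMeasurableSet (measure_ne_top _ _),
      measure_sdiff (show fib Q' z ⊆ fib Q z from fun x hx => hQ'Q hx)
      (isClopen_fib hQ' z).isOpen.measurableSet.nullMeasurableSet (measure_ne_top _ _), g5 z,
      ← hTPQ, lam_image hlaminv hT hP]

end main

end Pool.Agent.TH241.CRAFPEEL
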