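import Pool.Agent.TH793.SB.Defs

/-!
# Job 576 (SB-1): label theorem on boxes of sides at least two
-/

set_option autoImplicit false

open Pool.Agent.TH793.SB

namespace Pool.Agent.TH241.J576

/-- label with a given code -/
def dec (x : Fin 8) : Lab := fun i => Nat.testBit x.val i.val

/-- pointwise xor -/
def xr (a b : Lab) : Lab := fun i => xor (a i) (b i)

/-- the edge rule -/
def rl (i : Fin 3) (a b : Fin 8) : Bool :=
  decide (dec a = el i) || decide (dec b = el i) || decide (dec b = flp i (dec a))

/-- the final check -/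
def fin (a0 a1 a2 a3 a4 a5 a6 a7 : Fin 8) : Bool :=
  decide (∃ α : Fin 8, ∀ s : Fin 8, xr (dec s) (dec α) = zl ∨
    dec ((![a0, a1, a2, a3, a4, a5, a6, a7] : Fin 8 → Fin 8) s) = xr (dec s) (dec α))

/-- the nonzero codes -/
def lst : List (Fin 8) := [1, 2, 3, 4, 5, 6, 7]

/-- the staged search -/
def chk : Bool :=
  lst.all fun a0 => lst.all fun a1 => !(rl 0 a0 a1) ||
    lst.all fun a2 => !(rl 1 a0 a2) ||
    lst.all fun a3 => !(rl 1 a1 a3 && rl 0 a2 a3) ||
    lst.all fun a4 => !(rl 2 a0 a4) ||
    lst.all fun a5 => !(rl 2 a1 a5 && rl 0 a4 a5) ||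
    lst.all fun a6 => !(rl 2 a2 a6 && rl 1 a4 a6) ||
    lst.all fun a7 => !(rl 2 a3 a7 && rl 1 a5 a7 && rl 0 a6 a7) ||
    fin a0 a1 a2 a3 a4 a5 a6 a7

theorem chk_true : chk = true := by
  decide +kernel

theorem mem_lst : ∀ a : Fin 8, a ≠ 0 → a ∈ lst := by decide

theorem orStep {b c : Bool} (h : (!b || c) = true) (hb : b = true) : c = true := by
  rw [hb] at h
  simpa using h

theorem check (a0 : Fin 8) (h0 : a0 ≠ 0) (a1 : Fin 8) (h1 : a1 ≠ 0) (r1 : rl 0 a0 a1 = true)
    (a2 : Fin 8) (h2 : a2 ≠ 0) (r2 : rl 1 a0 a2 = true)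
    (a3 : Fin 8) (h3 : a3 ≠ 0) (r3 : rl 1 a1 a3 = true) (r3' : rl 0 a2 a3 = true)
    (a4 : Fin 8) (h4 : a4 ≠ 0) (r4 : rl 2 a0 a4 = true)
    (a5 : Fin 8) (h5 : a5 ≠ 0) (r5 : rl 2 a1 a5 = true) (r5' : rl 0 a4 a5 = true)
    (a6 : Fin 8) (h6 : a6 ≠ 0) (r6 : rl 2 a2 a6 = true) (r6' : rl 1 a4 a6 = true)
    (a7 : Fin 8) (h7 : a7 ≠ 0) (r7 : rl 2 a3 a7 = true) (r7' : rl 1 a5 a7 = true)
    (r7'' : rl 0 a6 a7 = true) :
    fin a0 a1 a2 a3 a4 a5 a6 a7 = true := by
  have e0 := List.all_eq_true.1 chk_true a0 (mem_lst a0 h0)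
  have e1 := List.all_eq_true.1 e0 a1 (mem_lst a1 h1)
  have e2 := List.all_eq_true.1 (orStep e1 r1) a2 (mem_lst a2 h2)
  have e3 := List.all_eq_true.1 (orStep e2 r2) a3 (mem_lst a3 h3)
  have e4 := List.all_eq_true.1 (orStep e3 (by rw [r3, r3']; rfl)) a4 (mem_lst a4 h4)
  have e5 := List.all_eq_true.1 (orStep e4 r4) a5 (mem_lst a5 h5)
  have e6 := List.all_eq_true.1 (orStep e5 (by rw [r5, r5']; rfl)) a6 (mem_lst a6 h6)
  have e7 := List.all_eq_true.1 (orStep e6 (by rw [r6, r6']; rfl)) a7 (mem_lst a7 h7)
  exact orStep e7 (by rw [r7, r7', r7'']; rfl)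

theorem dec_surj : ∀ d : Lab, ∃ x : Fin 8, dec x = d := by
  decide +kernel

theorem dec_zero : dec 0 = zl := by decide

theorem cubeLab (F : Lab → Lab) (hF : ∀ ε, F ε ≠ zl)
    (hr : ∀ ε i, ε i = false → F ε = el i ∨ F (flp i ε) = el i ∨ F (flp i ε) = flp i (F ε)) :
    ∃ α : Lab, ∀ ε, xr ε α ≠ zl → F ε = xr ε α := by
  choose c hc using dec_surj
  have hne : ∀ ε, c (F ε) ≠ 0 := by
    intro ε h
    apply hF ε
    rw [← hc (F ε), h, dec_zero]
  have hrl : ∀ (i : Fin 3) (s t : Fin 8), dec s i = false → flp i (dec s) = dec t →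
      rl i (c (F (dec s))) (c (F (dec t))) = true := by
    intro i s t h1 h2
    have h3 := hr (dec s) i h1
    rw [h2] at h3
    simp only [rl, hc, Bool.or_eq_true, decide_eq_true_eq]
    tauto
  have h := check (c (F (dec 0))) (hne _) (c (F (dec 1))) (hne _)
    (hrl 0 0 1 (by decide) (by decide))
    (c (F (dec 2))) (hne _) (hrl 1 0 2 (by decide) (by decide))
    (c (F (dec 3))) (hne _) (hrl 1 1 3 (by decide) (by decide)) (hrl 0 2 3 (by decide) (by decide))
    (c (F (dec 4))) (hne _) (hrl 2 0 4 (by decide) (by decide))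
    (c (F (dec 5))) (hne _) (hrl 2 1 5 (by decide) (by decide)) (hrl 0 4 5 (by decide) (by decide))
    (c (F (dec 6))) (hne _) (hrl 2 2 6 (by decide) (by decide)) (hrl 1 4 6 (by decide) (by decide))
    (c (F (dec 7))) (hne _) (hrl 2 3 7 (by decide) (by decide)) (hrl 1 5 7 (by decide) (by decide))
    (hrl 0 6 7 (by decide) (by decide))
  simp only [fin, decide_eq_true_eq] at h
  obtain ⟨α, hα⟩ := h
  refine ⟨dec α, fun ε hε => ?_⟩
  obtain ⟨s, rfl⟩ := dec_surj ε
  rcases hα s with h1 | h1
  · exact absurd h1 hε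
  · rw [← h1]
    fin_cases s <;> exact (hc _).symm

/-- parity -/
def par (y : ℤ) : Bool := decide (Odd y)

theorem par_succ (y : ℤ) : par (y + 1) = !(par y) := by
  unfold par
  rcases Int.even_or_odd y with h | h
  · have h1 : Odd (y + 1) := h.add_one
    have h2 : ¬ Odd y := Int.not_odd_iff_even.2 h
    simp [h1, h2]
  · have h1 : ¬ Odd (y + 1) := Int.not_odd_iff_even.2 h.add_one
    simp [h1, h]

/-- parity label -/
def PL (u : Site) (A : Lab) : Lab := fun i => xor (par (u i)) (A i)

theorem PL_eq_zl_iff {u : Site} {A : Lab} : PL u A = zl ↔ (fun i => par (u i)) = A := by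
  constructor
  · intro h
    funext i
    have h1 := congrFun h i
    simp only [PL, zl] at h1
    revert h1
    cases par (u i) <;> cases A i <;> simp
  · intro h
    funext i
    have h1 : par (u i) = A i := congrFun h i
    simp only [PL, zl, h1]
    cases A i <;> rfl

theorem PL_inj {u : Site} {A A' : Lab} (h : PL u A = PL u A') : A = A' := by
  funext i
  have h1 := congrFun h i
  simp only [PL] at h1
  revert h1
  cases par (u i) <;> cases A i <;> cases A' i <;> simp

/-- a free parity on a face -/
theorem face : ∀ (i : Fin 3) (b : Bool) (A A' : Lab), ∃ p : Lab, p i = b ∧ p ≠ A ∧ p ≠ A' := by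
  decide +kernel

theorem labelThm : LabelThm := by
  intro x n hn L hL hr
  -- each cube
  have hcube : ∀ v : Site, (∀ i, x i ≤ v i ∧ v i + 1 < x i + n i) →
      ∃ A : Lab, ∀ u : Site, (∀ i, u i = v i ∨ u i = v i + 1) → PL u A ≠ zl → L u = PL u A := by
    intro v hv
    let off : Lab → Site := fun ε i => v i + if ε i then 1 else 0
    have hoff : ∀ ε, off ε ∈ box x n := by
      intro ε i
      have := hv i
      simp only [off]
      split_ifs <;> constructor <;> omega
    have hflp : ∀ ε i, ε i = false → off (flp i ε) = off ε + st i 1 := by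
      intro ε i hε
      funext j
      simp only [off, flp, Pi.add_apply, st]
      by_cases hj : j = i
      · subst hj
        simp [hε]
      · simp [hj]
    obtain ⟨α, hα⟩ := cubeLab (fun ε => L (off ε)) (fun ε => hL _ (hoff ε)) (by
      intro ε i hε
      have h1 := hr (off ε) (hoff ε) i (by rw [← hflp ε i hε]; exact hoff _)
      rw [← hflp ε i hε] at h1
      exact h1)
    refine ⟨fun i => xor (α i) (par (v i)), fun u hu hne => ?_⟩
    let ε : Lab := fun i => decide (u i = v i + 1)
    have h1 : off ε = u := by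
      funext i
      simp only [off, ε]
      rcases hu i with h | h <;> simp [h]
    have h2 : PL u (fun i => xor (α i) (par (v i))) = xr ε α := by
      funext i
      simp only [PL, xr, ε]
      rcases hu i with h | h
      · rw [h]
        simp
        cases par (v i) <;> cases α i <;> rfl
      · rw [h, par_succ]
        simp
        cases par (v i) <;> cases α i <;> rfl
    rw [h2] at hne ⊢
    have h3 := hα ε hne
    simp only [h1] at h3
    exact h3
  -- choose
  have hch : ∃ A : Site → Lab, ∀ v : Site, (∀ i, x i ≤ v i ∧ v i + 1 < x i + n i) →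
      ∀ u : Site, (∀ i, u i = v i ∨ u i = v i + 1) → PL u (A v) ≠ zl → L u = PL u (A v) := by
    classical
    refine ⟨fun v => if h : ∀ i, x i ≤ v i ∧ v i + 1 < x i + n i then (hcube v h).choose else zl,
      fun v hv => ?_⟩
    simp only [dif_pos hv]
    exact (hcube v hv).choose_spec
  obtain ⟨A, hA⟩ := hch
  -- unit steps
  have hstep : ∀ v i, (∀ j, x j ≤ v j ∧ v j + 1 < x j + n j) →
      (∀ j, x j ≤ (v + st i 1) j ∧ (v + st i 1) j + 1 < x j + n j) → A v = A (v + st i 1) := by
    intro v i hv hv'
    by_contra hne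
    obtain ⟨p, hp1, hp2, hp3⟩ := face i (par (v i + 1)) (A v) (A (v + st i 1))
    let u : Site := fun j => if par (v j) = p j then v j else v j + 1
    have hpar : ∀ j, par (u j) = p j := by
      intro j
      simp only [u]
      split_ifs with h
      · exact h
      · rw [par_succ]
        revert h
        cases par (v j) <;> cases p j <;> simp
    have hui : u i = v i + 1 := by
      simp only [u]
      rw [if_neg]
      rw [hp1, par_succ]
      cases par (v i) <;> simp
    have hu1 : ∀ j, u j = v j ∨ u j = v j + 1 := by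
      intro j
      simp only [u]
      split_ifs <;> simp
    have hu2 : ∀ j, u j = (v + st i 1) j ∨ u j = (v + st i 1) j + 1 := by
      intro j
      by_cases hj : j = i
      · subst hj
        left
        rw [hui]
        simp [st]
      · simp only [Pi.add_apply, st, if_neg hj, add_zero]
        exact hu1 j
    have hpu : (fun i => par (u i)) = p := funext hpar
    have h1 := hA v hv u hu1 (by rw [Ne, PL_eq_zl_iff, hpu]; exact hp2)
    have h2 := hA (v + st i 1) hv' u hu2 (by rw [Ne, PL_eq_zl_iff, hpu]; exact hp3)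
    exact hne (PL_inj (h1.symm.trans h2))
  -- constancy
  have hconst : ∀ (m : ℕ) (v : Site), (∀ j, x j ≤ v j ∧ v j + 1 < x j + n j) →
      ∑ j, (v j - x j).toNat = m → A v = A x := by
    intro m
    induction m with
    | zero =>
      intro v hv hm
      have : v = x := by
        funext j
        have h1 := (Finset.sum_eq_zero_iff.1 hm) j (Finset.mem_univ j)
        have h2 := (hv j).1
        omega
      rw [this]
    | succ m ih =>
      intro v hv hm
      obtain ⟨i, hi⟩ : ∃ i, 0 < (v i - x i).toNat := by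
        by_contra hcon
        push Not at hcon
        have : ∑ j, (v j - x j).toNat = 0 :=
          Finset.sum_eq_zero fun j _ => Nat.le_zero.1 (hcon j)
        omega
      have hv' : ∀ j, x j ≤ (v - st i 1) j ∧ (v - st i 1) j + 1 < x j + n j := by
        intro j
        have := hv j
        by_cases hj : j = i
        · subst hj
          simp only [Pi.sub_apply, st, if_true]
          omega
        · simp only [Pi.sub_apply, st, if_neg hj]
          omega
      have h1 : v - st i 1 + st i 1 = v := by abel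
      have h2 := hstep (v - st i 1) i hv' (by rw [h1]; exact hv)
      rw [h1] at h2
      rw [← h2]
      apply ih _ hv'
      have h3 : ∑ j, (v j - x j).toNat = ∑ j, (((v - st i 1) j - x j).toNat +
          if j = i then 1 else 0) := by
        refine Finset.sum_congr rfl fun j _ => ?_
        by_cases hj : j = i
        · subst hj
          simp only [Pi.sub_apply, st, if_true]
          omega
        · simp only [Pi.sub_apply, st, if_neg hj]
          omega
      rw [Finset.sum_add_distrib] at h3
      simp only [Finset.sum_ite_eq', Finset.mem_univ, if_true] at h3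
      omega
  -- conclusion
  refine ⟨fun i => if A x i then 1 else 0, fun u hu d hd hod => ?_⟩
  let v : Site := fun i => if u i + 1 < x i + n i then u i else u i - 1
  have hv : ∀ i, x i ≤ v i ∧ v i + 1 < x i + n i := by
    intro i
    have h1 := hu i
    have h2 := hn i
    simp only [v]
    split_ifs <;> omega
  have huv : ∀ i, u i = v i ∨ u i = v i + 1 := by
    intro i
    simp only [v]
    split_ifs <;> omega
  have hAv := hconst _ v hv rfl
  have hd' : d = PL u (A x) := by
    funext i
    have h1 := hod i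
    simp only [PL]
    by_cases hAi : A x i = true
    · simp only [hAi, if_true] at h1
      rw [hAi, Bool.xor_true, ← par_succ]
      rw [Bool.eq_iff_iff, h1, par, decide_eq_true_eq]
    · simp only [hAi, Bool.false_eq_true, if_false, add_zero] at h1
      rw [Bool.not_eq_true] at hAi
      rw [hAi, Bool.xor_false]
      rw [Bool.eq_iff_iff, h1, par, decide_eq_true_eq]
  rw [hd'] at hd ⊢
  rw [← hAv] at hd ⊢
  exact hA v hv u huv hd

end Pool.Agent.TH241.J576
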