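import Pool.Agent.TH793.SB.Defs

/-!
# Job 587 (SB-12): existence of a valid tiling
-/

set_option autoImplicit false

open Pool.Agent.TH793.SB

namespace Pool.Agent.TH241.J587

instance : Fact (Nat.Prime 2) := ⟨Nat.prime_two⟩

/-- level of a coordinate -/
noncomputable def lv (x : ℤ) : ℕ := padicValInt 2 (3 * x + 1)

theorem lv_iff (n : ℕ) (x : ℤ) : n ≤ lv x ↔ (2 : ℤ) ^ n ∣ 3 * x + 1 := by
  have h := padicValInt_dvd_iff (p := 2) n (3 * x + 1)
  have h2 : ((2 : ℕ) : ℤ) = 2 := rfl
  rw [h2] at h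
  rw [h]
  constructor
  · exact fun h => Or.inr h
  · rintro (h | h)
    · omega
    · exact h

theorem dvd_shift {j : ℕ} {y : ℤ} (m : ℤ) :
    (2 : ℤ) ^ j ∣ 3 * (y + 2 ^ j * m) + 1 ↔ (2 : ℤ) ^ j ∣ 3 * y + 1 := by
  have h : 3 * (y + 2 ^ j * m) + 1 = (3 * y + 1) + 2 ^ j * (3 * m) := by ring
  rw [h]
  exact (dvd_add_left (Dvd.intro _ rfl))

/-- exactly one of `y` and `y + 2 ^ j` has level exactly `j` -/
theorem flip_lv {j : ℕ} {y : ℤ} (h : j ≤ lv y) :
    j ≤ lv (y + 2 ^ j) ∧ (lv (y + 2 ^ j) = j ↔ ¬ lv y = j) := by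
  have h1 : j ≤ lv (y + 2 ^ j) := by
    rw [lv_iff] at h ⊢
    have := (dvd_shift (j := j) (y := y) 1).2 h
    rwa [mul_one] at this
  refine ⟨h1, ?_⟩
  have e1 : lv y = j ↔ ¬ j + 1 ≤ lv y := by omega
  have e2 : lv (y + 2 ^ j) = j ↔ ¬ j + 1 ≤ lv (y + 2 ^ j) := by omega
  rw [e1, e2, lv_iff, lv_iff, not_not]
  rw [lv_iff] at h
  obtain ⟨m, hm⟩ := h
  have e3 : 3 * (y + 2 ^ j) + 1 = 2 ^ j * (m + 3) := by
    rw [mul_add, mul_comm _ (m + 3), add_mul]
    linear_combination hm
  rw [hm, e3, pow_succ]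
  have h2 : (2 : ℤ) ^ j ≠ 0 := by positivity
  rw [mul_dvd_mul_iff_left h2, mul_dvd_mul_iff_left h2]
  omega

theorem ex_r (y : ℤ) (j : ℕ) : ∃ r : ℕ, r < 2 ^ j ∧ j ≤ lv (y - r) := by
  induction j with
  | zero => exact ⟨0, by norm_num, Nat.zero_le _⟩
  | succ j ih =>
    obtain ⟨r, hr, hj⟩ := ih
    by_cases h : j + 1 ≤ lv (y - r)
    · exact ⟨r, by rw [pow_succ]; omega, h⟩
    · refine ⟨r + 2 ^ j, by rw [pow_succ]; omega, ?_⟩
      have h1 : y - ((r + 2 ^ j : ℕ) : ℤ) + 2 ^ j = y - r := by push_cast; ring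
      have h0 : j ≤ lv (y - ((r + 2 ^ j : ℕ) : ℤ)) := by
        rw [lv_iff] at hj ⊢
        rw [← h1] at hj
        have := (dvd_shift (j := j) (y := y - ((r + 2 ^ j : ℕ) : ℤ)) 1).1 (by rwa [mul_one])
        exact this
      have h2 := (flip_lv h0).2
      rw [h1] at h2
      have h3 : lv (y - r) = j := by omega
      have h4 := h2.1 h3
      omega

/-- distance to the last stop -/
noncomputable def rr (y : ℤ) (j : ℕ) : ℕ := (ex_r y j).choose

theorem rr_lt (y : ℤ) (j : ℕ) : rr y j < 2 ^ j := (ex_r y j).choose_spec.1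

theorem rr_stop (y : ℤ) (j : ℕ) : j ≤ lv (y - rr y j) := (ex_r y j).choose_spec.2

theorem rr_unique {y : ℤ} {j r : ℕ} (hr : r < 2 ^ j) (h : j ≤ lv (y - r)) : r = rr y j := by
  have h1 := rr_stop y j
  have h2 := rr_lt y j
  rw [lv_iff] at h h1
  have h3 : (2 : ℤ) ^ j ∣ 3 * ((r : ℤ) - rr y j) := by
    have := dvd_sub h1 h
    have e : 3 * (y - (rr y j : ℤ)) + 1 - (3 * (y - r) + 1) = 3 * ((r : ℤ) - rr y j) := by ring
    rwa [e] at this
  have h4 : IsCoprime ((2 : ℤ) ^ j) 3 := by
    apply IsCoprime.pow_left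
    exact ⟨-1, 1, by norm_num⟩
  have h5 : (2 : ℤ) ^ j ∣ (r : ℤ) - rr y j := h4.dvd_of_dvd_mul_left h3
  have h6 : (r : ℤ) - rr y j = 0 := by
    apply Int.eq_zero_of_abs_lt_dvd h5
    rw [abs_lt]
    have e1 : ((r : ℕ) : ℤ) < 2 ^ j := by exact_mod_cast hr
    have e2 : ((rr y j : ℕ) : ℤ) < 2 ^ j := by exact_mod_cast h2
    constructor <;> omega
  omega

theorem rr_succ {y : ℤ} {j : ℕ} (h : ¬ j ≤ lv (y + 1)) : rr (y + 1) j = rr y j + 1 := by
  have h1 := rr_stop (y + 1) j
  have h2 := rr_lt (y + 1) j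
  have h3 : rr (y + 1) j ≠ 0 := by
    intro h0
    rw [h0] at h1
    simp only [Nat.cast_zero, sub_zero] at h1
    exact h h1
  obtain ⟨r, hr⟩ := Nat.exists_eq_succ_of_ne_zero h3
  rw [hr] at h1 h2
  have h4 : r = rr y j := rr_unique (by omega) (by
    have e : y + 1 - ((r.succ : ℕ) : ℤ) = y - r := by push_cast; ring
    rwa [e] at h1)
  rw [hr, h4]

theorem rr_last {y : ℤ} {j : ℕ} (h : j ≤ lv (y + 1)) : rr y j + 1 = 2 ^ j := by
  have hp : 0 < 2 ^ j := by positivity
  have h1 : 2 ^ j - 1 = rr y j := by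
    refine rr_unique (by omega) ?_
    have e1 : y - ((2 ^ j - 1 : ℕ) : ℤ) + 2 ^ j * 1 = y + 1 := by
      push_cast [Nat.cast_sub hp]
      ring
    rw [lv_iff] at h ⊢
    rw [← e1] at h
    exact (dvd_shift 1).1 h
  omega

/-- level of the other two coordinates -/
noncomputable def jj (u : Site) (i : Fin 3) : ℕ := min (lv (u (i + 1))) (lv (u (i + 2)))

/-- level of a site -/
noncomputable def kk (u : Site) : ℕ := min (lv (u 0)) (min (lv (u 1)) (lv (u 2)))

theorem kk_eq (u : Site) (i : Fin 3) : kk u = min (lv (u i)) (jj u i) := by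
  fin_cases i
  · rfl
  · show min (lv (u 0)) (min (lv (u 1)) (lv (u 2))) = min (lv (u 1)) (min (lv (u 2)) (lv (u 0)))
    omega
  · show min (lv (u 0)) (min (lv (u 1)) (lv (u 2))) = min (lv (u 2)) (min (lv (u 0)) (lv (u 1)))
    omega

theorem jj_le (u : Site) (i l : Fin 3) (h : l ≠ i) : jj u i ≤ lv (u l) := by
  have : l = i + 1 ∨ l = i + 2 := by revert i l; decide
  rcases this with rfl | rfl
  · exact min_le_left _ _
  · exact min_le_right _ _

theorem jj_attained (u : Site) (i : Fin 3) : ∃ l, l ≠ i ∧ lv (u l) = jj u i := by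
  rcases min_choice (lv (u (i + 1))) (lv (u (i + 2))) with h | h
  · exact ⟨i + 1, by clear h; revert i; decide, h.symm⟩
  · exact ⟨i + 2, by clear h; revert i; decide, h.symm⟩

/-- digit label -/
noncomputable def DD (u : Site) : Lab := fun l => decide (lv (u l) = kk u)

theorem DD_true {u : Site} {l : Fin 3} : DD u l = true ↔ lv (u l) = kk u := by
  simp [DD]

theorem DD_eq_el {u : Site} {i : Fin 3} : DD u = el i ↔ lv (u i) < jj u i := by
  have hk := kk_eq u i
  constructor
  · intro h
    obtain ⟨l, hl, hlj⟩ := jj_attained u i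
    have h1 : DD u l = false := by
      rw [h]
      simp [el, hl]
    have h2 : ¬ lv (u l) = kk u := by
      intro h3
      rw [DD_true.2 h3] at h1
      exact Bool.noConfusion h1
    have h3 : DD u i = true := by
      rw [h]
      simp [el]
    have h4 := DD_true.1 h3
    omega
  · intro h
    funext l
    by_cases hl : l = i
    · subst hl
      have : DD u l = true := DD_true.2 (by omega)
      rw [this]
      simp [el]
    · have h1 := jj_le u i l hl
      have h2 : DD u l = false := by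
        rw [← Bool.not_eq_true, DD_true]
        omega
      rw [h2]
      simp [el, hl]

theorem DD_ne_zl (u : Site) : DD u ≠ zl := by
  intro h
  have hk : kk u = lv (u 0) ∨ kk u = lv (u 1) ∨ kk u = lv (u 2) := by
    unfold kk
    omega
  rcases hk with h1 | h1 | h1
  all_goals
    have h2 := DD_true.2 h1.symm
    rw [h] at h2
    exact Bool.noConfusion h2

/-- a tile with a given label at a given level -/
noncomputable def TT (k : ℕ) (u : Site) : Tile := (exists_tile k (DD_ne_zl u)).choose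

theorem lab_TT (k : ℕ) (u : Site) : lab (TT k u) = DD u :=
  (exists_tile k (DD_ne_zl u)).choose_spec.1

theorem ok_TT (k : ℕ) (u : Site) : okLev k (TT k u) :=
  (exists_tile k (DD_ne_zl u)).choose_spec.2

/-- last stop -/
noncomputable def ss (u : Site) (i : Fin 3) : Site := u - st i (rr (u i) (jj u i))

open Classical in
/-- the tiling -/
noncomputable def XX (u : Site) : Tile :=
  if h : ∃ i, DD u = el i then
    .inr (h.choose, Out h.choose (TT (kk (ss u h.choose)) (ss u h.choose)) +
      (rr (u h.choose) (jj u h.choose) : ℕ))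
  else TT (kk u) u

theorem XX_pass {u : Site} {i : Fin 3} (h : DD u = el i) :
    XX u = .inr (i, Out i (TT (kk (ss u i)) (ss u i)) + (rr (u i) (jj u i) : ℕ)) := by
  have hex : ∃ i, DD u = el i := ⟨i, h⟩
  have h1 : hex.choose = i := el_inj (hex.choose_spec.symm.trans h)
  unfold XX
  rw [dif_pos hex, h1]

theorem XX_act {u : Site} (h : ¬ ∃ i, DD u = el i) : XX u = TT (kk u) u := by
  unfold XX
  rw [dif_neg h]

theorem lab_XX (u : Site) : lab (XX u) = DD u := by
  by_cases h : ∃ i, DD u = el i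
  · obtain ⟨i, hi⟩ := h
    rw [XX_pass hi, hi]
    rfl
  · rw [XX_act h, lab_TT]

theorem ok_XX (u : Site) : okLev (kk u) (XX u) := by
  by_cases h : ∃ i, DD u = el i
  · obtain ⟨i, hi⟩ := h
    rw [XX_pass hi]
    trivial
  · rw [XX_act h]
    exact ok_TT _ _

theorem stop_letters {u : Site} {i : Fin 3} (h : DD u ≠ el i) :
    In i (XX u) = In i (TT (kk u) u) ∧ Out i (XX u) = Out i (TT (kk u) u) :=
  stop_eq (by rw [lab_XX, lab_TT]) (ok_XX u) (ok_TT _ _) (by rw [lab_XX]; exact h)

theorem shift_same (u : Site) (i : Fin 3) (n : ℤ) : (u + st i n) i = u i + n := by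
  simp [st]

theorem shift_other (u : Site) (i l : Fin 3) (h : l ≠ i) (n : ℤ) : (u + st i n) l = u l := by
  simp [st, h]

theorem jj_shift (u : Site) (i : Fin 3) (n : ℤ) : jj (u + st i n) i = jj u i := by
  unfold jj
  rw [shift_other u i (i + 1) (by revert i; decide), shift_other u i (i + 2) (by revert i; decide)]

theorem ss_eq (u : Site) (i : Fin 3) : ss u i = u + st i (-(rr (u i) (jj u i) : ℤ)) := by
  funext l
  simp only [ss, Pi.sub_apply, Pi.add_apply, st]
  split_ifs <;> ring

theorem ss_stop (u : Site) (i : Fin 3) : ¬ DD (ss u i) = el i := by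
  rw [DD_eq_el, ss_eq, jj_shift, shift_same, not_lt, ← sub_eq_add_neg]
  exact rr_stop _ _

/-- letters of passing tiles -/
theorem pass_letters {u : Site} {i : Fin 3} (h : DD u = el i) :
    In i (XX u) = Out i (XX (ss u i)) + (rr (u i) (jj u i) : ℕ) := by
  rw [XX_pass h, (stop_letters (ss_stop u i)).2]
  simp [In]

/-- letter leaving a site -/
theorem out_letters (u : Site) (i : Fin 3) :
    Out i (XX u) = Out i (XX (ss u i)) + (rr (u i) (jj u i) : ℕ) := by
  by_cases h : DD u = el i
  · rw [pass (by rw [lab_XX]; exact h)]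
    exact pass_letters h
  · have h1 : jj u i ≤ lv (u i) := by
      rw [DD_eq_el] at h
      omega
    have h2 : 0 = rr (u i) (jj u i) := rr_unique (by positivity) (by simpa using h1)
    have h3 : ss u i = u := by
      rw [ss_eq, ← h2]
      funext l
      simp [st]
    rw [h3, ← h2]
    simp

theorem exist : Exist := by
  refine ⟨XX, fun u i => ?_⟩
  set j := jj u i with hj
  have hj' : jj (u + st i 1) i = j := jj_shift u i 1
  by_cases h : DD (u + st i 1) = el i
  · -- the next site is not a stop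
    have h1 := h
    rw [DD_eq_el, hj', shift_same] at h1
    have h2 : rr (u i + 1) j = rr (u i) j + 1 := rr_succ (by omega)
    have h3 : ss (u + st i 1) i = ss u i := by
      rw [ss_eq, ss_eq, hj', shift_same, h2]
      funext l
      simp only [Pi.add_apply, st]
      split_ifs
      · push_cast
        ring
      · ring
    rw [pass_letters h, hj', shift_same, h2, h3, out_letters u i]
    push_cast
    ring
  · -- the next site is a stop
    have h1 : j ≤ lv (u i + 1) := by
      have h0 := h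
      rw [DD_eq_el, hj', shift_same] at h0
      omega
    have h2 : rr (u i) j + 1 = 2 ^ j := rr_last h1
    have hs := ss_stop u i
    have hks : kk (ss u i) = j := by
      rw [kk_eq _ i]
      rw [DD_eq_el, not_lt] at hs
      rw [min_eq_right hs, ss_eq, jj_shift]
    have hkt : kk (u + st i 1) = j := by
      rw [kk_eq _ i, hj', shift_same, min_eq_right h1]
    have hsi : (ss u i) i + 2 ^ j = u i + 1 := by
      rw [ss_eq, shift_same]
      have : ((rr (u i) j + 1 : ℕ) : ℤ) = ((2 ^ j : ℕ) : ℤ) := by rw [h2]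
      push_cast at this
      rw [← hj]
      linarith
    have hfl : DD (u + st i 1) = flp i (DD (ss u i)) := by
      funext l
      by_cases hl : l = i
      · subst hl
        have h3 : j ≤ lv ((ss u l) l) := by
          rw [ss_eq, shift_same, ← sub_eq_add_neg]
          exact rr_stop _ _
        have h4 := (flip_lv h3).2
        rw [hsi] at h4
        simp only [flp, if_true, DD, hks, hkt, shift_same]
        by_cases h5 : lv ((ss u l) l) = j
        · simp [h5, h4]
        · simp [h5, h4]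
      · simp only [flp, if_neg hl, DD, hks, hkt, shift_other u i l hl]
        rw [ss_eq, shift_other u i l hl]
    have key := ruleR_conv (i := i) (k := j) (s := XX (ss u i)) (t := XX (u + st i 1))
      (by rw [lab_XX]; exact hs) (by rw [lab_XX]; exact h) (by rw [lab_XX, lab_XX]; exact hfl)
      (by have := ok_XX (ss u i); rwa [hks] at this)
      (by have := ok_XX (u + st i 1); rwa [hkt] at this)
    rw [key, out_letters u i, ← hj]
    have h6 : ((rr (u i) j + 1 : ℕ) : ZMod 127) = ((2 ^ j : ℕ) : ZMod 127) := by rw [h2]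
    push_cast at h6
    rw [← h6]
    ring

end Pool.Agent.TH241.J587
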