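import Pool.Agent.TH843.PY.Stm

/-!
# Units and lattice points of the ring of integers of a totally real field (PYTH-B1, job 207)
-/

set_option autoImplicit false
set_option linter.unusedSectionVars false
open Polynomial NumberField

namespace Pool.Agent.TH241.J207

open NumberField.InfinitePlace NumberField.Units NumberField.Units.dirichletUnitTheorem Module

variable {F : Type} [Field F] [NumberField F]

/-- the complex embedding attached to a real embedding -/
noncomputable def toC (φ : F →+* ℝ) : F →+* ℂ := Complex.ofRealHom.comp φ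

theorem toC_isReal (φ : F →+* ℝ) : ComplexEmbedding.IsReal (toC φ) := by
  rw [ComplexEmbedding.isReal_iff]
  ext x
  simp [toC, ComplexEmbedding.conjugate]

/-- the infinite place attached to a real embedding -/
noncomputable def pl (φ : F →+* ℝ) : InfinitePlace F := InfinitePlace.mk (toC φ)

theorem pl_apply (φ : F →+* ℝ) (x : F) : pl φ x = |φ x| := by
  simp [pl, toC]

theorem pl_real (φ : F →+* ℝ) : IsReal (pl φ) := ⟨toC φ, toC_isReal φ, rfl⟩

theorem emb_pl (φ : F →+* ℝ) : embedding_of_isReal (pl_real φ) = φ := by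
  ext x
  have h : ((embedding_of_isReal (pl_real φ) x : ℝ) : ℂ) = ((φ x : ℝ) : ℂ) := by
    rw [embedding_of_isReal_apply]
    have : (pl φ).embedding = toC φ := embedding_mk_eq_of_isReal (toC_isReal φ)
    rw [this]
    simp [toC]
  exact_mod_cast h

theorem all_real (h : ∀ φ : F →+* ℂ, ∀ x : F, (φ x).im = 0) (w : InfinitePlace F) :
    IsReal w := by
  rw [isReal_iff, ComplexEmbedding.isReal_iff]
  ext x
  simp only [ComplexEmbedding.conjugate_coe_eq]
  exact Complex.conj_eq_iff_im.2 (h _ x)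

/-- real embeddings and infinite places of a totally real field -/
noncomputable def plEquiv (h : ∀ φ : F →+* ℂ, ∀ x : F, (φ x).im = 0) :
    (F →+* ℝ) ≃ InfinitePlace F where
  toFun := pl
  invFun w := embedding_of_isReal (all_real h w)
  left_inv φ := emb_pl φ
  right_inv w := by
    ext x
    rw [pl_apply, ← Real.norm_eq_abs, norm_embedding_of_isReal]

theorem round_exists : ∃ C : ℝ, 0 ≤ C ∧ ∀ r : (F →+* ℝ) → ℝ, ∃ c : 𝓞 F, ∀ φ : F →+* ℝ,
    |φ c - r φ| ≤ C := by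
  classical
  let b := mixedEmbedding.latticeBasis F
  refine ⟨∑ i, ‖b i‖, Finset.sum_nonneg fun _ _ => norm_nonneg _, fun r => ?_⟩
  let X : mixedEmbedding.mixedSpace F := (fun w => r (embedding_of_isReal w.2), fun _ => 0)
  have h1 : ‖ZSpan.fract b X‖ ≤ ∑ i, ‖b i‖ := ZSpan.norm_fract_le b X
  have h2 := (ZSpan.floor b X).2
  rw [mixedEmbedding.mem_span_latticeBasis] at h2
  obtain ⟨c, hc⟩ := h2
  refine ⟨c, fun φ => ?_⟩
  have h3 : (mixedEmbedding F (c : F)) = (ZSpan.floor b X : mixedEmbedding.mixedSpace F) := hc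
  have h4 : ‖(ZSpan.fract b X).1 ⟨pl φ, pl_real φ⟩‖ ≤ ‖ZSpan.fract b X‖ :=
    (norm_le_pi_norm _ _).trans (norm_fst_le _)
  rw [ZSpan.fract_apply, ← h3] at h4
  simp only [Prod.fst_sub, Pi.sub_apply, mixedEmbedding.mixedEmbedding_apply_isReal] at h4
  rw [emb_pl] at h4
  rw [ZSpan.fract_apply, ← h3] at h1
  have h5 : X.1 ⟨pl φ, pl_real φ⟩ = r φ := by
    show r (embedding_of_isReal (pl_real φ)) = r φ
    rw [emb_pl]
  rw [h5, Real.norm_eq_abs, abs_sub_comm] at h4
  exact h4.trans h1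

theorem unit_exists (h : ∀ φ : F →+* ℂ, ∀ x : F, (φ x).im = 0) :
    ∃ C : ℝ, 0 ≤ C ∧ ∀ t : (F →+* ℝ) → ℝ, ∑ φ, t φ = 0 → ∃ u : (𝓞 F)ˣ, ∀ φ : F →+* ℝ,
      |Real.log |φ (u : 𝓞 F)| - t φ| ≤ C := by
  classical
  let b := (basisUnitLattice F).ofZLatticeBasis ℝ (unitLattice F)
  set C0 := ∑ i, ‖b i‖ with hC0
  have hC0' : 0 ≤ C0 := Finset.sum_nonneg fun _ _ => norm_nonneg _
  obtain ⟨N, hN⟩ : ∃ N : ℝ, N = ∑ w : {w : InfinitePlace F // w ≠ w₀}, C0 := ⟨_, rfl⟩
  have hN' : 0 ≤ N := by rw [hN]; exact Finset.sum_nonneg fun _ _ => hC0'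
  refine ⟨C0 + N, by positivity, fun t ht => ?_⟩
  let T : InfinitePlace F → ℝ := fun w => t ((plEquiv h).symm w)
  let v : logSpace F := fun w => T w
  have h1 : ‖ZSpan.fract b v‖ ≤ C0 := ZSpan.norm_fract_le b v
  have h2 : (ZSpan.floor b v : logSpace F) ∈ unitLattice F := by
    have e : Submodule.span ℤ (Set.range b) = unitLattice F :=
      Module.Basis.ofZLatticeBasis_span ℝ _ _
    exact e.le (ZSpan.floor b v).2
  obtain ⟨u', -, hu⟩ := h2
  obtain ⟨u, rfl⟩ : ∃ u : (𝓞 F)ˣ, Additive.ofMul u = u' := ⟨u'.toMul, rfl⟩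
  have h3 : logEmbedding F (Additive.ofMul u) = (ZSpan.floor b v : logSpace F) := hu
  have hm : ∀ w : InfinitePlace F, (mult w : ℝ) = 1 := fun w => by
    rw [(all_real h w).mult_eq_one]; simp
  have h4 : ∀ w : {w : InfinitePlace F // w ≠ w₀}, |Real.log (w.1 (u : F)) - T w.1| ≤ C0 := by
    intro w
    have h5 : ‖(ZSpan.fract b v) w‖ ≤ C0 := (norm_le_pi_norm _ _).trans h1
    rw [ZSpan.fract_apply, ← h3] at h5
    simp only [Pi.sub_apply, logEmbedding_component, hm, one_mul] at h5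
    rw [Real.norm_eq_abs, abs_sub_comm] at h5
    exact h5
  have h6 : ∑ w : {w : InfinitePlace F // w ≠ w₀}, Real.log (w.1 (u : F)) =
      - Real.log (w₀ (u : F)) := by
    have := sum_logEmbedding_component u
    simp only [logEmbedding_component, hm, one_mul, neg_mul] at this
    exact this
  have h7 : ∑ w : {w : InfinitePlace F // w ≠ w₀}, T w.1 = - T w₀ := by
    have e1 : ∑ w : InfinitePlace F, T w = 0 := by
      rw [← ht]
      exact Fintype.sum_equiv (plEquiv h).symm _ _ fun w => rfl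
    rw [Fintype.sum_eq_add_sum_subtype_ne _ (w₀ : InfinitePlace F)] at e1
    linarith
  have h8 : |Real.log (w₀ (u : F)) - T w₀| ≤ N := by
    have e1 : Real.log (w₀ (u : F)) - T w₀ =
        - ∑ w : {w : InfinitePlace F // w ≠ w₀}, (Real.log (w.1 (u : F)) - T w.1) := by
      rw [Finset.sum_sub_distrib, h6, h7]; ring
    rw [e1, abs_neg]
    refine (Finset.abs_sum_le_sum_abs _ _).trans ?_
    rw [hN]
    exact Finset.sum_le_sum fun w _ => h4 w
  refine ⟨u, fun φ => ?_⟩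
  have h9 : |Real.log (pl φ (u : F)) - T (pl φ)| ≤ C0 + N := by
    by_cases hw : pl φ = w₀
    · rw [hw]
      exact h8.trans (by linarith)
    · exact (h4 ⟨pl φ, hw⟩).trans (by linarith)
  have h11 : T (pl φ) = t φ := by
    show t ((plEquiv h).symm (pl φ)) = t φ
    congr 1
    exact (plEquiv h).symm_apply_apply φ
  rw [h11, pl_apply] at h9
  exact h9

theorem stmB1 : Pool.Agent.TH843.PY.StmB1 := by
  intro F _ _ h
  classical
  obtain ⟨C2, hC2, hr⟩ := round_exists (F := F)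
  obtain ⟨C1, hC1, hu⟩ := unit_exists h
  set C : ℝ := Real.exp C1 + C2 * Real.exp C1 with hC
  have hexp : 1 ≤ Real.exp C1 := Real.one_le_exp hC1
  have hC' : Real.exp C1 ≤ C := by nlinarith
  have hCpos : 0 < C := by linarith
  refine ⟨C, by linarith, fun s hs hprod => ?_⟩
  have hsum : ∑ φ, Real.log (s φ) = 0 := by
    rw [← Real.log_prod (fun φ _ => (hs φ).ne'), hprod, Real.log_one]
  obtain ⟨u, hu⟩ := hu (fun φ => Real.log (s φ)) hsum
  have hne : ∀ φ : F →+* ℝ, 0 < |φ (u : 𝓞 F)| := by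
    intro φ
    rw [abs_pos]
    exact (map_ne_zero φ).2 (by simp)
  have hup : ∀ φ : F →+* ℝ, |φ (u : 𝓞 F)| ≤ Real.exp C1 * s φ := by
    intro φ
    have h1 := (abs_le.1 (hu φ)).2
    have h2 : Real.log |φ (u : 𝓞 F)| ≤ C1 + Real.log (s φ) := by linarith
    have h3 := Real.exp_le_exp.2 h2
    rw [Real.exp_log (hne φ), Real.exp_add, Real.exp_log (hs φ)] at h3
    exact h3
  have hlo : ∀ φ : F →+* ℝ, s φ ≤ Real.exp C1 * |φ (u : 𝓞 F)| := by
    intro φ
    have h1 := (abs_le.1 (hu φ)).1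
    have h2 : Real.log (s φ) ≤ C1 + Real.log |φ (u : 𝓞 F)| := by linarith
    have h3 := Real.exp_le_exp.2 h2
    rw [Real.exp_log (hs φ), Real.exp_add, Real.exp_log (hne φ)] at h3
    exact h3
  refine ⟨⟨u, fun φ => ⟨?_, ?_⟩⟩, fun r => ?_⟩
  · rw [div_le_iff₀ hCpos]
    calc s φ ≤ Real.exp C1 * |φ (u : 𝓞 F)| := hlo φ
      _ ≤ C * |φ (u : 𝓞 F)| := mul_le_mul_of_nonneg_right hC' (hne φ).le
      _ = |φ (u : 𝓞 F)| * C := mul_comm _ _
  · exact (hup φ).trans (mul_le_mul_of_nonneg_right hC' (hs φ).le)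
  · obtain ⟨c, hc⟩ := hr (fun φ => r φ / φ (u : 𝓞 F))
    refine ⟨c * u, fun φ => ?_⟩
    have h0 : φ (u : 𝓞 F) ≠ 0 := abs_pos.1 (hne φ)
    have e : φ ((c * (u : 𝓞 F) : 𝓞 F) : F) - r φ =
        (φ c - r φ / φ (u : 𝓞 F)) * φ (u : 𝓞 F) := by
      push_cast
      rw [map_mul, sub_mul, div_mul_cancel₀ _ h0]
    rw [e, abs_mul]
    calc |φ c - r φ / φ (u : 𝓞 F)| * |φ (u : 𝓞 F)| ≤ C2 * (Real.exp C1 * s φ) :=
          mul_le_mul (hc φ) (hup φ) (abs_nonneg _) hC2
      _ = (C2 * Real.exp C1) * s φ := by ring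
      _ ≤ C * s φ := mul_le_mul_of_nonneg_right (by linarith) (hs φ).le

end Pool.Agent.TH241.J207
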