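import Pool.Agent.TH241.J218.D

/-!
# The Berndtsson-Andersson reproducing formula for entire functions (CE-D2, job 218)
-/

set_option autoImplicit false

open MeasureTheory Complex Filter Topology
open scoped ContDiff ComplexConjugate

namespace Pool.Agent.TH241.J218

open BK BK.JB1 BK.JB1.JKI BK.JC2

variable {n : ℕ}

theorem GG_zero (F : En n → ℂ) (Q : En n → En n) (z : En n) :
    ∫ x, GG F Q z 0 x = (Real.pi : ℂ) ^ n * F z := by
  have h1 : ∀ x, GG F Q z 0 x = F z * ∏ j, cexp (-((‖x j‖ ^ 2 : ℝ) : ℂ)) := by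
    intro x
    unfold GG
    rw [← Complex.exp_sum]
    simp
  simp_rw [h1]
  rw [integral_const_mul, integral_fintype_prod_volume_eq_prod
    (fun (_ : Fin n) (ζ : ℂ) => cexp (-((‖ζ‖ ^ 2 : ℝ) : ℂ)))]
  simp_rw [gauss1]
  rw [Finset.prod_const, Finset.card_univ, Fintype.card_fin, mul_comm]

theorem GG_bound {F : En n → ℂ} {Q : En n → En n} {B : ℝ} (hQB : ∀ w, ‖Q w‖ ≤ B)
    (hJ : ∀ w j k, ‖JM Q w j k‖ ≤ B) {C A : ℝ} (hFA : ∀ w, ‖F w‖ ≤ C * Real.exp (A * ‖w‖))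
    (z : En n) : ∃ K : ℝ, ∀ r : ℝ, 0 ≤ r → r ≤ 1 → ∀ x,
      ‖GG F Q z r x‖ ≤ K * ∏ j, Real.exp (-(1 / 2) * ‖x j‖ ^ 2) := by
  obtain ⟨D, hD, hdet⟩ := det_bound (n := n) (|B| + 1)
  set a : ℝ := |A| + |B| with ha
  have ha0 : 0 ≤ a := by positivity
  refine ⟨|C| * Real.exp (|A| * ‖z‖) * D * Real.exp (n * (a ^ 2 / 2)), fun r hr hr1 x => ?_⟩
  set S : ℝ := ∑ j, ‖x j‖ with hS
  have hS0 : 0 ≤ S := Finset.sum_nonneg fun _ _ => norm_nonneg _
  have hxS : ‖x‖ ≤ S := by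
    rw [pi_norm_le_iff_of_nonneg hS0]
    intro i
    exact Finset.single_le_sum (f := fun j => ‖x j‖) (fun _ _ => norm_nonneg _) (Finset.mem_univ i)
  have b1 : ‖F (z + r • x)‖ ≤ |C| * Real.exp (|A| * ‖z‖) * Real.exp (|A| * S) := by
    refine (hFA _).trans ?_
    rw [mul_assoc, ← Real.exp_add]
    refine mul_le_mul (le_abs_self C) (Real.exp_le_exp.2 ?_) (Real.exp_pos _).le (abs_nonneg _)
    have h1 : ‖z + r • x‖ ≤ ‖z‖ + S := by
      refine (norm_add_le _ _).trans ?_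
      rw [norm_smul, Real.norm_of_nonneg hr]
      have : r * ‖x‖ ≤ 1 * S := mul_le_mul hr1 hxS (norm_nonneg _) zero_le_one
      linarith
    calc A * ‖z + r • x‖ ≤ |A| * ‖z + r • x‖ :=
          mul_le_mul_of_nonneg_right (le_abs_self A) (norm_nonneg _)
      _ ≤ |A| * (‖z‖ + S) := mul_le_mul_of_nonneg_left h1 (abs_nonneg _)
      _ = |A| * ‖z‖ + |A| * S := by ring
  have b2 : ‖cexp (-(r * ∑ j, Q (z + r • x) j * x j))‖ ≤ Real.exp (|B| * S) := by
    refine (Complex.norm_exp_le_exp_norm _).trans (Real.exp_le_exp.2 ?_)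
    rw [norm_neg, norm_mul, Complex.norm_real, Real.norm_of_nonneg hr]
    have h1 : ‖∑ j, Q (z + r • x) j * x j‖ ≤ |B| * S := by
      refine (norm_sum_le _ _).trans ?_
      rw [hS, Finset.mul_sum]
      refine Finset.sum_le_sum fun j _ => ?_
      rw [norm_mul]
      exact mul_le_mul_of_nonneg_right
        ((norm_le_pi_norm _ j).trans ((hQB _).trans (le_abs_self B))) (norm_nonneg _)
    calc r * ‖∑ j, Q (z + r • x) j * x j‖ ≤ 1 * (|B| * S) :=
          mul_le_mul hr1 h1 (norm_nonneg _) zero_le_one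
      _ = |B| * S := one_mul _
  have b3 : ‖cexp (-((∑ j, ‖x j‖ ^ 2 : ℝ) : ℂ))‖ = Real.exp (-∑ j, ‖x j‖ ^ 2) := by
    rw [Complex.norm_exp, Complex.neg_re, Complex.ofReal_re]
  have b4 : ‖(((r : ℂ) ^ 2) • JM Q (z + r • x) + (1 : Matrix (Fin n) (Fin n) ℂ)).det‖ ≤ D := by
    refine (hdet _ fun i j => ?_).1
    rw [Matrix.add_apply, Matrix.smul_apply]
    refine (norm_add_le _ _).trans (add_le_add ?_ ?_)
    · rw [smul_eq_mul, norm_mul, norm_pow, Complex.norm_real, Real.norm_of_nonneg hr]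
      calc r ^ 2 * ‖JM Q (z + r • x) i j‖ ≤ 1 * |B| :=
            mul_le_mul (pow_le_one₀ hr hr1) ((hJ _ i j).trans (le_abs_self B)) (norm_nonneg _)
              zero_le_one
        _ = |B| := one_mul _
    · rw [Matrix.one_apply]
      split_ifs <;> simp
  have key : Real.exp (|A| * S) * Real.exp (|B| * S) * Real.exp (-∑ j, ‖x j‖ ^ 2) ≤
      Real.exp (n * (a ^ 2 / 2)) * ∏ j, Real.exp (-(1 / 2) * ‖x j‖ ^ 2) := by
    rw [← Real.exp_add, ← Real.exp_add, ← Real.exp_sum, ← Real.exp_add]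
    apply Real.exp_le_exp.2
    have h1 : |A| * S + |B| * S + -∑ j, ‖x j‖ ^ 2 = ∑ j, (a * ‖x j‖ - ‖x j‖ ^ 2) := by
      rw [Finset.sum_sub_distrib, ← Finset.mul_sum, ha]
      ring
    have h2 : n * (a ^ 2 / 2) + ∑ j, -(1 / 2) * ‖x j‖ ^ 2 =
        ∑ j, (a ^ 2 / 2 + -(1 / 2) * ‖x j‖ ^ 2) := by
      rw [Finset.sum_add_distrib, Finset.sum_const, Finset.card_univ, Fintype.card_fin,
        nsmul_eq_mul]
    rw [h1, h2]
    refine Finset.sum_le_sum fun j _ => ?_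
    nlinarith [sq_nonneg (a - ‖x j‖)]
  unfold GG
  rw [norm_mul, norm_mul, norm_mul, b3]
  calc ‖F (z + r • x)‖ * ‖cexp (-(r * ∑ j, Q (z + r • x) j * x j))‖ *
        Real.exp (-∑ j, ‖x j‖ ^ 2) *
        ‖(((r : ℂ) ^ 2) • JM Q (z + r • x) + (1 : Matrix (Fin n) (Fin n) ℂ)).det‖
      ≤ (|C| * Real.exp (|A| * ‖z‖) * Real.exp (|A| * S)) * Real.exp (|B| * S) *
        Real.exp (-∑ j, ‖x j‖ ^ 2) * D := by gcongr
    _ = |C| * Real.exp (|A| * ‖z‖) * D *
        (Real.exp (|A| * S) * Real.exp (|B| * S) * Real.exp (-∑ j, ‖x j‖ ^ 2)) := by ring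
    _ ≤ |C| * Real.exp (|A| * ‖z‖) * D *
        (Real.exp (n * (a ^ 2 / 2)) * ∏ j, Real.exp (-(1 / 2) * ‖x j‖ ^ 2)) := by gcongr
    _ = _ := by ring

theorem GG_cont_r {F : En n → ℂ} (hF : Differentiable ℂ F) {Q : En n → En n}
    (hQ : ContDiff ℝ ∞ Q) (z x : En n) : Continuous (fun r : ℝ => GG F Q z r x) := by
  have h1 : Continuous (fun r : ℝ => (r, x)) := by fun_prop
  exact Continuous.comp (g := fun p : ℝ × En n => GG F Q z p.1 p.2) (f := fun r : ℝ => (r, x))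
    (GG_cont hF hQ z) h1

/-- THE JOB, with the Piola identity as a hypothesis -/
theorem ba (hp : Piola n) (Q : En n → En n) (hQ : ContDiff ℝ ∞ Q) (B : ℝ) (hQB : ∀ w, ‖Q w‖ ≤ B)
    (hJ : ∀ w j k, ‖JM Q w j k‖ ≤ B) (F : En n → ℂ) (hF : Differentiable ℂ F) (C A : ℝ)
    (hFA : ∀ w, ‖F w‖ ≤ C * Real.exp (A * ‖w‖)) (z : En n)
    (hint : Integrable (fun w => (1 + ‖w‖) * ‖F w * cexp (∑ j, Q w j * (z j - w j))‖)) :
    ∫ w, F w * cexp (∑ j, Q w j * (z j - w j)) * (JM Q w).det = (Real.pi : ℂ) ^ n * F z := by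
  have hint' : Integrable (fun w => (1 + ‖w‖) * ‖EE F Q z w‖) := hint
  have h0 : ∫ w, F w * cexp (∑ j, Q w j * (z j - w j)) * (JM Q w).det = ∫ w, Th F Q z 0 w := by
    refine integral_congr_ae (Eventually.of_forall fun w => ?_)
    simp [Th, EE, SS, MT]
  obtain ⟨K, hK⟩ := GG_bound hQB hJ hFA z
  have hprod : Integrable (fun x : En n => K * ∏ j, Real.exp (-(1 / 2) * ‖x j‖ ^ 2)) :=
    (Integrable.fintype_prod (f := fun (_ : Fin n) (ζ : ℂ) => Real.exp (-(1 / 2) * ‖ζ‖ ^ 2))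
      fun _ => gauss_int (by norm_num)).const_mul K
  have hlim : Tendsto (fun N : ℕ => ∫ x, GG F Q z (1 / ((N : ℝ) + 1)) x) atTop
      (𝓝 (∫ x, GG F Q z 0 x)) := by
    refine tendsto_integral_of_dominated_convergence _ ?_ hprod ?_ ?_
    · intro N
      exact ((GG_cont hF hQ z).comp (Continuous.prodMk_right _)).aestronglyMeasurable
    · intro N
      have hN : (0 : ℝ) < (N : ℝ) + 1 := by positivity
      refine Eventually.of_forall fun x => hK _ (by positivity) ?_ x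
      rw [div_le_one hN]
      have : (0 : ℝ) ≤ N := Nat.cast_nonneg _
      linarith
    · refine Eventually.of_forall fun x => ?_
      exact ((GG_cont_r hF hQ z x).tendsto 0).comp
        (tendsto_one_div_add_atTop_nhds_zero_nat (𝕜 := ℝ))
  have hconst : ∀ N : ℕ, ∫ x, GG F Q z (1 / ((N : ℝ) + 1)) x = ∫ w, Th F Q z 0 w := by
    intro N
    have hN : (0 : ℝ) < 1 / ((N : ℝ) + 1) := by positivity
    rw [rescale F Q z hN]
    exact homotopy hp hF hQ hJ z hint' _ (by positivity)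
  simp_rw [hconst] at hlim
  rw [h0, ← GG_zero F Q z]
  exact tendsto_nhds_unique tendsto_const_nhds hlim

end Pool.Agent.TH241.J218
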