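import Pool.Agent.TH672.Sem

/-!
# Semantic lemmas on truth predicates (MYC-9, job 198)
-/

set_option autoImplicit false

namespace Pool.Agent.TH672

open Fm

namespace J198

theorem ex_nz {P : Form} {S : Str Sy} (h : Mod P S) : ∃ c, ¬ S.zero c := by
  obtain ⟨z, -⟩ := h.rob.z_ex
  obtain ⟨y, hy⟩ := h.rob.s_ex z
  exact ⟨y, h.rob.s_nz z y hy⟩

/-- immediate subformulas have the same depth bound -/
theorem dp_im {P : Form} {S : Str Sy} (h : Mod P S) {K F G H : S.M} (hF : S.r2 .dp F K)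
    (hi : S.r3 .im G H F) : S.r2 .dp G K ∧ S.r2 .dp H K := by
  have hK : ¬ S.zero K := fun hz => h.d0 K F hz hF
  obtain ⟨k, hk⟩ := h.rob.pred K hK
  obtain ⟨h1, h2⟩ := h.d4 k K F G H hk hF hi
  exact ⟨h.d6 k K G hk h1, h.d6 k K H hk h2⟩

theorem dp_al {P : Form} {S : Str Sy} (h : Mod P S) {K F G a H : S.M} (hF : S.r2 .dp F K)
    (hi : S.r2 .al G F) (hH : S.r3 .ins G a H) : S.r2 .dp H K := by
  have hK : ¬ S.zero K := fun hz => h.d0 K F hz hF
  obtain ⟨k, hk⟩ := h.rob.pred K hK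
  exact h.d6 k K H hk (h.d5 k K F G a H hk hF hi hH)

/-- coherence of the truth values -/
theorem coh {S : Str Sy} {n : S.M → Prop} {x : S.M → S.M → Prop} (hx : SemX S n x)
    {k F c1 : S.M} (hk : n k) (hF : S.r2 .dp F k) (h1 : ¬ S.zero c1) (c : S.M) :
    x F c ↔ (¬ S.zero c ↔ x F c1) := by
  obtain ⟨e1, e2, -⟩ := hx k F hk hF
  by_cases hc : S.zero c
  · have := e2 c c1 hc h1
    tauto
  · have := e1 c c1 (by tauto)
    tauto

theorem semD_at {P : Form} {S : Str Sy} (h : Mod P S) {x : S.M → S.M → Prop} {F : S.M}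
    (hF : S.r1 .at F) (b : S.M) : SemD S x F b ↔ (¬ S.zero b ↔ S.r1 .tt F) := by
  constructor
  · rintro ⟨c, d, r, h1, -, -⟩
    exact h1 hF
  · intro hb
    refine ⟨F, F, F, fun _ => hb, fun G H hG => ?_, fun g e hg => ?_⟩
    · exact absurd hG ((h.d2 F G H F).1 hF)
    · rcases hg with ⟨⟨H, hH⟩, -⟩ | ⟨⟨H, hH⟩, -⟩ | ⟨G, hG, -⟩
      · exact absurd hH ((h.d2 F g H F).1 hF)
      · exact absurd hH ((h.d2 F H g F).1 hF)
      · exact absurd hG ((h.d2 F G G F).2.1 hF)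

theorem semD_im {P : Form} {S : Str Sy} (h : Mod P S) {n : S.M → Prop} {x : S.M → S.M → Prop}
    (hx : SemX S n x) {k F G H c1 : S.M} (hk : n k) (hG : S.r2 .dp G k) (hH : S.r2 .dp H k)
    (hF : S.r3 .im G H F) (h1 : ¬ S.zero c1) (b : S.M) :
    SemD S x F b ↔ (¬ S.zero b ↔ (x G c1 → x H c1)) := by
  constructor
  · rintro ⟨c, d, r, -, e2, e3⟩
    have a1 := e2 G H hF
    have a2 := (coh hx hk hG h1 c).1 (e3 G c (Or.inl ⟨⟨H, hF⟩, rfl⟩))
    have a3 := (coh hx hk hH h1 d).1 (e3 H d (Or.inr (Or.inl ⟨⟨G, hF⟩, rfl⟩)))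
    tauto
  · intro hb
    obtain ⟨z, hz⟩ := h.rob.z_ex
    obtain ⟨c, hc⟩ : ∃ c, (¬ S.zero c ↔ x G c1) := by
      by_cases hh : x G c1
      · exact ⟨c1, by tauto⟩
      · exact ⟨z, by tauto⟩
    obtain ⟨d, hd⟩ : ∃ d, (¬ S.zero d ↔ x H c1) := by
      by_cases hh : x H c1
      · exact ⟨c1, by tauto⟩
      · exact ⟨z, by tauto⟩
    refine ⟨c, d, z, fun ha => absurd hF ((h.d2 F G H F).1 ha), fun G' H' hG' => ?_,
      fun g e hg => ?_⟩
    · obtain ⟨rfl, rfl⟩ := (h.d3 F G H G' H').1 hF hG'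
      tauto
    · rcases hg with ⟨⟨H', hH'⟩, rfl⟩ | ⟨⟨H', hH'⟩, rfl⟩ | ⟨G', hG', -⟩
      · obtain ⟨rfl, rfl⟩ := (h.d3 F G H g H').1 hF hH'
        exact (coh hx hk hG h1 _).2 hc
      · obtain ⟨rfl, rfl⟩ := (h.d3 F G H H' g).1 hF hH'
        exact (coh hx hk hH h1 _).2 hd
      · exact absurd hG' ((h.d2 F G H G').2.2 hF)

theorem semD_al {P : Form} {S : Str Sy} (h : Mod P S) {n : S.M → Prop} {x : S.M → S.M → Prop}
    (hx : SemX S n x) {k F G c1 : S.M} (hk : n k)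
    (hG : ∀ a H, S.r3 .ins G a H → S.r2 .dp H k)
    (hF : S.r2 .al G F) (h1 : ¬ S.zero c1) (b : S.M) :
    SemD S x F b ↔ (¬ S.zero b ↔ ∀ a H, S.r3 .ins G a H → x H c1) := by
  have hnat : ¬ S.r1 .at F := fun ha => (h.d2 F G G F).2.1 ha hF
  have hnim : ∀ G' H', ¬ S.r3 .im G' H' F := fun G' H' hi => (h.d2 F G' H' G).2.2 hi hF
  constructor
  · rintro ⟨c, d, r, -, -, e3⟩
    constructor
    · intro hb a H hH
      exact e3 H c1 (Or.inr (Or.inr ⟨G, hF, Or.inl ⟨hb, h1, a, hH⟩⟩))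
    · intro ha hb
      obtain ⟨g, hg⟩ := h.d7 F G r hF
      have a1 := e3 g b (Or.inr (Or.inr ⟨G, hF, Or.inr ⟨hb, hb, hg⟩⟩))
      have a2 := (coh hx hk (hG r g hg) h1 b).1 a1
      exact a2.2 (ha r g hg) hb
  · intro hb
    by_cases hz : S.zero b
    · have hne : ¬ ∀ a H, S.r3 .ins G a H → x H c1 := fun hh => hb.2 hh hz
      push Not at hne
      obtain ⟨a, H, hH, hxH⟩ := hne
      refine ⟨F, F, a, fun ha => absurd ha hnat, fun G' H' hi => absurd hi (hnim G' H'),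
        fun g e hg => ?_⟩
      rcases hg with ⟨⟨H', hH'⟩, rfl⟩ | ⟨⟨H', hH'⟩, rfl⟩ | ⟨G', hG', hc⟩
      · exact absurd hH' (hnim _ _)
      · exact absurd hH' (hnim _ _)
      · obtain rfl := (h.d3 F G G G' G).2 hF hG'
        rcases hc with ⟨hc, -⟩ | ⟨-, hze, hg⟩
        · exact absurd hz hc
        · obtain rfl := h.d8 G a g H hg hH
          exact (coh hx hk (hG a g hg) h1 e).2 (by tauto)
    · have ha := hb.1 hz
      refine ⟨F, F, F, fun ha => absurd ha hnat, fun G' H' hi => absurd hi (hnim G' H'),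
        fun g e hg => ?_⟩
      rcases hg with ⟨⟨H', hH'⟩, rfl⟩ | ⟨⟨H', hH'⟩, rfl⟩ | ⟨G', hG', hc⟩
      · exact absurd hH' (hnim _ _)
      · exact absurd hH' (hnim _ _)
      · obtain rfl := (h.d3 F G G G' G).2 hF hG'
        rcases hc with ⟨-, hze, a, hg⟩ | ⟨hc, -⟩
        · have := ha a g hg
          exact (coh hx hk (hG a g hg) h1 e).2 (by tauto)
        · exact absurd hc hz

/-- the new truth predicate agrees with the old one on small depths -/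
theorem semD_old {P : Form} {S : Str Sy} (h : Mod P S) {n : S.M → Prop} {x : S.M → S.M → Prop}
    (hx : SemX S n x) {k G c1 : S.M} (hk : n k) (hG : S.r2 .dp G k) (h1 : ¬ S.zero c1) (c : S.M) :
    SemD S x G c ↔ (¬ S.zero c ↔ x G c1) := by
  obtain ⟨-, -, e3⟩ := hx k G hk hG
  obtain ⟨e4, e5, e6⟩ := e3 c1 h1
  rcases h.d1 k G hG with ha | ⟨G1, G2, hi⟩ | ⟨G1, hi⟩
  · rw [semD_at h ha, e4 ha]
  · obtain ⟨d1, d2⟩ := dp_im h hG hi
    rw [semD_im h hx hk d1 d2 hi h1, e5 G1 G2 hi]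
  · rw [semD_al h hx hk (fun a H hH => dp_al h hG hi hH) hi h1, e6 G1 hi]

end J198

open J198

theorem semX_zero {P : Form} {S : Str Sy} (h : Mod P S) {n : S.M → Prop} {x : S.M → S.M → Prop}
    (hn : ∀ k, n k → S.zero k) : SemX S n x := by
  intro k F hk hF
  exact absurd hF (h.d0 k F (hn k hk))

theorem semX_succ {P : Form} {S : Str Sy} (h : Mod P S) {n n' : S.M → Prop} {x : S.M → S.M → Prop}
    (hx : SemX S n x) (hn : ∀ k', n' k' → ∃ k, n k ∧ S.succ k k') : SemX S n' (SemD S x) := by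
  intro k' F hk' hF
  obtain ⟨k, hk, hs⟩ := hn k' hk'
  obtain ⟨c1, h1⟩ := ex_nz h
  have key : ∃ V : Prop, (∀ b, SemD S x F b ↔ (¬ S.zero b ↔ V)) ∧ (S.r1 .at F → (V ↔ S.r1 .tt F)) ∧
      (∀ G H, S.r3 .im G H F → (V ↔ (x G c1 → x H c1))) ∧
      (∀ G, S.r2 .al G F → (V ↔ ∀ a H, S.r3 .ins G a H → x H c1)) := by
    rcases h.d1 k' F hF with ha | ⟨G1, G2, hi⟩ | ⟨G1, hi⟩
    · exact ⟨S.r1 .tt F, semD_at h ha, fun _ => Iff.rfl,
        fun G H hG => absurd hG ((h.d2 F G H F).1 ha),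
        fun G hG => absurd hG ((h.d2 F G G F).2.1 ha)⟩
    · obtain ⟨d1, d2⟩ := h.d4 k k' F G1 G2 hs hF hi
      refine ⟨x G1 c1 → x G2 c1, semD_im h hx hk d1 d2 hi h1,
        fun ha => absurd hi ((h.d2 F G1 G2 F).1 ha), fun G H hG => ?_,
        fun G hG => absurd hG ((h.d2 F G1 G2 G).2.2 hi)⟩
      obtain ⟨rfl, rfl⟩ := (h.d3 F G1 G2 G H).1 hi hG
      rfl
    · refine ⟨∀ a H, S.r3 .ins G1 a H → x H c1,
        semD_al h hx hk (fun a H hH => h.d5 k k' F G1 a H hs hF hi hH) hi h1,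
        fun ha => absurd hi ((h.d2 F G1 G1 F).2.1 ha),
        fun G H hG => absurd hi ((h.d2 F G H G1).2.2 hG), fun G hG => ?_⟩
      obtain rfl := (h.d3 F G1 G1 G G1).2 hi hG
      rfl
  obtain ⟨V, hV, v1, v2, v3⟩ := key
  refine ⟨fun b c hbc => by rw [hV, hV, hbc], fun b c hb hc => by rw [hV, hV]; tauto,
    fun c hc => ⟨fun ha => ?_, fun G H hG => ?_, fun G hG => ?_⟩⟩
  · rw [hV, ← v1 ha]; tauto
  · obtain ⟨d1, d2⟩ := h.d4 k k' F G H hs hF hG
    rw [hV, semD_old h hx hk d1 h1 c, semD_old h hx hk d2 h1 c, v2 G H hG]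
    tauto
  · have e : ∀ a H, S.r3 .ins G a H → (SemD S x H c ↔ x H c1) := by
      intro a H hH
      rw [semD_old h hx hk (h.d5 k k' F G a H hs hF hG hH) h1 c]
      tauto
    rw [hV, v3 G hG]
    constructor
    · intro hh a H hH
      exact (e a H hH).2 (hh.1 hc a H hH)
    · intro hh
      exact ⟨fun _ a H hH => (e a H hH).1 (hh a H hH), fun _ => hc⟩

theorem semC_zero {P : Form} {S : Str Sy} (h : Mod P S) {A : List Form} {n l : S.M → Prop}
    {x : S.M → S.M → Prop} (hl : ∀ k, l k → S.zero k) : SemC S A n l x := by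
  intro a k K y s F c _ hk _ hq
  exact absurd hq (h.q0 a k K y (hl k hk))

theorem semC_succ {P : Form} {S : Str Sy} (h : Mod P S) {A : List Form} {n l l' : S.M → Prop}
    {x : S.M → S.M → Prop} (hx : SemX S n x) (hA : SemA S A n x)
    (hl : ∀ k', l' k' → ∃ k, l k ∧ S.succ k k') (hC : SemC S A n l x) : SemC S A n l' x := by
  intro a k' K y s F c ha hk' hK hq hcl hc
  obtain ⟨k, hk, hs⟩ := hl k' hk'
  have hdF : S.r2 .dp F K := h.q2 a k' K y s F hq hcl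
  have im : ∀ F G H, S.r2 .dp F K → S.r3 .im G H F → (x F c ↔ (x G c → x H c)) :=
    fun F G H hF hi => ((hx K F hK hF).2.2 c hc).2.1 G H hi
  have al : ∀ F G, S.r2 .dp F K → S.r2 .al G F → (x F c ↔ ∀ a H, S.r3 .ins G a H → x H c) :=
    fun F G hF hi => ((hx K F hK hF).2.2 c hc).2.2 G hi
  have att : ∀ F, S.r2 .dp F K → S.r1 .at F → (x F c ↔ S.r1 .tt F) :=
    fun F hF hi => ((hx K F hK hF).2.2 c hc).1 hi
  rcases h.q1 a k k' K y s F hs hq hcl with h0 | h0 | h0 | h0 | h0 | h0 | h0 | h0 | h0 | h0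
  · exact hA a y s F K c ha hK h0 hcl hdF hc
  · obtain ⟨G, H, L, h1, h2⟩ := h0
    obtain ⟨d1, d2⟩ := dp_im h hdF h2
    rw [im F G L hdF h2, im L H G d2 h1]
    tauto
  · obtain ⟨G, H, L, HL, B, GH, Gl, D, h1, h2, h3, h4, h5, h6⟩ := h0
    obtain ⟨dB, dD⟩ := dp_im h hdF h6
    obtain ⟨dG, dHL⟩ := dp_im h dB h2
    obtain ⟨dGH, dGL⟩ := dp_im h dD h5
    rw [im F B D hdF h6, im B G HL dB h2, im HL H L dHL h1, im D GH Gl dD h5, im GH G H dGH h3,
      im Gl G L dGL h4]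
    tauto
  · obtain ⟨G, B, N, M, h1, h2, h3, h4, h5⟩ := h0
    obtain ⟨dM, dG⟩ := dp_im h hdF h5
    obtain ⟨dN, dB⟩ := dp_im h dM h4
    rw [im F M G hdF h5, im M N B dM h4, im N G B dN h3, att B dB h1]
    tauto
  · obtain ⟨G, B, b, H, h1, h2, h3⟩ := h0
    obtain ⟨dB, dH⟩ := dp_im h hdF h3
    rw [im F B H hdF h3, al B G dB h1]
    exact fun hh => hh b H h2
  · obtain ⟨G, H, I, B, D, L, C, h1, h2, h3, h4, h5, h6⟩ := h0
    obtain ⟨dB, dC⟩ := dp_im h hdF h5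
    obtain ⟨dL, dD⟩ := dp_im h dC h4
    rw [im F B C hdF h5, im C L D dC h4, al B I dB h2, al D H dD h3]
    intro hh hL b H'' hH''
    obtain ⟨I', hI'⟩ := h.d7 B I b h2
    obtain ⟨H', hH', hLi⟩ := h6 b I' hI'
    obtain rfl := h.d8 H b H' H'' hH' hH''
    exact (im I' L H' (dp_al h dB h2 hI') hLi).1 (hh b I' hI') hL
  · exact (att F hdF h0.1).2 h0.2
  · obtain ⟨E, G, H, I, h1, h2, h3, h4⟩ := h0
    obtain ⟨dE, dI⟩ := dp_im h hdF h4
    rw [im F E I hdF h4, im I G H dI h3, att E dE h1]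
    intro hE hG
    rw [← h2 hE]
    exact hG
  · obtain ⟨u, w, G, H, h1, h2, h3, h4, h5⟩ := h0
    have hG := hC a k K u s G c ha hk hK h1 h3 hc
    have hH := hC a k K w s H c ha hk hK h2 h4 hc
    exact (im H G F (h.q2 a k K w s H h2 h4) h5).1 hH hG
  · obtain ⟨u, G, h1, h2, h3⟩ := h0
    rw [al F G hdF h2]
    intro b H hH
    obtain ⟨s', hs'⟩ := h3 b H hH
    exact hC a k K u s' H c ha hk hK h1 hs' hc

theorem semC_con {P : Form} {S : Str Sy} (h : Mod P S) {A : List Form} {n : S.M → Prop}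
    {x : S.M → S.M → Prop} (hx : SemX S n x) (hC : SemC S A n n x) :
    ∀ a k y, StrV S (strs A) a → n k → StrV S [false, false, false] y → ¬ S.r3 .p a k y := by
  intro a k y ha hk hy hp
  have hq := h.q3 a k y hp
  obtain ⟨s, F, hcl⟩ := h.k0' y hy
  obtain ⟨h1, h2⟩ := h.k0 y s F hy hcl
  have hd := h.q2 a k k y s F hq hcl
  obtain ⟨c, hc⟩ := ex_nz h
  exact h2 ((((hx k F hk hd).2.2 c hc).1 h1).1 (hC a k k y s F c ha hk hk hq hcl hc))

end Pool.Agent.TH672
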