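import Pool.Agent.TH241.J481

/-!
# Job 477 (LO-SG3): Bernoulli weights of the surgery map
-/

set_option autoImplicit false

open Pool.Agent.TH981.LO
open scoped BigOperators symmDiff MeasureTheory

namespace Pool.Agent.TH241.J477

open Pool.Agent.TH241.J481

variable {d : ℕ}

theorem bw_const (x : ℝ) (F ω : Finset (Ed d)) :
    bw (fun _ => x) F ω = x ^ ω.card * (1 - x) ^ (F \ ω).card := by
  simp [bw]

theorem card_srgO_le (s : ℕ) (i : Fin d) (κ : Finset (Vt d)) (ω : Finset (Ed d)) :
    (srgO s i κ ω).card ≤ ω.card + shc s κ := by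
  unfold srgO
  refine (Finset.card_union_le _ _).trans ?_
  have h1 := Finset.card_union_le (ω \ EB d s) (shF (ev i) (ω ∩ EB d s))
  rw [shF_card, Finset.card_sdiff_add_card_inter] at h1
  have h2 : (conE i (spF s κ)).card ≤ shc s κ :=
    (Finset.card_image_le).trans card_spF_le
  omega

open Classical in
theorem card_closed {s : ℕ} (hs : 1 ≤ s) {i : Fin d} {D ω : Finset (Ed d)} {κ : Finset (Vt d)}
    (hD : EB d (s + 1) ⊆ D) :
    ((lat d).tch D (srgK s i κ) \ srgO s i κ ω).card ≤
      ((lat d).tch D κ \ ω).card + 6 * d * shc s κ := by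
  set T := (lat d).tch D κ \ ω with hT
  set W := (srgK s i κ).filter (fun v => s ≤ nm v + 4 ∧ nm v ≤ s + 4) with hW
  have hWc : W.card ≤ 2 * shc s κ := card_shell _ fun v hv => hv
  have h1 : (lat d).tch D (srgK s i κ) \ srgO s i κ ω ⊆
      ((T \ EB d s) ∪ shF (ev i) (T ∩ EB d s)) ∪ TE ((spF s κ).image (fun v => v + ev i)) ∪
        TE W := by
    intro e he
    rw [Finset.mem_sdiff, MG.tch, Finset.mem_filter, lat_s, lat_t] at he
    obtain ⟨⟨heD, htouch⟩, hne⟩ := he
    -- the touched vertex
    obtain ⟨v, hv, hve⟩ : ∃ v ∈ srgK s i κ, v = e.1 ∨ v = e.1 + ev e.2 := by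
      rcases htouch with h | h
      · exact ⟨_, h, Or.inl rfl⟩
      · exact ⟨_, h, Or.inr rfl⟩
    have hn1 := nm_add_ev_le e.1 e.2
    have hn2 := nm_le_add_ev e.1 e.2
    have hTE : ∀ S : Finset (Vt d), v ∈ S → e ∈ TE S := by
      intro S hvS
      rw [mem_TE]
      rcases hve with h | h
      · left; rw [← h]; exact hvS
      · right; rw [← h]; exact hvS
    by_cases he1 : e ∈ EB d (s + 1)
    · by_cases he2 : e ∈ EB d (s - 1)
      · -- well inside
        refine Finset.mem_union_left _ (Finset.mem_union_left _ (Finset.mem_union_right _ ?_))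
        rw [mem_EB] at he2
        have hnv : nm v ≤ s - 1 := by
          rcases hve with h | h <;> rw [h] <;> omega
        rw [mem_srgK] at hv
        have hu : v - ev i ∈ κ := by
          rcases hv with ⟨u, hu, huv⟩ | ⟨_, h4⟩
          · unfold ff at huv
            split_ifs at huv with h5
            · rw [← huv, add_sub_cancel_right]
              exact hu
            · rw [huv] at h5
              omega
          · omega
        have he3 : (e.1 - ev i, e.2) ∈ EB d s := by
          rw [mem_EB]
          simp only
          have h5 := nm_sub_ev_le e.1 i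
          have h6 := nm_sub_ev_le (e.1 + ev e.2) i
          have h7 : e.1 + ev e.2 - ev i = e.1 - ev i + ev e.2 := by abel
          rw [h7] at h6
          omega
        rw [mem_shF, Finset.mem_inter, hT, Finset.mem_sdiff, MG.tch, Finset.mem_filter, lat_s,
          lat_t]
        simp only
        refine ⟨⟨⟨hD (EB_mono (Nat.le_succ s) he3), ?_⟩, ?_⟩, he3⟩
        · rcases hve with h | h
          · left; rw [← h]; exact hu
          · right
            have h7 : e.1 + ev e.2 - ev i = e.1 - ev i + ev e.2 := by abel
            rw [← h7, ← h]; exact hu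
        · intro hω
          apply hne
          unfold srgO
          refine Finset.mem_union_left _ (Finset.mem_union_right _ ?_)
          rw [mem_shF]
          exact Finset.mem_inter.2 ⟨hω, he3⟩
      · -- the middle
        refine Finset.mem_union_right _ (hTE _ ?_)
        rw [hW, Finset.mem_filter]
        refine ⟨hv, ?_⟩
        rw [mem_EB] at he1 he2
        rcases hve with h | h <;> rw [h] <;> omega
    · -- outside
      have he0 : e ∉ EB d s := fun h => he1 (EB_mono (Nat.le_succ s) h)
      have hnv : s + 1 ≤ nm v := by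
        rw [mem_EB] at he1
        rcases hve with h | h <;> rw [h] <;> omega
      rw [mem_srgK] at hv
      rcases hv with ⟨u, hu, huv⟩ | ⟨_, h4⟩
      · unfold ff at huv
        split_ifs at huv with h5
        · refine Finset.mem_union_left _ (Finset.mem_union_right _ (hTE _ ?_))
          rw [Finset.mem_image]
          refine ⟨u, ?_, huv⟩
          rw [spF, Finset.mem_filter]
          refine ⟨hu, ?_⟩
          have := nm_add_ev_le u i
          rw [huv] at this
          omega
        · refine Finset.mem_union_left _ (Finset.mem_union_left _ (Finset.mem_union_left _ ?_))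
          rw [Finset.mem_sdiff, hT, Finset.mem_sdiff, MG.tch, Finset.mem_filter, lat_s, lat_t]
          refine ⟨⟨⟨heD, ?_⟩, ?_⟩, he0⟩
          · rcases hve with h | h
            · left; rw [← h, ← huv]; exact hu
            · right; rw [← h, ← huv]; exact hu
          · intro hω
            apply hne
            unfold srgO
            exact Finset.mem_union_left _ (Finset.mem_union_left _
              (Finset.mem_sdiff.2 ⟨hω, he0⟩))
      · omega
  refine (Finset.card_le_card h1).trans ((Finset.card_union_le _ _).trans ?_)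
  have h2 := Finset.card_union_le ((T \ EB d s) ∪ shF (ev i) (T ∩ EB d s))
    (TE ((spF s κ).image (fun v => v + ev i)))
  have h3 := Finset.card_union_le (T \ EB d s) (shF (ev i) (T ∩ EB d s))
  rw [shF_card, Finset.card_sdiff_add_card_inter] at h3
  have h4 := card_TE_le W
  have h5 := card_TE_le ((spF s κ).image (fun v => v + ev i))
  have h6 : ((spF s κ).image (fun v => v + ev i)).card ≤ shc s κ :=
    Finset.card_image_le.trans card_spF_le
  have h7 : 2 * d * W.card ≤ 2 * d * (2 * shc s κ) := Nat.mul_le_mul_left _ hWc
  have h8 : 2 * d * ((spF s κ).image (fun v => v + ev i)).card ≤ 2 * d * shc s κ :=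
    Nat.mul_le_mul_left _ h6
  have h9 : 2 * d * (2 * shc s κ) + 2 * d * shc s κ = 6 * d * shc s κ := by ring
  omega

theorem sg3 (d : ℕ) (h1 : S_SG1 d) : S_SG3 d := by
  intro x s i D ω U hx0 hx1 hs hD hωD hcon hU
  set κ := (lat d).clF ω U with hκ
  rw [bw_const, bw_const]
  have e1 := card_srgO_le s i κ ω
  have e2 := card_closed (ω := ω) (κ := κ) hs (i := i) hD
  have hd : 1 ≤ d := i.pos
  have hx1' : 0 < 1 - x := by linarith
  have e3 : (x * (1 - x)) ^ (8 * d * shc s κ) ≤ x ^ (shc s κ) * (1 - x) ^ (6 * d * shc s κ) := by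
    rw [mul_pow]
    refine mul_le_mul ?_ ?_ (by positivity) (by positivity)
    · refine pow_le_pow_of_le_one hx0.le hx1.le ?_
      nlinarith
    · refine pow_le_pow_of_le_one hx1'.le (by linarith) ?_
      nlinarith
  calc (x * (1 - x)) ^ (8 * d * shc s κ) *
        (x ^ ω.card * (1 - x) ^ ((lat d).tch D κ \ ω).card)
      ≤ (x ^ (shc s κ) * (1 - x) ^ (6 * d * shc s κ)) *
        (x ^ ω.card * (1 - x) ^ ((lat d).tch D κ \ ω).card) :=
        mul_le_mul_of_nonneg_right e3 (by positivity)
    _ = x ^ (ω.card + shc s κ) * (1 - x) ^ (((lat d).tch D κ \ ω).card + 6 * d * shc s κ) := by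
        rw [pow_add, pow_add]; ring
    _ ≤ _ := by
        refine mul_le_mul (pow_le_pow_of_le_one hx0.le hx1.le e1)
          (pow_le_pow_of_le_one hx1'.le (by linarith) e2) (by positivity) (by positivity)

end Pool.Agent.TH241.J477
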