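import Pool.Agent.TH981.LO.Bas

/-!
# Jobs 481 and 477 (LO-SG5, LO-SG3): multiplicity and weights of the surgery map
-/

set_option autoImplicit false

open Pool.Agent.TH981.LO
open scoped BigOperators symmDiff MeasureTheory

namespace Pool.Agent.TH241.J481

variable {d : ℕ}

theorem nm_add_ev_le (v : Vt d) (i : Fin d) : nm (v + ev i) ≤ nm v + 1 := by
  have := nm_add_le v (ev i)
  rw [nm_ev] at this
  exact this

theorem nm_le_add_ev (v : Vt d) (i : Fin d) : nm v ≤ nm (v + ev i) + 1 := by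
  have := nm_sub_le (v + ev i) (ev i)
  rw [nm_ev, add_sub_cancel_right] at this
  exact this

theorem nm_sub_ev_le (v : Vt d) (i : Fin d) : nm (v - ev i) ≤ nm v + 1 := by
  have := nm_sub_le v (ev i)
  rw [nm_ev] at this
  exact this

/-- the map on the vertices -/
def ff (s : ℕ) (i : Fin d) (v : Vt d) : Vt d := if nm v ≤ s then v + ev i else v

theorem nm_ff (s : ℕ) (i : Fin d) (v : Vt d) : nm (ff s i v) ≤ nm v + 1 ∧
    nm v ≤ nm (ff s i v) + 1 := by
  unfold ff
  split_ifs
  · exact ⟨nm_add_ev_le v i, nm_le_add_ev v i⟩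
  · omega

theorem mem_srgK {s : ℕ} {i : Fin d} {κ : Finset (Vt d)} {v : Vt d} :
    v ∈ srgK s i κ ↔ (∃ u ∈ κ, ff s i u = v) ∨ (v ∈ κ ∧ nm v = s) := by
  simp only [srgK, spF, Finset.mem_union, Finset.mem_image, Finset.mem_filter]
  rfl

theorem card_shell {s : ℕ} {i : Fin d} {κ : Finset (Vt d)} (p : Vt d → Prop) [DecidablePred p]
    (hp : ∀ v, p v → s ≤ nm v + 4 ∧ nm v ≤ s + 4) :
    ((srgK s i κ).filter p).card ≤ 2 * shc s κ := by
  have h1 : (srgK s i κ).filter p ⊆
      (κ.filter (fun v => s ≤ nm v + 5 ∧ nm v ≤ s + 5)).image (ff s i) ∪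
        κ.filter (fun v => s ≤ nm v + 5 ∧ nm v ≤ s + 5) := by
    intro v hv
    rw [Finset.mem_filter, mem_srgK] at hv
    have h2 := hp v hv.2
    rw [Finset.mem_union, Finset.mem_image, Finset.mem_filter]
    rcases hv.1 with ⟨u, hu, rfl⟩ | ⟨h3, h4⟩
    · left
      refine ⟨u, Finset.mem_filter.2 ⟨hu, ?_⟩, rfl⟩
      have := nm_ff s i u
      omega
    · right
      exact ⟨h3, by omega⟩
  refine (Finset.card_le_card h1).trans ((Finset.card_union_le _ _).trans ?_)
  have h3 := Finset.card_image_le (s := κ.filter (fun v => s ≤ nm v + 5 ∧ nm v ≤ s + 5))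
    (f := ff s i)
  unfold shc
  omega

theorem card_spF_le {s : ℕ} {κ : Finset (Vt d)} : (spF s κ).card ≤ shc s κ := by
  unfold spF shc
  refine Finset.card_le_card fun v hv => ?_
  rw [Finset.mem_filter] at hv ⊢
  exact ⟨hv.1, by omega⟩

theorem mem_conE {i : Fin d} {A : Finset (Vt d)} {e : Ed d} :
    e ∈ conE i A ↔ e.1 ∈ A ∧ e.2 = i := by
  simp only [conE, Finset.mem_image]
  constructor
  · rintro ⟨a, ha, rfl⟩
    exact ⟨ha, rfl⟩
  · rintro ⟨h1, h2⟩
    exact ⟨e.1, h1, by rw [← h2]⟩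

theorem fib_bound {α β : Type} [DecidableEq β] (I : Finset α) (J : Finset β) (Φ : α → β)
    (hΦ : ∀ a ∈ I, Φ a ∈ J) (g : β → ℝ) (hg : ∀ b, 0 ≤ g b) (K : ℕ)
    (hK : ∀ b ∈ J, (I.filter (fun a => Φ a = b)).card ≤ K) :
    ∑ a ∈ I, g (Φ a) ≤ K * ∑ b ∈ J, g b := by
  rw [← Finset.sum_fiberwise_of_maps_to hΦ, Finset.mul_sum]
  refine Finset.sum_le_sum fun b hb => ?_
  have h1 : ∑ a ∈ I with Φ a = b, g (Φ a) = ((I.filter (fun a => Φ a = b)).card : ℝ) * g b := by
    rw [← nsmul_eq_mul, ← Finset.sum_const]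
    refine Finset.sum_congr rfl fun a ha => ?_
    rw [(Finset.mem_filter.1 ha).2]
  rw [h1]
  exact mul_le_mul_of_nonneg_right (by exact_mod_cast hK b hb) (hg b)

/-- outside `EB (s + 1)` nothing changes -/
theorem out_iff {s : ℕ} {i : Fin d} {κ : Finset (Vt d)} {ω : Finset (Ed d)} {e : Ed d}
    (he : e ∉ EB d (s + 1)) : e ∈ srgO s i κ ω ↔ e ∈ ω := by
  have h1 : e ∉ EB d s := fun h => he (EB_mono (Nat.le_succ s) h)
  have h2 : e ∉ shF (ev i) (ω ∩ EB d s) := by
    intro h
    rw [mem_shF, Finset.mem_inter, mem_EB] at h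
    apply he
    rw [mem_EB]
    have h3 := nm_add_ev_le (e.1 - ev i) i
    rw [sub_add_cancel] at h3
    have h4 := nm_add_ev_le (e.1 - ev i + ev e.2) i
    have h5 : e.1 - ev i + ev e.2 + ev i = e.1 + ev e.2 := by abel
    rw [h5] at h4
    simp only at h
    omega
  have h3 : e ∉ conE i (spF s κ) := by
    intro h
    rw [mem_conE, spF, Finset.mem_filter] at h
    apply he
    rw [mem_EB]
    have := nm_add_ev_le e.1 e.2
    omega
  simp only [srgO, Finset.mem_union, Finset.mem_sdiff]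
  tauto

theorem out_iffH {s : ℕ} {i : Fin d} {κ : Finset (Vt d)} {ω : Finset (Ed d)} {e : Ed d}
    (he : e ∉ EB d (s + 1)) : e ∈ srgH s i κ ω ↔ e ∈ ω := by
  have h1 : e ∉ EB d s := fun h => he (EB_mono (Nat.le_succ s) h)
  have h2 : e ∉ shF (ev i) (ω ∩ EB d s) := by
    intro h
    rw [mem_shF, Finset.mem_inter, mem_EB] at h
    apply he
    rw [mem_EB]
    have h3 := nm_add_ev_le (e.1 - ev i) i
    rw [sub_add_cancel] at h3
    have h4 := nm_add_ev_le (e.1 - ev i + ev e.2) i
    have h5 : e.1 - ev i + ev e.2 + ev i = e.1 + ev e.2 := by abel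
    rw [h5] at h4
    simp only at h
    omega
  have h3 : e ∉ conE i ((spF s κ).filter (fun a => (lat d).bd (ω ∩ EB d s) a ≠ 0)) := by
    intro h
    rw [mem_conE, Finset.mem_filter, spF, Finset.mem_filter] at h
    apply he
    rw [mem_EB]
    have := nm_add_ev_le e.1 e.2
    omega
  simp only [srgH, Finset.mem_symmDiff, Finset.mem_sdiff]
  tauto

/-- well inside, the configuration is translated -/
theorem in_iff {s : ℕ} (hs : 1 ≤ s) {i : Fin d} {κ : Finset (Vt d)} {ω : Finset (Ed d)} {e : Ed d}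
    (he : shE (ev i) e ∈ EB d (s - 1)) : shE (ev i) e ∈ srgO s i κ ω ↔ e ∈ ω := by
  have hf : shE (ev i) e = (e.1 + ev i, e.2) := rfl
  rw [hf] at he ⊢
  have he' := he
  rw [mem_EB] at he'
  simp only at he'
  have h0 : e ∈ EB d s := by
    rw [mem_EB]
    have h3 := nm_le_add_ev e.1 i
    have h4 := nm_le_add_ev (e.1 + ev e.2) i
    have h5 : e.1 + ev e.2 + ev i = e.1 + ev i + ev e.2 := by abel
    rw [h5] at h4
    omega
  have h1 : (e.1 + ev i, e.2) ∈ EB d s := EB_mono (Nat.sub_le s 1) he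
  have h2 : (e.1 + ev i, e.2) ∈ shF (ev i) (ω ∩ EB d s) ↔ e ∈ ω := by
    rw [mem_shF, Finset.mem_inter]
    simp only [add_sub_cancel_right, Prod.mk.eta]
    tauto
  have h3 : (e.1 + ev i, e.2) ∉ conE i (spF s κ) := by
    intro h
    rw [mem_conE, spF, Finset.mem_filter] at h
    simp only at h
    omega
  simp only [srgO, Finset.mem_union, Finset.mem_sdiff]
  tauto

theorem in_iffH {s : ℕ} (hs : 1 ≤ s) {i : Fin d} {κ : Finset (Vt d)} {ω : Finset (Ed d)} {e : Ed d}
    (he : shE (ev i) e ∈ EB d (s - 1)) : shE (ev i) e ∈ srgH s i κ ω ↔ e ∈ ω := by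
  have hf : shE (ev i) e = (e.1 + ev i, e.2) := rfl
  rw [hf] at he ⊢
  have he' := he
  rw [mem_EB] at he'
  simp only at he'
  have h0 : e ∈ EB d s := by
    rw [mem_EB]
    have h3 := nm_le_add_ev e.1 i
    have h4 := nm_le_add_ev (e.1 + ev e.2) i
    have h5 : e.1 + ev e.2 + ev i = e.1 + ev i + ev e.2 := by abel
    rw [h5] at h4
    omega
  have h1 : (e.1 + ev i, e.2) ∈ EB d s := EB_mono (Nat.sub_le s 1) he
  have h2 : (e.1 + ev i, e.2) ∈ shF (ev i) (ω ∩ EB d s) ↔ e ∈ ω := by
    rw [mem_shF, Finset.mem_inter]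
    simp only [add_sub_cancel_right, Prod.mk.eta]
    tauto
  have h3 : (e.1 + ev i, e.2) ∉
      conE i ((spF s κ).filter (fun a => (lat d).bd (ω ∩ EB d s) a ≠ 0)) := by
    intro h
    rw [mem_conE, Finset.mem_filter, spF, Finset.mem_filter] at h
    simp only at h
    omega
  simp only [srgH, Finset.mem_symmDiff, Finset.mem_sdiff]
  tauto

open Classical in
/-- the undetermined edges -/
noncomputable def YY (s : ℕ) (i : Fin d) (κ' : Finset (Vt d)) : Finset (Ed d) :=
  (EB d (s + 1)).filter (fun e => shE (ev i) e ∉ EB d (s - 1) ∧ (e.1 ∈ κ' ∨ e.1 + ev i ∈ κ'))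

theorem card_YY {s : ℕ} (hs : 1 ≤ s) {i : Fin d} {κ : Finset (Vt d)} :
    (YY s i (srgK s i κ)).card ≤ 4 * d * shc s κ := by
  classical
  set W := (srgK s i κ).filter (fun v => s ≤ nm v + 4 ∧ nm v ≤ s + 4) with hW
  have hWc : W.card ≤ 2 * shc s κ := card_shell _ fun v hv => hv
  have h1 : YY s i (srgK s i κ) ⊆
      (W ∪ W.image (fun v => v - ev i)) ×ˢ (Finset.univ : Finset (Fin d)) := by
    intro e he
    rw [YY, Finset.mem_filter, mem_EB] at he
    obtain ⟨⟨h2, h3⟩, h4, h5⟩ := he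
    have hf : shE (ev i) e = (e.1 + ev i, e.2) := rfl
    rw [hf, mem_EB] at h4
    simp only at h4
    have h6 := nm_add_ev_le e.1 i
    have h7 := nm_add_ev_le (e.1 + ev i) e.2
    have h8 := nm_le_add_ev e.1 i
    rw [Finset.mem_product, Finset.mem_union, Finset.mem_image]
    refine ⟨?_, Finset.mem_univ _⟩
    rcases h5 with h5 | h5
    · left
      rw [hW, Finset.mem_filter]
      exact ⟨h5, by omega⟩
    · right
      refine ⟨e.1 + ev i, ?_, by abel⟩
      rw [hW, Finset.mem_filter]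
      exact ⟨h5, by omega⟩
  refine (Finset.card_le_card h1).trans ?_
  rw [Finset.card_product, Finset.card_univ, Fintype.card_fin]
  have h2 := Finset.card_union_le W (W.image (fun v => v - ev i))
  have h3 := Finset.card_image_le (s := W) (f := fun v => v - ev i)
  have h4 : (W ∪ W.image (fun v => v - ev i)).card ≤ 4 * shc s κ := by omega
  calc (W ∪ W.image (fun v => v - ev i)).card * d ≤ (4 * shc s κ) * d := Nat.mul_le_mul_right _ h4
    _ = 4 * d * shc s κ := by ring

theorem sub_YY {s : ℕ} {i : Fin d} {ω : Finset (Ed d)} {U : Finset (Vt d)}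
    (hcon : (lat d).con ω U) {e : Ed d} (he : e ∈ ω) (h1 : e ∈ EB d (s + 1))
    (h2 : shE (ev i) e ∉ EB d (s - 1)) : e ∈ YY s i (srgK s i ((lat d).clF ω U)) := by
  have h3 : e.1 ∈ (lat d).clF ω U := hcon e he
  rw [YY, Finset.mem_filter]
  refine ⟨h1, h2, ?_⟩
  have h4 : ff s i e.1 ∈ srgK s i ((lat d).clF ω U) := mem_srgK.2 (Or.inl ⟨e.1, h3, rfl⟩)
  unfold ff at h4
  split_ifs at h4
  · exact Or.inr h4
  · exact Or.inl h4

open Classical in
theorem sg5 (d : ℕ) (h1 : S_SG1 d) (h2 : S_SG2 d) : S_SG5 d := by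
  intro s N i D U g hs hD hU hg
  rw [Finset.sum_sigma', Finset.sum_sigma']
  set I := (D.powerset.filter fun ω => (lat d).con ω U ∧ shc s ((lat d).clF ω U) ≤ N).sigma
    fun ω => ω.powerset.filter fun η => (lat d).bd η = ind U with hI
  set J := (D.powerset.filter fun ω => (lat d).con ω U).sigma
    fun ω => ω.powerset.filter fun η => (lat d).bd η = ind U with hJ
  have hmem : ∀ a ∈ I, a.1 ⊆ D ∧ (lat d).con a.1 U ∧ shc s ((lat d).clF a.1 U) ≤ N ∧ a.2 ⊆ a.1 ∧
      (lat d).bd a.2 = ind U := by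
    intro a ha
    rw [hI, Finset.mem_sigma, Finset.mem_filter, Finset.mem_filter, Finset.mem_powerset,
      Finset.mem_powerset] at ha
    exact ⟨ha.1.1, ha.1.2.1, ha.1.2.2, ha.2.1, ha.2.2⟩
  have key := fib_bound I J (fun a : (_ : Finset (Ed d)) × Finset (Ed d) =>
    ⟨srgO s i ((lat d).clF a.1 U) a.1, srgH s i ((lat d).clF a.1 U) a.2⟩) ?_
    (fun b => g b.1 b.2) (fun b => hg _ _) (4 ^ (4 * d * N)) ?_
  · push_cast at key
    exact key
  · intro a ha
    obtain ⟨g1, g2, g3, g4, g5⟩ := hmem a ha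
    have e1 := h1 s i D a.1 U hs hD g1 g2 hU
    have e2 := h2 s i a.1 a.2 U hs g2 hU g4 g5
    rw [hJ, Finset.mem_sigma, Finset.mem_filter, Finset.mem_filter, Finset.mem_powerset,
      Finset.mem_powerset]
    exact ⟨⟨e1.1, e1.2.1⟩, e2.1, e2.2⟩
  · intro b hb
    rcases (I.filter fun a : (_ : Finset (Ed d)) × Finset (Ed d) =>
      (⟨srgO s i ((lat d).clF a.1 U) a.1, srgH s i ((lat d).clF a.1 U) a.2⟩ :
        (_ : Finset (Ed d)) × Finset (Ed d)) = b).eq_empty_or_nonempty with hemp | ⟨a₀, ha₀⟩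
    · rw [hemp]
      simp
    · set Y := YY s i ((lat d).clF b.1 U) with hY
      have hfib : ∀ a ∈ I.filter fun a : (_ : Finset (Ed d)) × Finset (Ed d) =>
          (⟨srgO s i ((lat d).clF a.1 U) a.1, srgH s i ((lat d).clF a.1 U) a.2⟩ :
          (_ : Finset (Ed d)) × Finset (Ed d)) = b, a ∈ I ∧
          srgO s i ((lat d).clF a.1 U) a.1 = b.1 ∧ srgH s i ((lat d).clF a.1 U) a.2 = b.2 ∧
          (lat d).clF b.1 U = srgK s i ((lat d).clF a.1 U) := by
        intro a ha
        obtain ⟨haI, hab⟩ := Finset.mem_filter.1 ha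
        obtain ⟨g1, g2, g3, g4, g5⟩ := hmem a haI
        have e1 := h1 s i D a.1 U hs hD g1 g2 hU
        subst hab
        exact ⟨haI, rfl, rfl, e1.2.2⟩
      have hYc : Y.card ≤ 4 * d * N := by
        obtain ⟨haI, -, -, h3⟩ := hfib a₀ ha₀
        rw [hY, h3]
        refine (card_YY hs).trans (Nat.mul_le_mul_left _ (hmem a₀ haI).2.2.1)
      have hcard : (Y.powerset ×ˢ Y.powerset).card ≤ 4 ^ (4 * d * N) := by
        rw [Finset.card_product, Finset.card_powerset, ← mul_pow]
        exact Nat.pow_le_pow_right (by norm_num) hYc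
      refine le_trans (Finset.card_le_card_of_injOn (fun a => (a.1 ∩ Y, a.2 ∩ Y)) ?_ ?_) hcard
      · intro a _
        rw [Finset.mem_coe, Finset.mem_product, Finset.mem_powerset, Finset.mem_powerset]
        exact ⟨Finset.inter_subset_right, Finset.inter_subset_right⟩
      · intro a ha a' ha' haa
        obtain ⟨haI, p1, p2, p3⟩ := hfib a ha
        obtain ⟨haI', p1', p2', p3'⟩ := hfib a' ha'
        obtain ⟨g1, g2, g3, g4, g5⟩ := hmem a haI
        obtain ⟨g1', g2', g3', g4', g5'⟩ := hmem a' haI'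
        obtain ⟨q1, q2⟩ := Prod.ext_iff.1 haa
        simp only at q1 q2
        have r1 : a.1 = a'.1 := by
          ext e
          by_cases he1 : e ∈ EB d (s + 1)
          · by_cases he2 : shE (ev i) e ∈ EB d (s - 1)
            · rw [← in_iff hs he2 (κ := (lat d).clF a.1 U), p1,
                ← in_iff hs he2 (κ := (lat d).clF a'.1 U) (ω := a'.1), p1']
            · constructor
              · intro he
                have h3 : e ∈ Y := by rw [hY, p3]; exact sub_YY g2 he he1 he2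
                have h4 : e ∈ a.1 ∩ Y := Finset.mem_inter.2 ⟨he, h3⟩
                rw [q1] at h4
                exact (Finset.mem_inter.1 h4).1
              · intro he
                have h3 : e ∈ Y := by rw [hY, p3']; exact sub_YY g2' he he1 he2
                have h4 : e ∈ a'.1 ∩ Y := Finset.mem_inter.2 ⟨he, h3⟩
                rw [← q1] at h4
                exact (Finset.mem_inter.1 h4).1
          · rw [← out_iff he1 (i := i) (κ := (lat d).clF a.1 U), p1,
              ← out_iff he1 (i := i) (κ := (lat d).clF a'.1 U) (ω := a'.1), p1']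
        have r2 : a.2 = a'.2 := by
          ext e
          by_cases he1 : e ∈ EB d (s + 1)
          · by_cases he2 : shE (ev i) e ∈ EB d (s - 1)
            · rw [← in_iffH hs he2 (κ := (lat d).clF a.1 U), p2,
                ← in_iffH hs he2 (κ := (lat d).clF a'.1 U) (ω := a'.2), p2']
            · constructor
              · intro he
                have h3 : e ∈ Y := by rw [hY, p3]; exact sub_YY g2 (g4 he) he1 he2
                have h4 : e ∈ a.2 ∩ Y := Finset.mem_inter.2 ⟨he, h3⟩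
                rw [q2] at h4
                exact (Finset.mem_inter.1 h4).1
              · intro he
                have h3 : e ∈ Y := by rw [hY, p3']; exact sub_YY g2' (g4' he) he1 he2
                have h4 : e ∈ a'.2 ∩ Y := Finset.mem_inter.2 ⟨he, h3⟩
                rw [← q2] at h4
                exact (Finset.mem_inter.1 h4).1
          · rw [← out_iffH he1 (i := i) (κ := (lat d).clF a.1 U), p2,
              ← out_iffH he1 (i := i) (κ := (lat d).clF a'.1 U) (ω := a'.2), p2']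
        exact Sigma.ext r1 (heq_of_eq r2)

end Pool.Agent.TH241.J481
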