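import Pool.Agent.TH981.LO.Bas

/-!
# Job 485 (LO-SURG): surgery estimate at a fixed radius
-/

set_option autoImplicit false

open Pool.Agent.TH981.LO
open scoped BigOperators symmDiff MeasureTheory

namespace Pool.Agent.TH241.J485

theorem ms_ge {d : ℕ} {q : ℝ} (hq0 : 0 < q) (hq1 : q < 1) (s : ℕ) (κ : Finset (Vt d)) :
    q ^ 5 * (shc s κ : ℝ) ≤ ms q s κ := by
  unfold shc ms
  rw [mul_comm, ← nsmul_eq_mul, ← Finset.sum_const]
  refine (Finset.sum_le_sum (f := fun _ => q ^ 5)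
    (g := fun v => q ^ (((nm v : ℤ) - (s : ℤ)).natAbs)) fun v hv => ?_).trans
    (Finset.sum_le_sum_of_subset_of_nonneg (Finset.filter_subset _ _) fun v _ _ => by positivity)
  have h := (Finset.mem_filter.1 hv).2
  exact pow_le_pow_of_le_one hq0.le hq1.le (by omega)

theorem ms_nonneg {d : ℕ} {q : ℝ} (hq0 : 0 < q) (s : ℕ) (κ : Finset (Vt d)) : 0 ≤ ms q s κ := by
  unfold ms
  exact Finset.sum_nonneg fun v _ => by positivity

open Classical in
theorem surg (d : ℕ) (x : ℝ) (hx0 : 0 < x) (hx1 : x < 1) (h0 : S_MARKL) (h1 : S_SG1 d)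
    (h2 : S_SG2 d) (h3 : S_SG3 d) (h4 : S_SG4 d x) (h5 : S_SG5 d) (h6 : S_SG6 d) (h7 : S_SG7 d)
    (hl : S_LOC d x) : S_SURG d x := by
  obtain ⟨q, hq0, hq1, C4, hC4, h4⟩ := h4
  obtain ⟨c, hc, hl⟩ := hl
  have hxx0 : 0 < x * (1 - x) := mul_pos hx0 (by linarith)
  have hxx1 : x * (1 - x) ≤ 1 := by nlinarith
  let M : ℕ := ⌈(q ^ 5)⁻¹⌉₊
  let C₁ : ℝ := ((x * (1 - x))⁻¹) ^ (8 * d * M) * Real.exp C4 * 4 ^ (4 * d * M)
  have hinv : 1 ≤ (x * (1 - x))⁻¹ := (one_le_inv₀ hxx0).2 hxx1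
  have hC₁ : 1 ≤ C₁ := by
    have e1 : 1 ≤ ((x * (1 - x))⁻¹) ^ (8 * d * M) := one_le_pow₀ hinv
    have e2 : 1 ≤ Real.exp C4 := Real.one_le_exp hC4
    have e3 : (1:ℝ) ≤ 4 ^ (4 * d * M) := one_le_pow₀ (by norm_num)
    exact one_le_mul_of_one_le_of_one_le (one_le_mul_of_one_le_of_one_le e1 e2) e3
  refine ⟨q, hq0, hq1, C₁, hC₁, c, hc, fun m => ?_⟩
  obtain ⟨Cl, hCl, hl⟩ := hl m
  refine ⟨Cl * Real.exp c, by positivity, ?_⟩
  intro s K' i D U P hms hD hU hP
  have hs : 1 ≤ s := by omega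
  set w : Ed d → ℝ := fun _ => x with hw
  have hw0 : ∀ F : Finset (Ed d), ∀ e ∈ F, 0 ≤ w e := fun F e _ => hx0.le
  have hbw : ∀ F ω : Finset (Ed d), 0 ≤ bw w F ω := by
    intro F ω
    unfold bw
    refine mul_nonneg (Finset.prod_nonneg fun e _ => hx0.le) (Finset.prod_nonneg fun e _ => ?_)
    simp only [hw]
    linarith
  set z := (ev i : Vt d) with hz
  -- the function `G`
  let ε : ℝ := Cl * Real.exp (-c * ((s - 1 : ℕ) : ℝ))
  have hε : 0 ≤ ε := by positivity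
  let H : Finset (Vt d) → Finset (Ed d) → ℝ := fun κ η =>
    LL d x ((lat d).off D κ) 0 (fun ξ => if P (η ∪ ξ) then 1 else 0) +
      ε * ZZ d x ((lat d).off D κ) 0
  let Gf : Finset (Ed d) → Finset (Ed d) → ℝ := fun ω η =>
    bw w ((lat d).tch D ((lat d).clF ω U)) ω * H ((lat d).clF ω U) η
  have hH : ∀ κ η, 0 ≤ H κ η := by
    intro κ η
    refine add_nonneg (MG.L_nonneg _ _ (hw0 _) fun ξ _ => ?_)
      (mul_nonneg hε (MG.Z_nonneg _ _ (hw0 _)))
    split_ifs <;> norm_num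
  have hGf : ∀ ω η, 0 ≤ Gf ω η := fun ω η => mul_nonneg (hbw _ _) (hH _ _)
  -- the left side by the Markov property
  have hL := h0 (lat d) w D U (fun κ => if ms q s κ ≤ K' then 1 else 0)
    (fun η => if P (shF z η) then 1 else 0)
  have hL' : (lat d).PS w D (ind U) (fun ω η =>
      if ms q s ((lat d).clF ω U) ≤ K' ∧ P (shF z η) then 1 else 0) =
      (lat d).PS w D (ind U) (fun ω η => (if ms q s ((lat d).clF ω U) ≤ K' then 1 else 0) *
        (if P (shF z η) then 1 else 0)) := by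
    congr 1
    funext ω η
    by_cases a : ms q s ((lat d).clF ω U) ≤ K' <;> by_cases b : P (shF z η) <;> simp [a, b]
  rw [hL', hL]
  -- the right side by the Markov property
  have hR : ∑ ω ∈ D.powerset with (lat d).con ω U,
      ∑ η ∈ ω.powerset with (lat d).bd η = ind U, Gf ω η =
      LL d x D (ind U) (fun η => if P η then 1 else 0) + ε * ZZ d x D (ind U) := by
    have e1 := h0 (lat d) w D U (fun _ => 1) (fun η => if P η then 1 else 0)
    have e2 := h0 (lat d) w D U (fun _ => 1) (fun _ => 1)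
    simp only [one_mul, mul_one] at e1 e2
    rw [MG.PS_eta] at e1 e2
    have e1' : LL d x D (ind U) (fun η => if P η then 1 else 0) = _ := e1
    have e2' : ZZ d x D (ind U) = _ := e2
    rw [e1', e2', Finset.mul_sum, ← Finset.sum_add_distrib]
    refine Finset.sum_congr rfl fun ω _ => ?_
    rw [mul_left_comm, ← mul_add, Finset.mul_sum, ← Finset.sum_add_distrib,
      Finset.mul_sum]
    refine Finset.sum_congr rfl fun η _ => rfl
  have hLoc : ∀ η₀ : Finset (Ed d), LocS (EB d m) (fun ξ => if P (η₀ ∪ ξ) then (1:ℝ) else 0) := by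
    intro η₀ ξ
    have e1 : P (η₀ ∪ ξ) = P (η₀ ∪ ξ ∩ EB d m) := by
      rw [hP (η₀ ∪ ξ), hP (η₀ ∪ ξ ∩ EB d m)]
      congr 1
      ext e
      simp only [Finset.mem_inter, Finset.mem_union]
      tauto
    simp only [e1]
  -- the comparison of the inner terms
  have key : ∀ ω₁ ∈ D.powerset, (lat d).con ω₁ U → ms q s ((lat d).clF ω₁ U) ≤ K' →
      ∀ η₁ : Finset (Ed d),
      (lat d).L w ((lat d).off D ((lat d).clF ω₁ U)) 0
        (fun η₂ => if P (shF z (η₁ ∪ η₂)) then 1 else 0) ≤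
      Real.exp (C4 * K') * H (srgK s i ((lat d).clF ω₁ U))
        (srgH s i ((lat d).clF ω₁ U) η₁) := by
    intro ω₁ _ _ hmsK η₁
    set κ := (lat d).clF ω₁ U with hκ
    have e1 : (lat d).L w ((lat d).off D κ) 0 (fun η₂ => if P (shF z (η₁ ∪ η₂)) then 1 else 0) =
        LL d x (shF z ((lat d).off D κ)) 0
          (fun ξ => if P (srgH s i κ η₁ ∪ ξ) then 1 else 0) := by
      have e2 := LL_shF x z ((lat d).off D κ) 0
        (fun ξ => if P (srgH s i κ η₁ ∪ ξ) then 1 else 0)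
      have e3 : (fun v : Vt d => (0 : Vt d → ZMod 2) (v - z)) = 0 := rfl
      rw [e3] at e2
      rw [e2]
      refine MG.L_congr _ _ (fun _ _ => rfl) fun η₂ _ _ => ?_
      have e4 : P (shF z (η₁ ∪ η₂)) = P (srgH s i κ η₁ ∪ shF z η₂) := by
        rw [hP (shF z (η₁ ∪ η₂)), hP (srgH s i κ η₁ ∪ shF z η₂), h6 s m i κ η₁ η₂ hms]
      simp only [e4]
    have e5 : ZZ d x (shF z ((lat d).off D κ)) 0 = ZZ d x ((lat d).off D κ) 0 := by
      have e2 := LL_shF x z ((lat d).off D κ) 0 (fun _ => 1)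
      exact e2
    have hZ1 : 1 ≤ ZZ d x (shF z ((lat d).off D κ)) 0 := MG.one_le_Z_zero _ (hw0 _)
    have hZ2 : 1 ≤ ZZ d x ((lat d).off D (srgK s i κ)) 0 := MG.one_le_Z_zero _ (hw0 _)
    set g' : Finset (Ed d) → ℝ := fun ξ => if P (srgH s i κ η₁ ∪ ξ) then 1 else 0 with hg'
    have e6 := hl (shF z ((lat d).off D κ)) ((lat d).off D (srgK s i κ)) (s - 1) g'
      (fun η => by simp only [hg']; split_ifs <;> norm_num) (hLoc _)
      (h7 s i D κ hs hD)
    have e7 : EE d x (shF z ((lat d).off D κ)) 0 g' ≤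
        EE d x ((lat d).off D (srgK s i κ)) 0 g' + ε := by
      have := (abs_le.1 e6).2
      linarith
    have e8 : LL d x (shF z ((lat d).off D κ)) 0 g' =
        ZZ d x (shF z ((lat d).off D κ)) 0 * EE d x (shF z ((lat d).off D κ)) 0 g' := by
      show _ = (lat d).Z _ _ _ * ((lat d).L _ _ _ _ / (lat d).Z _ _ _)
      rw [mul_div_cancel₀]
      exact (lt_of_lt_of_le zero_lt_one hZ1).ne'
    have e9 : LL d x ((lat d).off D (srgK s i κ)) 0 g' =
        ZZ d x ((lat d).off D (srgK s i κ)) 0 * EE d x ((lat d).off D (srgK s i κ)) 0 g' := by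
      show _ = (lat d).Z _ _ _ * ((lat d).L _ _ _ _ / (lat d).Z _ _ _)
      rw [mul_div_cancel₀]
      exact (lt_of_lt_of_le zero_lt_one hZ2).ne'
    have hEE0 : 0 ≤ EE d x ((lat d).off D (srgK s i κ)) 0 g' := by
      refine div_nonneg (MG.L_nonneg _ _ (hw0 _) fun ξ _ => ?_) (MG.Z_nonneg _ _ (hw0 _))
      simp only [hg']
      split_ifs <;> norm_num
    have e10 := h4 s i D κ hs hD
    have e11 : Real.exp (C4 * ms q s κ) ≤ Real.exp (C4 * K') :=
      Real.exp_le_exp.2 (mul_le_mul_of_nonneg_left hmsK hC4)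
    rw [e1, e8, e5]
    calc ZZ d x ((lat d).off D κ) 0 * EE d x (shF z ((lat d).off D κ)) 0 g'
        ≤ ZZ d x ((lat d).off D κ) 0 * (EE d x ((lat d).off D (srgK s i κ)) 0 g' + ε) :=
          mul_le_mul_of_nonneg_left e7 (MG.Z_nonneg _ _ (hw0 _))
      _ ≤ (Real.exp (C4 * ms q s κ) * ZZ d x ((lat d).off D (srgK s i κ)) 0) *
          (EE d x ((lat d).off D (srgK s i κ)) 0 g' + ε) :=
          mul_le_mul_of_nonneg_right e10 (add_nonneg hEE0 hε)
      _ ≤ (Real.exp (C4 * K') * ZZ d x ((lat d).off D (srgK s i κ)) 0) *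
          (EE d x ((lat d).off D (srgK s i κ)) 0 g' + ε) :=
          mul_le_mul_of_nonneg_right (mul_le_mul_of_nonneg_right e11
            (MG.Z_nonneg _ _ (hw0 _))) (add_nonneg hEE0 hε)
      _ = Real.exp (C4 * K') * H (srgK s i κ) (srgH s i κ η₁) := by
          show _ = Real.exp (C4 * K') * (LL d x ((lat d).off D (srgK s i κ)) 0 g' +
            ε * ZZ d x ((lat d).off D (srgK s i κ)) 0)
          rw [e9]
          ring
  -- the number of vertices near the sphere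
  have hshc : ∀ κ : Finset (Vt d), ms q s κ ≤ K' → shc s κ ≤ M * K' := by
    intro κ hκ
    have e1 := (ms_ge hq0 hq1 s κ).trans hκ
    have hq5 : (0:ℝ) < q ^ 5 := by positivity
    have e2 : (shc s κ : ℝ) ≤ (q ^ 5)⁻¹ * K' := by
      rw [inv_mul_eq_div, le_div_iff₀ hq5]
      linarith
    have e3 : (q ^ 5)⁻¹ ≤ (M : ℝ) := Nat.le_ceil _
    have e4 : (shc s κ : ℝ) ≤ (M : ℝ) * K' :=
      e2.trans (mul_le_mul_of_nonneg_right e3 (Nat.cast_nonneg _))
    exact_mod_cast e4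
  -- comparison of all terms
  let Kc : ℝ := ((x * (1 - x))⁻¹) ^ (8 * d * (M * K')) * Real.exp (C4 * K')
  have hKc : 0 ≤ Kc := by positivity
  have hterm : ∀ ω₁ ∈ D.powerset, (lat d).con ω₁ U → ms q s ((lat d).clF ω₁ U) ≤ K' →
      ∀ η₁ : Finset (Ed d), 
      bw w ((lat d).tch D ((lat d).clF ω₁ U)) ω₁ *
        (lat d).L w ((lat d).off D ((lat d).clF ω₁ U)) 0
          (fun η₂ => if P (shF z (η₁ ∪ η₂)) then 1 else 0) ≤
      Kc * Gf (srgO s i ((lat d).clF ω₁ U) ω₁) (srgH s i ((lat d).clF ω₁ U) η₁) := by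
    intro ω₁ hω₁ hcon hmsK η₁
    have hωD := Finset.mem_powerset.1 hω₁
    have e1 := (h1 s i D ω₁ U hs hD hωD hcon hU).2.2
    have e2 := key ω₁ hω₁ hcon hmsK η₁
    have e3 := h3 x s i D ω₁ U hx0 hx1 hs hD hωD hcon hU
    have e4 := hshc _ hmsK
    have e5 : bw w ((lat d).tch D ((lat d).clF ω₁ U)) ω₁ ≤
        ((x * (1 - x))⁻¹) ^ (8 * d * (M * K')) *
          bw w ((lat d).tch D (srgK s i ((lat d).clF ω₁ U)))
            (srgO s i ((lat d).clF ω₁ U) ω₁) := by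
      have e6 : (x * (1 - x)) ^ (8 * d * (M * K')) * bw w ((lat d).tch D ((lat d).clF ω₁ U)) ω₁ ≤
          bw w ((lat d).tch D (srgK s i ((lat d).clF ω₁ U)))
            (srgO s i ((lat d).clF ω₁ U) ω₁) := by
        refine le_trans (mul_le_mul_of_nonneg_right ?_ (hbw _ _)) e3
        exact pow_le_pow_of_le_one hxx0.le hxx1 (Nat.mul_le_mul_left _ e4)
      rw [inv_pow, inv_mul_eq_div, le_div_iff₀ (by positivity), mul_comm]
      exact e6
    show _ ≤ Kc * (bw w ((lat d).tch D ((lat d).clF (srgO s i ((lat d).clF ω₁ U) ω₁) U))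
      (srgO s i ((lat d).clF ω₁ U) ω₁) * H ((lat d).clF (srgO s i ((lat d).clF ω₁ U) ω₁) U)
        (srgH s i ((lat d).clF ω₁ U) η₁))
    rw [e1]
    have hL0 : 0 ≤ (lat d).L w ((lat d).off D ((lat d).clF ω₁ U)) 0
          (fun η₂ => if P (shF z (η₁ ∪ η₂)) then 1 else 0) := by
      refine MG.L_nonneg _ _ (hw0 _) fun ξ _ => ?_
      split_ifs <;> norm_num
    refine (mul_le_mul e5 e2 hL0 (mul_nonneg (by positivity) (hbw _ _))).trans (le_of_eq ?_)
    show _ = ((x * (1 - x))⁻¹) ^ (8 * d * (M * K')) * Real.exp (C4 * K') * _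
    ring
  have hsum : ∑ ω₁ ∈ D.powerset with (lat d).con ω₁ U,
      bw w ((lat d).tch D ((lat d).clF ω₁ U)) ω₁ *
        (if ms q s ((lat d).clF ω₁ U) ≤ K' then 1 else 0) *
        ∑ η₁ ∈ ω₁.powerset with (lat d).bd η₁ = ind U,
          (lat d).L w ((lat d).off D ((lat d).clF ω₁ U)) 0
            (fun η₂ => if P (shF z (η₁ ∪ η₂)) then 1 else 0) ≤
      Kc * ∑ ω ∈ D.powerset with ((lat d).con ω U ∧ shc s ((lat d).clF ω U) ≤ M * K'),
        ∑ η ∈ ω.powerset with (lat d).bd η = ind U,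
          Gf (srgO s i ((lat d).clF ω U) ω) (srgH s i ((lat d).clF ω U) η) := by
    rw [Finset.mul_sum]
    have hsub : (D.powerset.filter fun ω => (lat d).con ω U ∧ ms q s ((lat d).clF ω U) ≤ K') ⊆
        D.powerset.filter fun ω => (lat d).con ω U ∧ shc s ((lat d).clF ω U) ≤ M * K' := by
      intro ω hω
      rw [Finset.mem_filter] at hω ⊢
      exact ⟨hω.1, hω.2.1, hshc _ hω.2.2⟩
    refine le_trans (le_of_eq ?_) ((Finset.sum_le_sum (s := D.powerset.filter fun ω =>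
      (lat d).con ω U ∧ ms q s ((lat d).clF ω U) ≤ K')
      (f := fun ω₁ => bw w ((lat d).tch D ((lat d).clF ω₁ U)) ω₁ *
        ∑ η₁ ∈ ω₁.powerset with (lat d).bd η₁ = ind U,
          (lat d).L w ((lat d).off D ((lat d).clF ω₁ U)) 0
            (fun η₂ => if P (shF z (η₁ ∪ η₂)) then 1 else 0)) ?_).trans
      (Finset.sum_le_sum_of_subset_of_nonneg hsub ?_))
    · rw [← Finset.filter_filter, Finset.sum_filter (p := fun ω => ms q s ((lat d).clF ω U) ≤ K')]
      refine Finset.sum_congr rfl fun ω _ => ?_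
      split_ifs <;> ring
    · intro ω hω
      rw [Finset.mem_filter] at hω
      rw [Finset.mul_sum, Finset.mul_sum]
      exact Finset.sum_le_sum fun η _ => hterm ω hω.1 hω.2.1 hω.2.2 η
    · intro ω _ _
      exact mul_nonneg hKc (Finset.sum_nonneg fun η _ => hGf _ _)
  have h5' := h5 s (M * K') i D U Gf hs hD hU hGf
  refine (hsum.trans (mul_le_mul_of_nonneg_left h5' hKc)).trans (le_of_eq ?_)
  rw [hR]
  have eε : ε = Cl * Real.exp c * Real.exp (-c * s) := by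
    show Cl * Real.exp (-c * ((s - 1 : ℕ) : ℝ)) = _
    rw [mul_assoc, ← Real.exp_add]
    congr 2
    rw [Nat.cast_sub hs]
    push_cast
    ring
  have eC : Kc * 4 ^ (4 * d * (M * K')) = C₁ ^ K' := by
    show ((x * (1 - x))⁻¹) ^ (8 * d * (M * K')) * Real.exp (C4 * K') * 4 ^ (4 * d * (M * K')) =
      (((x * (1 - x))⁻¹) ^ (8 * d * M) * Real.exp C4 * 4 ^ (4 * d * M)) ^ K'
    rw [mul_pow, mul_pow, ← pow_mul, ← pow_mul, ← Real.exp_nat_mul,
      show 8 * d * (M * K') = 8 * d * M * K' by ring, show 4 * d * (M * K') = 4 * d * M * K' by ring,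
      mul_comm C4]
  rw [← mul_assoc, eC, eε]

end Pool.Agent.TH241.J485
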