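import Pool.Agent.TH477.PA.Defs
import Pool.Agent.TH477.RB.Cont1

/-!
# Job 651 (PA-STRUCTURE): regularity structure of a good colouring
-/

set_option autoImplicit false

namespace Pool.Agent.TH241.J651

open Finset Pool.Agent.TH477.PA Pool.Agent.TH477.RB

/-- indicator of the pairs of colour `a` -/
noncomputable def krn {n r : ℕ} (G : SimpleGraph (Fin n)) (ψ : Sym2 (Fin n) → Fin r) (a : Fin r)
    (x y : Fin n) : ℝ := ind (G.Adj x y ∧ ψ s(x, y) = a)

theorem krn_bounds {n r : ℕ} (G : SimpleGraph (Fin n)) (ψ : Sym2 (Fin n) → Fin r) (a : Fin r)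
    (x y : Fin n) : 0 ≤ krn G ψ a x y ∧ krn G ψ a x y ≤ 1 := ⟨ind_nonneg _, ind_le_one _⟩

theorem krn_symm {n r : ℕ} (G : SimpleGraph (Fin n)) (ψ : Sym2 (Fin n) → Fin r) (a : Fin r)
    (x y : Fin n) : krn G ψ a x y = krn G ψ a y x := by
  unfold krn
  rw [G.adj_comm, Sym2.eq_swap]

/-- the product over the pairs vanishes for patterns with many colours -/
theorem prod_zero {n r k s : ℕ} (G : SimpleGraph (Fin n)) (ψ : Sym2 (Fin n) → Fin r)
    (hG : Good k s G Set.univ ψ) (col : Fin k → Fin k → Fin r)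
    (hcol : s ≤ ((univ.filter (fun p : Fin k × Fin k => p.1 < p.2)).image
      (fun p => col p.1 p.2)).card) (x : Fin k → Fin n) :
    ∏ p ∈ univ.filter (fun p : Fin k × Fin k => p.1 < p.2),
      krn G ψ (col p.1 p.2) (x p.1) (x p.2) = 0 := by
  classical
  by_contra hne
  have hne := Finset.prod_ne_zero_iff.mp hne
  have hadj : ∀ i j, i < j → G.Adj (x i) (x j) ∧ ψ s(x i, x j) = col i j := by
    intro i j hij
    have h1 := hne (i, j) (Finset.mem_filter.mpr ⟨Finset.mem_univ _, hij⟩)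
    unfold krn at h1
    by_contra h2
    exact h1 (ind_neg h2)
  have hinj : Function.Injective x := by
    intro i j hij
    by_contra hne2
    rcases lt_or_gt_of_ne hne2 with h | h
    · have h1 := (hadj i j h).1
      rw [hij] at h1
      exact G.irrefl h1
    · have h1 := (hadj j i h).1
      rw [hij] at h1
      exact G.irrefl h1
  have hcl : G.IsNClique k (univ.image x) := by
    refine ⟨?_, ?_⟩
    · intro a ha b hb hab
      simp only [Finset.coe_image, Finset.coe_univ, Set.image_univ, Set.mem_range] at ha hb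
      obtain ⟨i, rfl⟩ := ha
      obtain ⟨j, rfl⟩ := hb
      have hij : i ≠ j := fun h => hab (by rw [h])
      rcases lt_or_gt_of_ne hij with h | h
      · exact (hadj i j h).1
      · exact (hadj j i h).1.symm
    · rw [Finset.card_image_of_injective _ hinj, Finset.card_univ, Fintype.card_fin]
  have h1 := hG _ hcl (fun v _ => Set.mem_univ v)
  have h2 : (univ.filter (fun p : Fin k × Fin k => p.1 < p.2)).image (fun p => col p.1 p.2) ⊆
      cols ψ (univ.image x) := by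
    intro a ha
    rw [Finset.mem_image] at ha
    obtain ⟨p, hp, rfl⟩ := ha
    have hp' := (Finset.mem_filter.1 hp).2
    unfold cols
    rw [Finset.mem_image]
    refine ⟨(x p.1, x p.2), ?_, (hadj p.1 p.2 hp').2⟩
    rw [Finset.mem_offDiag]
    exact ⟨Finset.mem_image_of_mem _ (Finset.mem_univ _),
      Finset.mem_image_of_mem _ (Finset.mem_univ _), fun h => hp'.ne (hinj h)⟩
  have h3 := Finset.card_le_card h2
  omega

open Classical in
/-- colours with large density -/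
noncomputable def dns {n r M : ℕ} (G : SimpleGraph (Fin n)) (κ : Fin n → Fin M) (δ : ℝ)
    (ψ : Sym2 (Fin n) → Fin r) (a b : Fin M) : Finset (Fin r) :=
  univ.filter (fun col => ∃ x y, κ x = a ∧ κ y = b ∧ δ ≤ cellAvg κ (krn G ψ col) x y)

theorem mem_dns {n r M : ℕ} (G : SimpleGraph (Fin n)) (κ : Fin n → Fin M) (δ : ℝ)
    (ψ : Sym2 (Fin n) → Fin r) (x y : Fin n) (a : Fin r) :
    a ∈ dns G κ δ ψ (κ x) (κ y) ↔ δ ≤ cellAvg κ (krn G ψ a) x y := by
  classical
  unfold dns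
  rw [Finset.mem_filter]
  constructor
  · rintro ⟨-, x', y', hx, hy, hd⟩
    rw [← cellAvg_congr κ _ hx hy]
    exact hd
  · intro hd
    exact ⟨Finset.mem_univ _, x, y, rfl, rfl, hd⟩

theorem dns_symm {n r M : ℕ} (G : SimpleGraph (Fin n)) (κ : Fin n → Fin M) (δ : ℝ)
    (ψ : Sym2 (Fin n) → Fin r) (a b : Fin M) : dns G κ δ ψ a b = dns G κ δ ψ b a := by
  classical
  ext c
  unfold dns
  rw [Finset.mem_filter, Finset.mem_filter]
  constructor
  · rintro ⟨h, x, y, hx, hy, hd⟩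
    refine ⟨h, y, x, hy, hx, ?_⟩
    rw [cellAvg_symm κ _ (krn_symm G ψ c)]
    exact hd
  · rintro ⟨h, x, y, hx, hy, hd⟩
    refine ⟨h, y, x, hy, hx, ?_⟩
    rw [cellAvg_symm κ _ (krn_symm G ψ c)]
    exact hd

open Classical in
/-- palettes -/
noncomputable def plt {n r M : ℕ} (G : SimpleGraph (Fin n)) (κ : Fin n → Fin M) (δ : ℝ)
    (ψ : Sym2 (Fin n) → Fin r) (x y : Fin n) : Finset (Fin r) :=
  if G.Adj x y then dns G κ δ ψ (κ x) (κ y) else ∅

theorem mem_plt {n r M : ℕ} (G : SimpleGraph (Fin n)) (κ : Fin n → Fin M) (δ : ℝ)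
    (ψ : Sym2 (Fin n) → Fin r) (x y : Fin n) (a : Fin r) :
    a ∈ plt G κ δ ψ x y ↔ G.Adj x y ∧ δ ≤ cellAvg κ (krn G ψ a) x y := by
  classical
  unfold plt
  by_cases h : G.Adj x y
  · rw [if_pos h, mem_dns]; simp [h]
  · rw [if_neg h]; simp [h]

theorem few_scol {n r M k s : ℕ} (G : SimpleGraph (Fin n)) (ψ : Sym2 (Fin n) → Fin r)
    (hG : Good k s G Set.univ ψ) (κ : Fin n → Fin M) (δ ε0 : ℝ) (hδ : 0 < δ) (hε0 : 0 ≤ ε0)
    (hκ : ∀ a : Fin r, ∀ f g : Fin n → ℝ, (∀ x, 0 ≤ f x ∧ f x ≤ 1) → (∀ x, 0 ≤ g x ∧ g x ≤ 1) →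
        |∑ x, ∑ y, f x * g y * (krn G ψ a x y - cellAvg κ (krn G ψ a) x y)| ≤
          ε0 * (Fintype.card (Fin n) : ℝ) ^ 2) :
    δ ^ (k.choose 2) * ∑ x : Fin k → Fin n, ind (SCol s (fun i j => plt G κ δ ψ (x i) (x j))) ≤
      (r : ℝ) ^ (k * k) * ((k.choose 2 : ℝ) * ε0 * (n : ℝ) ^ k) := by
  classical
  -- for one pattern of colours
  have hone : ∀ col : Fin k → Fin k → Fin r,
      s ≤ ((univ.filter (fun p : Fin k × Fin k => p.1 < p.2)).image
        (fun p => col p.1 p.2)).card →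
      δ ^ (k.choose 2) * ∑ x : Fin k → Fin n,
        ind (∀ i j, i < j → col i j ∈ plt G κ δ ψ (x i) (x j)) ≤
      (k.choose 2 : ℝ) * ε0 * (n : ℝ) ^ k := by
    intro col hcol
    have hcount := Pool.Agent.TH596.J2.counting (V := Fin n) k
      (fun i j => krn G ψ (col i j)) (fun i j => cellAvg κ (krn G ψ (col i j)))
      (fun i j x y => krn_bounds G ψ _ x y)
      (fun i j x y => cellAvg_bounds κ _ (krn_bounds G ψ _) x y) ε0
      (fun i j f g hf hg => hκ (col i j) f g hf hg)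
    rw [Finset.sum_eq_zero (fun x _ => prod_zero G ψ hG col hcol x), zero_sub,
      abs_neg, Fintype.card_fin] at hcount
    refine le_trans ?_ ((le_abs_self _).trans hcount)
    rw [Finset.mul_sum]
    refine Finset.sum_le_sum fun x _ => ?_
    by_cases hx : ∀ i j, i < j → col i j ∈ plt G κ δ ψ (x i) (x j)
    · rw [ind_pos hx, mul_one, ← card_pairs k, ← Finset.prod_const]
      apply Finset.prod_le_prod
      · intro p _; exact hδ.le
      · intro p hp
        exact ((mem_plt _ _ _ _ _ _ _).mp (hx p.1 p.2 (Finset.mem_filter.mp hp).2)).2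
    · rw [ind_neg hx, mul_zero]
      exact Finset.prod_nonneg fun p _ => (cellAvg_bounds κ _ (krn_bounds G ψ _) _ _).1
  set Pt := (univ : Finset (Fin k → Fin k → Fin r)).filter (fun col =>
    s ≤ ((univ.filter (fun p : Fin k × Fin k => p.1 < p.2)).image
        (fun p => col p.1 p.2)).card) with hPt
  have hunion : ∀ x : Fin k → Fin n, ind (SCol s (fun i j => plt G κ δ ψ (x i) (x j))) ≤
      ∑ col ∈ Pt, ind (∀ i j, i < j → col i j ∈ plt G κ δ ψ (x i) (x j)) := by
    intro x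
    by_cases h : SCol s (fun i j => plt G κ δ ψ (x i) (x j))
    · rw [ind_pos h]
      obtain ⟨col, h1, h2⟩ := h
      have h3 : col ∈ Pt := by
        rw [hPt, Finset.mem_filter]
        exact ⟨Finset.mem_univ _, h2⟩
      refine le_trans (ind_pos h1).ge ?_
      exact Finset.single_le_sum (f := fun col : Fin k → Fin k → Fin r =>
        ind (∀ i j, i < j → col i j ∈ plt G κ δ ψ (x i) (x j))) (fun c _ => ind_nonneg _) h3
    · rw [ind_neg h]
      exact Finset.sum_nonneg fun c _ => ind_nonneg _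
  have hcardcol : (Pt.card : ℝ) ≤ (r : ℝ) ^ (k * k) := by
    have h1 := Finset.card_le_univ Pt
    rw [Fintype.card_fun, Fintype.card_fun, Fintype.card_fin, Fintype.card_fin, ← pow_mul] at h1
    exact_mod_cast h1
  have hR0 : 0 ≤ (k.choose 2 : ℝ) * ε0 * (n : ℝ) ^ k := by positivity
  calc δ ^ (k.choose 2) * ∑ x : Fin k → Fin n,
        ind (SCol s (fun i j => plt G κ δ ψ (x i) (x j)))
      ≤ δ ^ (k.choose 2) * ∑ x : Fin k → Fin n,
          ∑ col ∈ Pt, ind (∀ i j, i < j → col i j ∈ plt G κ δ ψ (x i) (x j)) :=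
        mul_le_mul_of_nonneg_left (Finset.sum_le_sum fun x _ => hunion x) (by positivity)
    _ = ∑ col ∈ Pt, δ ^ (k.choose 2) * ∑ x : Fin k → Fin n,
          ind (∀ i j, i < j → col i j ∈ plt G κ δ ψ (x i) (x j)) := by
        rw [Finset.sum_comm, Finset.mul_sum]
    _ ≤ ∑ col ∈ Pt, (k.choose 2 : ℝ) * ε0 * (n : ℝ) ^ k :=
        Finset.sum_le_sum fun col hcol => hone col (Finset.mem_filter.mp hcol).2
    _ = (Pt.card : ℝ) * ((k.choose 2 : ℝ) * ε0 * (n : ℝ) ^ k) := by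
        rw [Finset.sum_const, nsmul_eq_mul]
    _ ≤ _ := mul_le_mul_of_nonneg_right hcardcol hR0

/-- few exceptional pairs -/
theorem few_exc {n r M : ℕ} (G : SimpleGraph (Fin n)) (ψ : Sym2 (Fin n) → Fin r)
    (κ : Fin n → Fin M) (δ : ℝ) (hδ : 0 ≤ δ) :
    ∑ x, ∑ y, ind (G.Adj x y ∧ ψ s(x, y) ∉ plt G κ δ ψ x y) ≤ r * δ * (n : ℝ) ^ 2 := by
  classical
  have h1 : ∀ x y : Fin n, ind (G.Adj x y ∧ ψ s(x, y) ∉ plt G κ δ ψ x y) ≤
      ∑ a : Fin r, krn G ψ a x y *
        (if cellAvg κ (krn G ψ a) x y < δ then (1 : ℝ) else 0) := by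
    intro x y
    have hnn : ∀ a ∈ (univ : Finset (Fin r)), 0 ≤ krn G ψ a x y *
        (if cellAvg κ (krn G ψ a) x y < δ then (1 : ℝ) else 0) := by
      intro a _
      apply mul_nonneg (krn_bounds G ψ a x y).1
      split_ifs <;> norm_num
    by_cases h : G.Adj x y ∧ ψ s(x, y) ∉ plt G κ δ ψ x y
    · rw [ind_pos h]
      obtain ⟨hadj, hnot⟩ := h
      have h2 := Finset.single_le_sum hnn (Finset.mem_univ (ψ s(x, y)))
      refine le_trans ?_ h2
      rw [mem_plt] at hnot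
      have h3 : cellAvg κ (krn G ψ (ψ s(x, y))) x y < δ := by
        by_contra h4
        exact hnot ⟨hadj, not_lt.mp h4⟩
      rw [if_pos h3, mul_one]
      unfold krn
      rw [ind_pos ⟨hadj, rfl⟩]
    · rw [ind_neg h]
      exact Finset.sum_nonneg hnn
  calc _ ≤ ∑ x : Fin n, ∑ y : Fin n, ∑ a : Fin r, krn G ψ a x y *
        (if cellAvg κ (krn G ψ a) x y < δ then (1 : ℝ) else 0) :=
        Finset.sum_le_sum fun x _ => Finset.sum_le_sum fun y _ => h1 x y
    _ = ∑ a : Fin r, ∑ x : Fin n, ∑ y : Fin n, krn G ψ a x y *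
        (if cellAvg κ (krn G ψ a) x y < δ then (1 : ℝ) else 0) := by
        rw [Finset.sum_congr rfl (fun x _ => Finset.sum_comm), Finset.sum_comm]
    _ = ∑ a : Fin r, ∑ x : Fin n, ∑ y : Fin n, cellAvg κ (krn G ψ a) x y *
        (if cellAvg κ (krn G ψ a) x y < δ then (1 : ℝ) else 0) := by
        refine Finset.sum_congr rfl fun a _ => ?_
        apply cellAvg_sum_mul κ (krn G ψ a)
          (fun x y => if cellAvg κ (krn G ψ a) x y < δ then (1 : ℝ) else 0)
        intro x y x' y' hx hy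
        rw [cellAvg_congr κ _ hx hy]
    _ ≤ ∑ a : Fin r, ∑ x : Fin n, ∑ y : Fin n, δ := by
        refine Finset.sum_le_sum fun a _ => Finset.sum_le_sum fun x _ =>
          Finset.sum_le_sum fun y _ => ?_
        split_ifs with h
        · rw [mul_one]; exact h.le
        · rw [mul_zero]; exact hδ
    _ = _ := by
        simp only [Finset.sum_const, Finset.card_univ, Fintype.card_fin, nsmul_eq_mul]
        ring

theorem J12_structure (k s r : ℕ) (hk : 2 ≤ k) (hr : 1 ≤ r) (ε : ℝ) (hε : 0 < ε) :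
    ∃ M : ℕ, ∀ (n : ℕ) (G : SimpleGraph (Fin n)) (ψ : Sym2 (Fin n) → Fin r),
      Good k s G Set.univ ψ →
      ∃ (κ : Fin n → Fin M) (d : Fin M → Fin M → Finset (Fin r))
        (P : Fin n → Fin n → Finset (Fin r)),
        (∀ a b, d a b = d b a) ∧
        (∀ x y, G.Adj x y → P x y = d (κ x) (κ y)) ∧ (∀ x y, ¬ G.Adj x y → P x y = ∅) ∧
        (∑ x : Fin k → Fin n, ind (SCol s (fun i j => P (x i) (x j))) ≤ ε * (n : ℝ) ^ k) ∧
        ∑ x, ∑ y, ind (G.Adj x y ∧ ψ s(x, y) ∉ P x y) ≤ ε * (n : ℝ) ^ 2 := by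
  classical
  have hr0 : (0 : ℝ) < r := by exact_mod_cast hr
  set δ : ℝ := ε / r with hδ
  have hδ0 : 0 < δ := by positivity
  have hrδ : r * δ = ε := by rw [hδ]; field_simp
  set D : ℝ := (r : ℝ) ^ (k * k) * (k.choose 2 : ℝ) + 1 with hD
  have hD0 : 0 < D := by positivity
  set ε0 : ℝ := ε * δ ^ (k.choose 2) / D with hε0
  have hε00 : 0 < ε0 := by positivity
  have hε0D : (r : ℝ) ^ (k * k) * (k.choose 2 : ℝ) * ε0 ≤ ε * δ ^ (k.choose 2) := by
    rw [hε0, ← mul_div_assoc, div_le_iff₀ hD0]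
    have : (r : ℝ) ^ (k * k) * (k.choose 2 : ℝ) ≤ D := by rw [hD]; linarith
    calc (r : ℝ) ^ (k * k) * (k.choose 2 : ℝ) * (ε * δ ^ (k.choose 2))
        ≤ D * (ε * δ ^ (k.choose 2)) := mul_le_mul_of_nonneg_right this (by positivity)
      _ = _ := by ring
  obtain ⟨M, hM⟩ := Pool.Agent.TH596.J1.weak_regularity r ε0 hε00
  refine ⟨M, fun n G ψ hG => ?_⟩
  obtain ⟨κ, hκ⟩ := hM (Fin n) (fun a => krn G ψ a) (fun c x y => krn_bounds G ψ c x y)
  refine ⟨κ, dns G κ δ ψ, plt G κ δ ψ, dns_symm G κ δ ψ, ?_, ?_, ?_, ?_⟩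
  · intro x y h
    unfold plt
    rw [if_pos h]
  · intro x y h
    unfold plt
    rw [if_neg h]
  · have h1 := few_scol G ψ hG κ δ ε0 hδ0 hε00.le (fun a f g hf hg => hκ a f g hf hg)
    have hpow : 0 < δ ^ (k.choose 2) := by positivity
    refine le_of_mul_le_mul_left (h1.trans ?_) hpow
    calc (r : ℝ) ^ (k * k) * ((k.choose 2 : ℝ) * ε0 * (n : ℝ) ^ k)
        = ((r : ℝ) ^ (k * k) * (k.choose 2 : ℝ) * ε0) * (n : ℝ) ^ k := by ring
      _ ≤ (ε * δ ^ (k.choose 2)) * (n : ℝ) ^ k :=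
          mul_le_mul_of_nonneg_right hε0D (by positivity)
      _ = _ := by ring
  · have h1 := few_exc G ψ κ δ hδ0.le
    rw [hrδ] at h1
    exact h1

end Pool.Agent.TH241.J651
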