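import Pool.Agent.TH477.PA.Defs
import Pool.Agent.TH477.RB.Cont1

/-!
# Job 652 (PA-LOWER): number of good colourings of `K_n` from balanced partitions
-/

set_option autoImplicit false

namespace Pool.Agent.TH241.J652

open Finset Pool.Agent.TH477.PA

/-- pairs inside the classes of `S` -/
theorem many_inside {n k p : ℕ} (κ : Fin n → ℕ) (hκ : ∀ v, κ v < p) (S : Finset (Fin n))
    (hS : S.card = k) :
    k ≤ p + ((S.offDiag.filter (fun q => κ q.1 = κ q.2)).image (fun q => s(q.1, q.2))).card := by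
  classical
  rcases S.eq_empty_or_nonempty with hemp | ⟨v₀, hv₀⟩
  · rw [hemp, Finset.card_empty] at hS
    omega
  let ρ : ℕ → Fin n := fun i => if h : ∃ v ∈ S, κ v = i then h.choose else v₀
  have hρ : ∀ v ∈ S, ρ (κ v) ∈ S ∧ κ (ρ (κ v)) = κ v := by
    intro v hv
    have h : ∃ w ∈ S, κ w = κ v := ⟨v, hv, rfl⟩
    simp only [ρ, dif_pos h]
    exact h.choose_spec
  set S' := S \ (Finset.range p).image ρ with hS'
  have h1 : k ≤ p + S'.card := by
    have h2 : S.card ≤ ((Finset.range p).image ρ).card + S'.card := by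
      rw [hS']
      have := Finset.card_le_card (show S ⊆ (Finset.range p).image ρ ∪
        (S \ (Finset.range p).image ρ) by
          intro v hv
          by_cases h : v ∈ (Finset.range p).image ρ
          · exact Finset.mem_union_left _ h
          · exact Finset.mem_union_right _ (Finset.mem_sdiff.2 ⟨hv, h⟩))
      exact this.trans (Finset.card_union_le _ _)
    have h3 : ((Finset.range p).image ρ).card ≤ p :=
      Finset.card_image_le.trans (by rw [Finset.card_range])
    omega
  refine h1.trans (Nat.add_le_add_left ?_ p)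
  refine Finset.card_le_card_of_injOn (fun v => s(v, ρ (κ v))) ?_ ?_
  · intro v hv
    have hv' := Finset.mem_sdiff.1 (Finset.mem_coe.1 hv)
    have h2 := hρ v hv'.1
    have hne : v ≠ ρ (κ v) := by
      intro h
      apply hv'.2
      rw [Finset.mem_image]
      exact ⟨κ v, Finset.mem_range.2 (hκ v), h.symm⟩
    rw [Finset.mem_coe, Finset.mem_image]
    refine ⟨(v, ρ (κ v)), ?_, rfl⟩
    rw [Finset.mem_filter, Finset.mem_offDiag]
    exact ⟨⟨hv'.1, h2.1, hne⟩, h2.2.symm⟩
  · intro v hv w hw hvw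
    have hv' := Finset.mem_sdiff.1 (Finset.mem_coe.1 hv)
    simp only at hvw
    rw [Sym2.eq_iff] at hvw
    rcases hvw with ⟨h, -⟩ | ⟨h, -⟩
    · exact h
    · exfalso
      apply hv'.2
      rw [Finset.mem_image]
      exact ⟨κ w, Finset.mem_range.2 (hκ w), h.symm⟩

/-- number of cross pairs plus number of inside pairs -/
theorem cross_add {n k : ℕ} (κ : Fin n → ℕ) (S : Finset (Fin n)) (hS : S.card = k) :
    ((S.offDiag.filter (fun q => κ q.1 ≠ κ q.2)).image (fun q => s(q.1, q.2))).card +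
    ((S.offDiag.filter (fun q => κ q.1 = κ q.2)).image (fun q => s(q.1, q.2))).card =
      k.choose 2 := by
  classical
  rw [← hS, ← Sym2.card_image_offDiag, ← Finset.card_union_of_disjoint]
  · congr 1
    ext e
    simp only [Finset.mem_union, Finset.mem_image, Finset.mem_filter]
    constructor
    · rintro (⟨q, ⟨hq, -⟩, h⟩ | ⟨q, ⟨hq, -⟩, h⟩)
      · exact ⟨q, hq, h⟩
      · exact ⟨q, hq, h⟩
    · rintro ⟨q, hq, h⟩
      by_cases hk : κ q.1 = κ q.2
      · exact Or.inr ⟨q, ⟨hq, hk⟩, h⟩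
      · exact Or.inl ⟨q, ⟨hq, hk⟩, h⟩
  · rw [Finset.disjoint_left]
    intro e he he'
    rw [Finset.mem_image] at he he'
    obtain ⟨q, hq, rfl⟩ := he
    obtain ⟨q', hq', h⟩ := he'
    have h1 := (Finset.mem_filter.1 hq).2
    have h2 := (Finset.mem_filter.1 hq').2
    rw [Sym2.eq_iff] at h
    rcases h with ⟨h3, h4⟩ | ⟨h3, h4⟩
    · rw [h3, h4] at h2
      exact h1 h2
    · rw [h3, h4] at h2
      exact h1 h2.symm

/-- the pair lies inside a class -/
def ins {n : ℕ} (κ : Fin n → ℕ) (e : Sym2 (Fin n)) : Prop := ∀ a ∈ e, ∀ b ∈ e, κ a = κ b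

theorem ins_mk {n : ℕ} (κ : Fin n → ℕ) (x y : Fin n) : ins κ s(x, y) ↔ κ x = κ y := by
  constructor
  · intro h
    exact h x (Sym2.mem_mk_left x y) y (Sym2.mem_mk_right x y)
  · intro h a ha b hb
    rw [Sym2.mem_iff] at ha hb
    rcases ha with rfl | rfl <;> rcases hb with rfl | rfl
    · rfl
    · exact h
    · exact h.symm
    · rfl

open Classical in
/-- colourings with restricted inside colours -/
noncomputable def TT {n r : ℕ} (κ : Fin n → ℕ) (A : Finset (Fin r)) :
    Finset ((⊤ : SimpleGraph (Fin n)).edgeSet → Fin r) :=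
  Fintype.piFinset fun e => if ins κ (e : Sym2 (Fin n)) then A else univ

theorem good_of_mem {n r k p c D : ℕ} (hk : 3 ≤ k) (hD : 1 ≤ D) (hr : 0 < r)
    (hDC : D ≤ k.choose 2)
    (hpc : (p = 1 ∧ c + D = k.choose 2) ∨ (2 ≤ p ∧ k ≤ 2 * p ∧ p + c + D = k))
    (κ : Fin n → ℕ) (hκ : ∀ v, κ v < p) (A : Finset (Fin r)) (hA : A.card = c)
    (f : (⊤ : SimpleGraph (Fin n)).edgeSet → Fin r) (hf : f ∈ TT κ A)
    (S : Finset (Fin n)) (hS : (⊤ : SimpleGraph (Fin n)).IsNClique k S) :
    Set.ncard {i : Fin r | ∃ e : (⊤ : SimpleGraph (Fin n)).edgeSet,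
      (∀ v ∈ (e : Sym2 (Fin n)), v ∈ S) ∧ f e = i} < k.choose 2 + 1 - D := by
  classical
  have hScard : S.card = k := hS.2
  set X := (S.offDiag.filter (fun q => κ q.1 ≠ κ q.2)).image (fun q => s(q.1, q.2)) with hX
  set I := (S.offDiag.filter (fun q => κ q.1 = κ q.2)).image (fun q => s(q.1, q.2)) with hI
  have h1 : X.card + I.card = k.choose 2 := cross_add κ S hScard
  have h2 : k ≤ p + I.card := many_inside κ hκ S hScard
  let fb : Sym2 (Fin n) → Fin r := fun e =>
    if h : e ∈ (⊤ : SimpleGraph (Fin n)).edgeSet then f ⟨e, h⟩ else ⟨0, hr⟩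
  have h3 : {i : Fin r | ∃ e : (⊤ : SimpleGraph (Fin n)).edgeSet,
      (∀ v ∈ (e : Sym2 (Fin n)), v ∈ S) ∧ f e = i} ⊆ ↑(A ∪ X.image fb) := by
    rintro i ⟨⟨e, he⟩, hv, rfl⟩
    rw [Finset.mem_coe, Finset.mem_union]
    induction e with
    | _ a b =>
      simp only at hv
      have hab : a ≠ b := (SimpleGraph.mem_edgeSet _).1 he |>.ne
      by_cases hin : κ a = κ b
      · left
        have h4 := Fintype.mem_piFinset.1 hf ⟨s(a, b), he⟩
        rw [if_pos ((ins_mk κ a b).2 hin)] at h4
        exact h4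
      · right
        rw [Finset.mem_image]
        refine ⟨s(a, b), ?_, ?_⟩
        · rw [hX, Finset.mem_image]
          refine ⟨(a, b), ?_, rfl⟩
          rw [Finset.mem_filter, Finset.mem_offDiag]
          exact ⟨⟨hv a (Sym2.mem_mk_left a b), hv b (Sym2.mem_mk_right a b), hab⟩, hin⟩
        · simp only [fb, dif_pos he]
  have h4 := Set.ncard_le_ncard h3 (Finset.finite_toSet _)
  rw [Set.ncard_coe_finset] at h4
  have h5 := Finset.card_union_le A (X.image fb)
  have h6 : (X.image fb).card ≤ X.card := Finset.card_image_le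
  rcases hpc with ⟨hp, hcD⟩ | ⟨hp, hkp, hpcD⟩
  · -- one class: no cross pairs
    have h7 : X.card = 0 := by
      rw [Finset.card_eq_zero, hX, Finset.image_eq_empty, Finset.filter_eq_empty_iff]
      intro q _ hq
      have e1 := hκ q.1
      have e2 := hκ q.2
      omega
    omega
  · omega

theorem count_mod (n p x : ℕ) (hp : 0 < p) :
    ((((Finset.univ : Finset (Fin n)).filter fun y => y.val % p = x % p).card : ℕ) : ℝ) ≤
      (n : ℝ) / p + 1 := by
  have h1 : ((Finset.univ : Finset (Fin n)).filter fun y => y.val % p = x % p).card =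
      n.count (· ≡ x [MOD p]) := by
    rw [Nat.count_eq_card_filter_range]
    rw [← Finset.card_map Fin.valEmbedding]
    congr 1
    ext y
    simp only [Finset.mem_map, Finset.mem_filter, Finset.mem_univ, true_and,
      Fin.valEmbedding_apply, Finset.mem_range]
    constructor
    · rintro ⟨a, ha, rfl⟩
      exact ⟨a.2, ha⟩
    · rintro ⟨h1, h2⟩
      exact ⟨⟨y, h1⟩, h2, rfl⟩
  rw [h1, Nat.count_modEq_card n hp x]
  push_cast
  have h2 : ((n / p : ℕ) : ℝ) ≤ (n : ℝ) / p := Nat.cast_div_le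
  split_ifs
  · linarith
  · linarith

theorem J13_lower (k D r p c n : ℕ) (hk : 3 ≤ k) (hD : 1 ≤ D) (hc : 1 ≤ c) (hcr : c ≤ r)
    (hDC : D ≤ k.choose 2)
    (hpc : (p = 1 ∧ c + D = k.choose 2) ∨ (2 ≤ p ∧ k ≤ 2 * p ∧ p + c + D = k)) :
    Real.exp (Real.log r * ((n : ℝ) * (n - 1) / 2) -
      (Real.log r - Real.log c) * (n : ℝ) ^ 2 / (2 * p)) ≤
      (F r k (k.choose 2 + 1 - D) (⊤ : SimpleGraph (Fin n)) : ℝ) := by
  classical
  have hr : 0 < r := by omega
  have hp : 0 < p := by omega
  let κ : Fin n → ℕ := fun v => v.val % p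
  have hκ : ∀ v, κ v < p := fun v => Nat.mod_lt _ hp
  obtain ⟨A, -, hA⟩ := Finset.exists_subset_card_eq (s := (univ : Finset (Fin r))) (n := c)
    (by rw [Finset.card_univ, Fintype.card_fin]; exact hcr)
  -- the number of colourings
  have hF : (TT κ A).card ≤ F r k (k.choose 2 + 1 - D) (⊤ : SimpleGraph (Fin n)) := by
    unfold F
    rw [Nat.card_eq_fintype_card, Fintype.card_subtype]
    refine Finset.card_le_card fun f hf => ?_
    rw [Finset.mem_filter]
    exact ⟨Finset.mem_univ _, fun S hS => good_of_mem hk hD hr hDC hpc κ hκ A hA f hf S hS⟩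
  refine le_trans ?_ (Nat.cast_le.2 hF)
  have hcr' : Real.log c ≤ Real.log r := Real.log_le_log (by exact_mod_cast hc)
    (by exact_mod_cast hcr)
  set L := Real.log r - Real.log c with hL
  have hL0 : 0 ≤ L := by linarith
  have hcard : ((TT κ A).card : ℝ) = Real.exp (∑ e : (⊤ : SimpleGraph (Fin n)).edgeSet,
      (Real.log r - L * ind (ins κ (e : Sym2 (Fin n))))) := by
    unfold TT
    rw [Fintype.card_piFinset, Real.exp_sum]
    push_cast
    refine Finset.prod_congr rfl fun e _ => ?_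
    by_cases h : ins κ (e : Sym2 (Fin n))
    · rw [if_pos h, ind_pos h, hA, mul_one, hL, sub_sub_cancel,
        Real.exp_log (by exact_mod_cast hc)]
    · rw [if_neg h, ind_neg h, mul_zero, sub_zero, Finset.card_univ, Fintype.card_fin,
        Real.exp_log (by exact_mod_cast hr)]
  rw [hcard]
  apply Real.exp_le_exp.2
  -- the sum over the edges
  let g : Sym2 (Fin n) → ℝ := fun e =>
    if e ∈ (⊤ : SimpleGraph (Fin n)).edgeSet then Real.log r - L * ind (ins κ e) else 0
  have h1 := Pool.Agent.TH477.RB.sum_pairs_eq (⊤ : SimpleGraph (Fin n)) g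
    (fun e he => if_neg he)
  have h2 : ∑ e : (⊤ : SimpleGraph (Fin n)).edgeSet, g e =
      ∑ e : (⊤ : SimpleGraph (Fin n)).edgeSet,
        (Real.log r - L * ind (ins κ (e : Sym2 (Fin n)))) :=
    Finset.sum_congr rfl fun e _ => if_pos e.2
  rw [← h2]
  have h3 : ∀ x : Fin n, Real.log r * ((n : ℝ) - 1) - L * ((n : ℝ) / p) ≤ ∑ y, g s(x, y) := by
    intro x
    have e1 : ∀ y : Fin n, g s(x, y) = (Real.log r - L * ind (κ x = κ y)) -
        (if y = x then Real.log r - L else 0) := by
      intro y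
      by_cases hxy : y = x
      · subst hxy
        simp only [g, SimpleGraph.mem_edgeSet, SimpleGraph.irrefl, if_false, if_true]
        rw [ind_pos trivial]
        ring
      · have : s(x, y) ∈ (⊤ : SimpleGraph (Fin n)).edgeSet := by
          rw [SimpleGraph.mem_edgeSet, SimpleGraph.top_adj]
          exact fun h => hxy h.symm
        simp only [g, if_pos this, if_neg hxy, sub_zero]
        rw [ind_congr (ins_mk κ x y)]
    have e2 : ∑ y : Fin n, ind (κ x = κ y) ≤ (n : ℝ) / p + 1 := by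
      have := count_mod n p x.val hp
      rw [card_filter_ind] at this
      refine le_trans (le_of_eq ?_) this
      exact Finset.sum_congr rfl fun y _ => ind_congr eq_comm
    rw [Finset.sum_congr rfl fun y _ => e1 y, Finset.sum_sub_distrib, Finset.sum_sub_distrib,
      Finset.sum_ite_eq' , if_pos (Finset.mem_univ _), ← Finset.mul_sum, Finset.sum_const,
      Finset.card_univ, Fintype.card_fin, nsmul_eq_mul]
    have e3 := mul_le_mul_of_nonneg_left e2 hL0
    nlinarith
  have h4 : (n : ℝ) * (Real.log r * ((n : ℝ) - 1) - L * ((n : ℝ) / p)) ≤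
      ∑ x, ∑ y, g s(x, y) := by
    calc (n : ℝ) * (Real.log r * ((n : ℝ) - 1) - L * ((n : ℝ) / p))
        = ∑ _x : Fin n, (Real.log r * ((n : ℝ) - 1) - L * ((n : ℝ) / p)) := by
          rw [Finset.sum_const, Finset.card_univ, Fintype.card_fin, nsmul_eq_mul]
      _ ≤ _ := Finset.sum_le_sum fun x _ => h3 x
  rw [h1] at h4
  have hp' : (p : ℝ) ≠ 0 := by exact_mod_cast hp.ne'
  have h5 : Real.log r * ((n : ℝ) * (n - 1) / 2) - L * (n : ℝ) ^ 2 / (2 * p) =
      (n : ℝ) * (Real.log r * ((n : ℝ) - 1) - L * ((n : ℝ) / p)) / 2 := by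
    field_simp
  rw [h5]
  linarith

end Pool.Agent.TH241.J652
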